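import Mathlib

/-!
A counting inequality for hitting sets: the combinatorial core of the upper bound.
-/

namespace Pool.Agent.H65.Sat

open Finset

/-- The constants of the inequality. -/
noncomputable def cc : ℕ → ℝ
  | 0 => 1
  | (s + 1) => min (cc s / (2 * ((s : ℝ) + 1))) (1 / (2 * ((s : ℝ) + 2)))

lemma cc_pos (s : ℕ) : 0 < cc s := by
  induction s with
  | zero => simp [cc]
  | succ s ih =>
    rw [cc]
    refine lt_min ?_ ?_ <;> positivity

lemma aux_half (s ν : ℝ) (hs : 0 ≤ s) : (s + 1) * (ν / (2 * (s + 1))) = ν / 2 := by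
  have : s + 1 ≠ 0 := by positivity
  field_simp

lemma aux_exp (s : ℝ) (hs : 0 ≤ s) : ((s + 1) / (s + 2)) * (1 / (s + 1)) = 1 / (s + 2) := by
  have : s + 1 ≠ 0 := by positivity
  have : s + 2 ≠ 0 := by positivity
  field_simp

lemma aux_exp2 (s : ℝ) (hs : 0 ≤ s) : (s + 1) / (s + 2) + 1 / (s + 2) = 1 := by
  have : s + 2 ≠ 0 := by positivity
  field_simp
  ring

theorem claim (s : ℕ) : ∀ {ι κ V : Type} [DecidableEq ι] [DecidableEq κ] [DecidableEq V]
    (Z : Finset κ), Z.card = s → ∀ (I : Finset ι) (Q : κ → ι → V) (u : ι → V) (B : ι → Finset V),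
    Set.InjOn u I →
    (∀ i ∈ I, ∀ k ∈ I, u i ∈ B k ∨ ∃ h ∈ Z, Q h i ∈ B k) →
    (∀ k ∈ I, ∀ h ∈ Z, Q h k ∉ B k) →
    cc s * (I.card : ℝ) ^ (1 + 1 / ((s : ℝ) + 1)) ≤ ∑ k ∈ I, ((B k).card : ℝ) := by
  induction s with
  | zero =>
    intro ι κ V _ _ _ Z hZ I Q u B hu hhit _
    have hZ0 : Z = ∅ := Finset.card_eq_zero.mp hZ
    subst hZ0
    have h1 : ∀ k ∈ I, (I.card : ℝ) ≤ ((B k).card : ℝ) := by
      intro k hk
      have : I.card ≤ (B k).card := by
        rw [← Finset.card_image_of_injOn hu]
        apply Finset.card_le_card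
        intro y hy
        obtain ⟨i, hi, rfl⟩ := Finset.mem_image.mp hy
        rcases hhit i hi k hk with h | ⟨h, hh, _⟩
        · exact h
        · simp at hh
      exact_mod_cast this
    calc cc 0 * (I.card : ℝ) ^ (1 + 1 / (((0 : ℕ) : ℝ) + 1)) = (I.card : ℝ) * I.card := by
          simp only [cc, Nat.cast_zero, zero_add, div_one, one_mul]
          rw [show (1 : ℝ) + 1 = ((2 : ℕ) : ℝ) by norm_num, Real.rpow_natCast]
          ring
      _ = ∑ k ∈ I, (I.card : ℝ) := by simp
      _ ≤ _ := Finset.sum_le_sum h1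
  | succ s ih =>
    intro ι κ V _ _ _ Z hZ I Q u B hu hhit hav
    rcases Finset.eq_empty_or_nonempty I with hI | hI
    · subst hI
      have : (0 : ℝ) ^ (1 + 1 / (((s + 1 : ℕ) : ℝ) + 1)) = 0 := by
        apply Real.zero_rpow; positivity
      rw [Finset.card_empty, Nat.cast_zero, this]
      simp
    set ν : ℝ := (I.card : ℝ) with hν
    have hν1 : 1 ≤ ν := by
      rw [hν]; exact_mod_cast hI.card_pos
    have hν0 : 0 < ν := by linarith
    set P : ℝ := ν ^ (((s : ℝ) + 1) / ((s : ℝ) + 2)) with hP
    have hP1 : 1 ≤ P := Real.one_le_rpow hν1 (by positivity)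
    have hs0 : (0 : ℝ) ≤ s := Nat.cast_nonneg s
    set grp : κ → ι → ℕ := fun h i => (I.filter (fun i' => Q h i' = Q h i)).card with hgrp
    set Big : κ → Finset ι := fun h => I.filter (fun i => P ≤ (grp h i : ℝ)) with hBig
    have hexp : (1 : ℝ) + 1 / (((s + 1 : ℕ) : ℝ) + 1) = 1 + 1 / ((s : ℝ) + 2) := by
      push_cast; ring_nf
    rw [hexp]
    have hνsplit : ν ^ ((1 : ℝ) + 1 / ((s : ℝ) + 2)) = ν * ν ^ (1 / ((s : ℝ) + 2)) := by
      rw [Real.rpow_add hν0, Real.rpow_one]
    rw [hνsplit]
    have hpe : 0 < ν ^ (1 / ((s : ℝ) + 2)) := Real.rpow_pos_of_pos hν0 _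
    have hPpow : P ^ (1 / ((s : ℝ) + 1)) = ν ^ (1 / ((s : ℝ) + 2)) := by
      rw [hP, ← Real.rpow_mul hν0.le, aux_exp _ hs0]
    have hPmul : P * ν ^ (1 / ((s : ℝ) + 2)) = ν := by
      rw [hP, ← Real.rpow_add hν0, aux_exp2 _ hs0, Real.rpow_one]
    by_cases hcase : ∃ h ∈ Z, ν ≤ 2 * ((s : ℝ) + 1) * ((Big h).card : ℝ)
    · obtain ⟨h, hh, hbig⟩ := hcase
      set Z' := Z.erase h with hZ'
      have hZ'c : Z'.card = s := by
        rw [hZ', Finset.card_erase_of_mem hh, hZ]; rfl
      set T := (Big h).image (Q h) with hT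
      have hTsub : T ⊆ I.image (Q h) := by
        rw [hT]
        apply Finset.image_subset_image
        exact Finset.filter_subset _ _
      -- each big group
      have hgroup : ∀ y ∈ T, cc s * ν ^ (1 / ((s : ℝ) + 2)) *
          ((I.filter (fun i => Q h i = y)).card : ℝ) ≤
          ∑ k ∈ I.filter (fun i => Q h i = y), ((B k).card : ℝ) := by
        intro y hy
        obtain ⟨i0, hi0, hi0y⟩ := Finset.mem_image.mp hy
        set Iy := I.filter (fun i => Q h i = y) with hIy
        have hIyP : P ≤ (Iy.card : ℝ) := by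
          have := (Finset.mem_filter.mp hi0).2
          simp only [hgrp] at this
          rw [hIy, ← hi0y]
          exact this
        have hIypos : (0 : ℝ) < Iy.card := by linarith
        have := ih Z' hZ'c Iy Q u B
          (hu.mono (by intro i hi; exact (Finset.mem_filter.mp hi).1))
          (by
            intro i hi k hk
            have hi' := Finset.mem_filter.mp hi
            have hk' := Finset.mem_filter.mp hk
            rcases hhit i hi'.1 k hk'.1 with h1 | ⟨h', hh', h1⟩
            · exact Or.inl h1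
            · right
              refine ⟨h', ?_, h1⟩
              rw [hZ']
              refine Finset.mem_erase.mpr ⟨?_, hh'⟩
              rintro rfl
              rw [hi'.2, ← hk'.2] at h1
              exact hav k hk'.1 h' hh' h1)
          (by
            intro k hk h' hh'
            exact hav k (Finset.mem_filter.mp hk).1 h' (Finset.mem_of_mem_erase hh'))
        refine le_trans ?_ this
        rw [mul_assoc]
        apply mul_le_mul_of_nonneg_left _ (cc_pos s).le
        rw [Real.rpow_add hIypos, Real.rpow_one, mul_comm]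
        apply mul_le_mul_of_nonneg_left _ hIypos.le
        rw [← hPpow]
        apply Real.rpow_le_rpow (by linarith) hIyP (by positivity)
      have hsum1 : ∑ k ∈ I, ((B k).card : ℝ) =
          ∑ y ∈ I.image (Q h), ∑ k ∈ I.filter (fun i => Q h i = y), ((B k).card : ℝ) := by
        rw [Finset.sum_fiberwise_of_maps_to]
        intro i hi
        exact Finset.mem_image_of_mem _ hi
      have hsum2 : ∑ y ∈ T, ∑ k ∈ I.filter (fun i => Q h i = y), ((B k).card : ℝ) ≤
          ∑ k ∈ I, ((B k).card : ℝ) := by
        rw [hsum1]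
        apply Finset.sum_le_sum_of_subset_of_nonneg hTsub
        intro _ _ _
        exact Finset.sum_nonneg (fun _ _ => Nat.cast_nonneg _)
      have hcard : ((Big h).card : ℝ) ≤ ∑ y ∈ T, ((I.filter (fun i => Q h i = y)).card : ℝ) := by
        have : (Big h).card ≤ ∑ y ∈ T, (I.filter (fun i => Q h i = y)).card := by
          rw [Finset.card_eq_sum_card_image (Q h) (Big h)]
          apply Finset.sum_le_sum
          intro y _
          apply Finset.card_le_card
          intro i hi
          have := Finset.mem_filter.mp hi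
          exact Finset.mem_filter.mpr ⟨(Finset.mem_filter.mp this.1).1, this.2⟩
        exact_mod_cast this
      calc cc (s + 1) * (ν * ν ^ (1 / ((s : ℝ) + 2)))
          ≤ cc s / (2 * ((s : ℝ) + 1)) * (ν * ν ^ (1 / ((s : ℝ) + 2))) := by
            apply mul_le_mul_of_nonneg_right _ (by positivity)
            rw [cc]; exact min_le_left _ _
        _ = cc s * ν ^ (1 / ((s : ℝ) + 2)) * (ν / (2 * ((s : ℝ) + 1))) := by ring
        _ ≤ cc s * ν ^ (1 / ((s : ℝ) + 2)) * ((Big h).card : ℝ) := by
            apply mul_le_mul_of_nonneg_left _ (mul_pos (cc_pos s) hpe).le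
            rw [div_le_iff₀ (by positivity)]
            linarith
        _ ≤ cc s * ν ^ (1 / ((s : ℝ) + 2)) *
              ∑ y ∈ T, ((I.filter (fun i => Q h i = y)).card : ℝ) :=
            mul_le_mul_of_nonneg_left hcard (mul_pos (cc_pos s) hpe).le
        _ = ∑ y ∈ T, cc s * ν ^ (1 / ((s : ℝ) + 2)) *
              ((I.filter (fun i => Q h i = y)).card : ℝ) := by rw [Finset.mul_sum]
        _ ≤ ∑ y ∈ T, ∑ k ∈ I.filter (fun i => Q h i = y), ((B k).card : ℝ) :=
            Finset.sum_le_sum hgroup
        _ ≤ _ := hsum2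
    · push Not at hcase
      set I' := I \ Z.biUnion Big with hI'
      have hI'card : ν / 2 ≤ (I'.card : ℝ) := by
        have h1 : I.card ≤ I'.card + (Z.biUnion Big).card := by
          rw [hI']
          have := Finset.card_le_card (show I ⊆ (I \ Z.biUnion Big) ∪ Z.biUnion Big by
            intro i hi
            by_cases hb : i ∈ Z.biUnion Big
            · exact Finset.mem_union_right _ hb
            · exact Finset.mem_union_left _ (Finset.mem_sdiff.mpr ⟨hi, hb⟩))
          exact this.trans (Finset.card_union_le _ _)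
        have h2 : ((Z.biUnion Big).card : ℝ) ≤ ∑ h ∈ Z, ((Big h).card : ℝ) := by
          exact_mod_cast Finset.card_biUnion_le
        have h3 : ∑ h ∈ Z, ((Big h).card : ℝ) ≤ ∑ h ∈ Z, ν / (2 * ((s : ℝ) + 1)) := by
          apply Finset.sum_le_sum
          intro h hh
          rw [le_div_iff₀ (by positivity)]
          have := hcase h hh
          linarith
        have h4 : ∑ h ∈ Z, ν / (2 * ((s : ℝ) + 1)) = ν / 2 := by
          rw [Finset.sum_const, hZ, nsmul_eq_mul]
          push_cast
          exact aux_half _ _ hs0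
        have h1' : ν ≤ (I'.card : ℝ) + ((Z.biUnion Big).card : ℝ) := by
          rw [hν]; exact_mod_cast h1
        linarith
      have hfew : ∀ h ∈ Z, ∀ y, ((I'.filter (fun i => Q h i = y)).card : ℝ) ≤ P := by
        intro h hh y
        rcases Finset.eq_empty_or_nonempty (I'.filter (fun i => Q h i = y)) with he | ⟨i, hi⟩
        · rw [he]; simp; linarith
        · have hi' := Finset.mem_filter.mp hi
          have hi'' := Finset.mem_sdiff.mp hi'.1
          have hnb : i ∉ Big h := fun hb => hi''.2 (Finset.mem_biUnion.mpr ⟨h, hh, hb⟩)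
          have : (grp h i : ℝ) < P := by
            by_contra hcon
            push Not at hcon
            exact hnb (Finset.mem_filter.mpr ⟨hi''.1, hcon⟩)
          have hle : (I'.filter (fun i => Q h i = y)).card ≤ grp h i := by
            apply Finset.card_le_card
            intro i' hi1
            have h1 := Finset.mem_filter.mp hi1
            refine Finset.mem_filter.mpr ⟨(Finset.mem_sdiff.mp h1.1).1, ?_⟩
            rw [h1.2, hi'.2]
          have : ((I'.filter (fun i => Q h i = y)).card : ℝ) ≤ (grp h i : ℝ) := by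
            exact_mod_cast hle
          linarith
      have hB : ∀ k ∈ I, ν ^ (1 / ((s : ℝ) + 2)) / (2 * ((s : ℝ) + 2)) ≤ ((B k).card : ℝ) := by
        intro k hk
        have hcov : I' ⊆ (B k).biUnion (fun y => I'.filter (fun i => u i = y) ∪
            Z.biUnion (fun h => I'.filter (fun i => Q h i = y))) := by
          intro i hi
          have hiI : i ∈ I := (Finset.mem_sdiff.mp hi).1
          rcases hhit i hiI k hk with h1 | ⟨h, hh, h1⟩
          · exact Finset.mem_biUnion.mpr ⟨u i, h1, Finset.mem_union_left _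
              (Finset.mem_filter.mpr ⟨hi, rfl⟩)⟩
          · exact Finset.mem_biUnion.mpr ⟨Q h i, h1, Finset.mem_union_right _
              (Finset.mem_biUnion.mpr ⟨h, hh, Finset.mem_filter.mpr ⟨hi, rfl⟩⟩)⟩
        have hone : ∀ y, ((I'.filter (fun i => u i = y)).card : ℝ) ≤ 1 := by
          intro y
          have : (I'.filter (fun i => u i = y)).card ≤ 1 := by
            rw [Finset.card_le_one]
            intro i hi j hj
            have hi' := Finset.mem_filter.mp hi
            have hj' := Finset.mem_filter.mp hj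
            exact hu (Finset.mem_sdiff.mp hi'.1).1 (Finset.mem_sdiff.mp hj'.1).1
              (hi'.2.trans hj'.2.symm)
          exact_mod_cast this
        have h5 : (I'.card : ℝ) ≤ ∑ y ∈ B k, (1 + ((s : ℝ) + 1) * P) := by
          have h6 : (I'.card : ℝ) ≤ ∑ y ∈ B k, ((I'.filter (fun i => u i = y) ∪
            Z.biUnion (fun h => I'.filter (fun i => Q h i = y))).card : ℝ) := by
            exact_mod_cast (Finset.card_le_card hcov).trans Finset.card_biUnion_le
          refine h6.trans (Finset.sum_le_sum ?_)
          intro y _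
          have h7 : (((I'.filter (fun i => u i = y) ∪
            Z.biUnion (fun h => I'.filter (fun i => Q h i = y))).card : ℕ) : ℝ) ≤
            ((I'.filter (fun i => u i = y)).card : ℝ) +
            ∑ h ∈ Z, ((I'.filter (fun i => Q h i = y)).card : ℝ) := by
            exact_mod_cast (Finset.card_union_le _ _).trans
              (Nat.add_le_add_left Finset.card_biUnion_le _)
          have h8 : ∑ h ∈ Z, ((I'.filter (fun i => Q h i = y)).card : ℝ) ≤
              ((s : ℝ) + 1) * P := by
            calc ∑ h ∈ Z, ((I'.filter (fun i => Q h i = y)).card : ℝ) ≤ ∑ h ∈ Z, P :=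
                  Finset.sum_le_sum (fun h hh => hfew h hh y)
              _ = ((s : ℝ) + 1) * P := by
                  rw [Finset.sum_const, hZ, nsmul_eq_mul]; push_cast; ring
          linarith [hone y]
        rw [Finset.sum_const, nsmul_eq_mul] at h5
        have h9 : ν / 2 ≤ ((B k).card : ℝ) * (((s : ℝ) + 2) * P) := by
          refine hI'card.trans (h5.trans ?_)
          apply mul_le_mul_of_nonneg_left _ (Nat.cast_nonneg _)
          nlinarith
        rw [div_le_iff₀ (by positivity)]
        have hP0 : 0 < P := by linarith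
        -- ν^{1/(s+2)} * P = ν
        have h10 : ν ^ (1 / ((s : ℝ) + 2)) * P ≤ ((B k).card : ℝ) * (2 * ((s : ℝ) + 2)) * P := by
          rw [mul_comm, hPmul]
          nlinarith
        exact le_of_mul_le_mul_right h10 hP0
      calc cc (s + 1) * (ν * ν ^ (1 / ((s : ℝ) + 2)))
          ≤ 1 / (2 * ((s : ℝ) + 2)) * (ν * ν ^ (1 / ((s : ℝ) + 2))) := by
            apply mul_le_mul_of_nonneg_right _ (by positivity)
            rw [cc]; exact min_le_right _ _
        _ = ∑ k ∈ I, ν ^ (1 / ((s : ℝ) + 2)) / (2 * ((s : ℝ) + 2)) := by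
            rw [Finset.sum_const, nsmul_eq_mul, ← hν]; ring
        _ ≤ _ := Finset.sum_le_sum hB

end Pool.Agent.H65.Sat
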