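import Pool.Agent.H65.Sat.Edges

/-!
The almost complete multipartite core.
-/

namespace Pool.Agent.H65.Sat

open Finset

lemma dg_erase_self {V : Type} [DecidableEq V] (G : SimpleGraph V) (Y : Finset V) (v : V) :
    dg G (Y.erase v) v = dg G Y v := by
  classical
  unfold dg
  congr 1
  ext w
  simp only [Finset.mem_filter, Finset.mem_erase]
  constructor
  · rintro ⟨⟨_, h1⟩, h2⟩; exact ⟨h1, h2⟩
  · rintro ⟨h1, h2⟩; exact ⟨⟨h2.ne.symm, h1⟩, h2⟩

theorem exists_core {V : Type} [Fintype V] [DecidableEq V] (G : SimpleGraph V) (β : ℝ) :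
    ∃ Y : Finset V, (∀ v ∈ Y, β * ((Y.card : ℝ) - 1 / 2) ≤ (dg G Y v : ℝ)) ∧
      (∀ x ∉ Y, (dg G Y x : ℝ) ≤ β * ((Y.card : ℝ) + 1 / 2)) ∧
      (E2 G univ : ℝ) - β * (Fintype.card V : ℝ) ^ 2 ≤ (E2 G Y : ℝ) - β * (Y.card : ℝ) ^ 2 := by
  classical
  obtain ⟨Y, _, hmax⟩ := Finset.exists_max_image (Finset.univ : Finset (Finset V))
    (fun Y => (E2 G Y : ℝ) - β * (Y.card : ℝ) ^ 2) ⟨∅, Finset.mem_univ _⟩
  refine ⟨Y, ?_, ?_, ?_⟩
  · intro v hv
    have h1 := hmax (Y.erase v) (Finset.mem_univ _)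
    have h2 : E2 G Y = E2 G (Y.erase v) + 2 * dg G Y v := by
      conv_lhs => rw [← Finset.insert_erase hv]
      rw [E2_insert G _ (Finset.notMem_erase v Y), dg_erase_self]
    have h3 : ((Y.erase v).card : ℝ) = (Y.card : ℝ) - 1 := by
      rw [Finset.card_erase_of_mem hv, Nat.cast_sub (Finset.card_pos.mpr ⟨v, hv⟩)]
      simp
    have h4 : (E2 G Y : ℝ) = (E2 G (Y.erase v) : ℝ) + 2 * (dg G Y v : ℝ) := by
      exact_mod_cast h2
    rw [h3, h4] at h1
    nlinarith
  · intro x hx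
    have h1 := hmax (insert x Y) (Finset.mem_univ _)
    have h2 := E2_insert G Y hx
    have h3 : ((insert x Y).card : ℝ) = (Y.card : ℝ) + 1 := by
      rw [Finset.card_insert_of_notMem hx]; push_cast; ring
    have h4 : (E2 G (insert x Y) : ℝ) = (E2 G Y : ℝ) + 2 * (dg G Y x : ℝ) := by
      exact_mod_cast h2
    rw [h3, h4] at h1
    nlinarith
  · have h1 := hmax univ (Finset.mem_univ _)
    simpa using h1

/-- AES inequality. -/
lemma aes_ineq (R N : ℝ) (hR : 2 ≤ R) (hN : 3 * R ^ 2 ≤ N) :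
    (3 * R - 4) / (3 * R - 1) * N < (1 - 1 / R - 1 / (4 * R ^ 4)) * (N - 1 / 2) := by
  have hR0 : 0 < R := by linarith
  have h1 : (3 * R - 4) / (3 * R - 1) = 1 - 1 / R - 1 / (R * (3 * R - 1)) := by
    have : 3 * R - 1 ≠ 0 := by linarith
    field_simp
    ring
  have h2 : 1 / (3 * R ^ 2) ≤ 1 / (R * (3 * R - 1)) := by
    apply one_div_le_one_div_of_le
    · nlinarith
    · nlinarith
  have h3 : 1 / (4 * R ^ 4) ≤ 1 / (16 * R ^ 2) := by
    apply one_div_le_one_div_of_le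
    · positivity
    · nlinarith [mul_nonneg (show (0:ℝ) ≤ R ^ 2 by positivity) (show (0:ℝ) ≤ R ^ 2 - 4 by nlinarith)]
  have h4 : 1 / (3 * R ^ 2) - 1 / (16 * R ^ 2) = 13 / (48 * R ^ 2) := by
    field_simp
    ring
  have h5 : 0 < 1 / (4 * R ^ 4) := by positivity
  have h6 : 0 < 1 / R := by positivity
  rw [h1]
  have h7 : 39 / 48 ≤ 13 / (48 * R ^ 2) * N := by
    rw [div_mul_eq_mul_div, le_div_iff₀ (by positivity)]
    nlinarith
  have hN0 : 0 ≤ N := by nlinarith
  have h8 : 13 / (48 * R ^ 2) * N ≤ (1 / (R * (3 * R - 1)) - 1 / (4 * R ^ 4)) * N := by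
    apply mul_le_mul_of_nonneg_right _ hN0
    linarith
  nlinarith

theorem colorable_core {V : Type} [DecidableEq V] (G : SimpleGraph V) (r : ℕ)
    (hr : 2 ≤ r) (hG : G.CliqueFree (r + 1)) (Y : Finset V)
    (hN : 3 * (r : ℝ) ^ 2 ≤ (Y.card : ℝ))
    (hdeg : ∀ v ∈ Y, (1 - 1 / (r : ℝ) - 1 / (4 * (r : ℝ) ^ 4)) * ((Y.card : ℝ) - 1 / 2) ≤
      (dg G Y v : ℝ)) :
    ∃ f : V → Fin r, ∀ u ∈ Y, ∀ v ∈ Y, G.Adj u v → f u ≠ f v := by
  classical
  have hr2 : (2 : ℝ) ≤ r := by exact_mod_cast hr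
  have hYpos : 0 < Y.card := by
    have : (0 : ℝ) < Y.card := by nlinarith
    exact_mod_cast this
  set H := G.induce (Y : Set V) with hH
  have hHf : H.CliqueFree (r + 1) := hG.comap ⟨(SimpleGraph.Embedding.induce (Y : Set V)).toCopy⟩
  have hcard : Fintype.card (Y : Set V) = Y.card := by simp
  obtain ⟨v0, hv0⟩ := Finset.card_pos.mp hYpos
  have : Nonempty (Y : Set V) := ⟨⟨v0, hv0⟩⟩
  have hd : ∀ v : (Y : Set V), H.degree v = dg G Y v := by
    intro v
    unfold dg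
    rw [← SimpleGraph.card_neighborFinset_eq_degree]
    apply Finset.card_bij (fun (w : (Y : Set V)) _ => (w : V))
    · intro w hw
      rw [SimpleGraph.mem_neighborFinset] at hw
      exact Finset.mem_filter.mpr ⟨w.2, hw⟩
    · intro a _ b _ hab
      exact Subtype.ext hab
    · intro w hw
      have := Finset.mem_filter.mp hw
      refine ⟨⟨w, this.1⟩, ?_, rfl⟩
      rw [SimpleGraph.mem_neighborFinset]
      exact this.2
  have hmin : (3 * r - 4) * Fintype.card (Y : Set V) / (3 * r - 1) < H.minDegree := by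
    rw [hcard]
    have : (3 * r - 4) * Y.card / (3 * r - 1) + 1 ≤ H.minDegree := by
      apply SimpleGraph.le_minDegree_of_forall_le_degree
      intro v
      rw [hd v]
      have h1 := hdeg v v.2
      have h2 := aes_ineq r Y.card hr2 hN
      have h3 : (((3 * r - 4) * Y.card / (3 * r - 1) : ℕ) : ℝ) ≤
          (3 * (r : ℝ) - 4) / (3 * (r : ℝ) - 1) * Y.card := by
        refine (Nat.cast_div_le).trans ?_
        rw [Nat.cast_mul, Nat.cast_sub (by omega), Nat.cast_sub (by omega)]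
        push_cast
        rw [div_mul_eq_mul_div]
      have h4 : (((3 * r - 4) * Y.card / (3 * r - 1) : ℕ) : ℝ) < (dg G Y v : ℝ) := by linarith
      have h5 : (3 * r - 4) * Y.card / (3 * r - 1) < dg G Y v := by exact_mod_cast h4
      omega
    omega
  obtain ⟨c⟩ := SimpleGraph.colorable_of_cliqueFree_lt_minDegree hHf hmin
  have hr0 : 0 < r := by omega
  refine ⟨fun v => if h : v ∈ Y then c ⟨v, h⟩ else ⟨0, hr0⟩, ?_⟩
  intro u hu v hv huv
  simp only [hu, hv, dif_pos]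
  exact c.valid huv

/-- the number of missing pairs at `v` -/
noncomputable def ms {V : Type} {r : ℕ} (G : SimpleGraph V) (f : V → Fin r) (Y : Finset V) (v : V) :
    ℕ := by
  classical
  exact (Y.filter (fun y => f v ≠ f y ∧ ¬ G.Adj v y)).card

lemma card_split {V : Type} [DecidableEq V] {r : ℕ} (G : SimpleGraph V) (f : V → Fin r)
    (Y : Finset V) (hf : ∀ u ∈ Y, ∀ v ∈ Y, G.Adj u v → f u ≠ f v) (v : V) (hv : v ∈ Y) :
    Y.card = (Y.filter (fun y => f y = f v)).card + dg G Y v + ms G f Y v := by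
  classical
  have h1 := Finset.card_filter_add_card_filter_not (s := Y) (fun y => f y = f v)
  have h2 := Finset.card_filter_add_card_filter_not (s := Y.filter (fun y => ¬ f y = f v))
    (fun y => G.Adj v y)
  rw [Finset.filter_filter, Finset.filter_filter] at h2
  have h3 : Y.filter (fun y => ¬ f y = f v ∧ G.Adj v y) = Y.filter (fun y => G.Adj v y) := by
    apply Finset.filter_congr
    intro y hy
    constructor
    · exact fun h => h.2
    · exact fun h => ⟨(hf v hv y hy h).symm, h⟩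
  have h4 : Y.filter (fun y => ¬ f y = f v ∧ ¬ G.Adj v y) =
      Y.filter (fun y => f v ≠ f y ∧ ¬ G.Adj v y) := by
    apply Finset.filter_congr
    intro y hy
    constructor
    · exact fun h => ⟨fun h' => h.1 h'.symm, h.2⟩
    · exact fun h => ⟨fun h' => h.1 h'.symm, h.2⟩
  rw [h3, h4] at h2
  have h5 : dg G Y v = (Y.filter (fun y => G.Adj v y)).card := by
    unfold dg; congr
  have h6 : ms G f Y v = (Y.filter (fun y => f v ≠ f y ∧ ¬ G.Adj v y)).card := by
    unfold ms; congr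
  omega

lemma card_eq_sum_classes {V : Type} [DecidableEq V] {r : ℕ} (f : V → Fin r)
    (Y : Finset V) : (Y.card : ℝ) = ∑ i : Fin r, ((Y.filter (fun y => f y = i)).card : ℝ) := by
  have : Y.card = ∑ i : Fin r, (Y.filter (fun y => f y = i)).card :=
    Finset.card_eq_sum_card_fiberwise (fun y _ => Finset.mem_univ _)
  exact_mod_cast this

theorem missing_small {V : Type} [DecidableEq V] (G : SimpleGraph V) (r : ℕ)
    (hr : 2 ≤ r) (f : V → Fin r) (Y : Finset V)
    (hf : ∀ u ∈ Y, ∀ v ∈ Y, G.Adj u v → f u ≠ f v)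
    (hN : 1 ≤ (Y.card : ℝ))
    (hdeg : ∀ v ∈ Y, (1 - 1 / (r : ℝ) - 1 / (4 * (r : ℝ) ^ 4)) * ((Y.card : ℝ) - 1 / 2) ≤
      (dg G Y v : ℝ)) :
    ∀ v ∈ Y, (ms G f Y v : ℝ) ≤ (Y.card : ℝ) / (4 * (r : ℝ) ^ 3) + r := by
  classical
  have hr2 : (2 : ℝ) ≤ r := by exact_mod_cast hr
  have hr0 : (0 : ℝ) < r := by linarith
  set N : ℝ := (Y.card : ℝ) with hNdef
  set η : ℝ := 1 / (4 * (r : ℝ) ^ 4) with hη
  have hη0 : 0 < η := by positivity
  have hηle : η ≤ 1 / 64 := by
    rw [hη]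
    apply one_div_le_one_div_of_le (by norm_num)
    nlinarith [pow_le_pow_left₀ (by norm_num : (0 : ℝ) ≤ 2) hr2 4]
  have hinv : 1 / (r : ℝ) ≤ 1 / 2 := one_div_le_one_div_of_le (by norm_num) hr2
  have hinv0 : 0 < 1 / (r : ℝ) := by positivity
  -- class sizes from above
  have hW : ∀ i : Fin r, ((Y.filter (fun y => f y = i)).card : ℝ) ≤ (1 / (r : ℝ) + η) * N + 1 / 2 := by
    intro i
    rcases Finset.eq_empty_or_nonempty (Y.filter (fun y => f y = i)) with he | ⟨v, hv⟩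
    · rw [he]
      simp only [Finset.card_empty, Nat.cast_zero]
      positivity
    · have hv' := Finset.mem_filter.mp hv
      have h1 := card_split G f Y hf v hv'.1
      rw [hv'.2] at h1
      have h2 := hdeg v hv'.1
      have h3 : N = ((Y.filter (fun y => f y = i)).card : ℝ) + (dg G Y v : ℝ) + (ms G f Y v : ℝ) := by
        rw [hNdef]; exact_mod_cast h1
      have h4 : (0 : ℝ) ≤ (ms G f Y v : ℝ) := Nat.cast_nonneg _
      nlinarith
  intro v hv
  have h1 := card_split G f Y hf v hv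
  have h2 := hdeg v hv
  have h3 : N = ((Y.filter (fun y => f y = f v)).card : ℝ) + (dg G Y v : ℝ) + (ms G f Y v : ℝ) := by
    rw [hNdef]; exact_mod_cast h1
  -- class of `v` from below
  have h4 := card_eq_sum_classes f Y
  rw [← Finset.add_sum_erase _ _ (Finset.mem_univ (f v))] at h4
  have h5 : ∑ i ∈ Finset.univ.erase (f v), ((Y.filter (fun y => f y = i)).card : ℝ) ≤
      ∑ i ∈ Finset.univ.erase (f v), ((1 / (r : ℝ) + η) * N + 1 / 2) :=
    Finset.sum_le_sum (fun i _ => hW i)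
  rw [Finset.sum_const, Finset.card_erase_of_mem (Finset.mem_univ _), Finset.card_univ,
    Fintype.card_fin, nsmul_eq_mul, Nat.cast_sub (by omega)] at h5
  push_cast at h5
  have h6 : (ms G f Y v : ℝ) ≤ ((r : ℝ) - 1) * ((1 / (r : ℝ) + η) * N + 1 / 2) -
      (1 - 1 / (r : ℝ) - η) * (N - 1 / 2) := by linarith
  have h7 : ((r : ℝ) - 1) * ((1 / (r : ℝ) + η) * N + 1 / 2) -
      (1 - 1 / (r : ℝ) - η) * (N - 1 / 2) = (r * η) * N + ((r : ℝ) - 1) / 2 +
      (1 - 1 / (r : ℝ) - η) / 2 := by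
    field_simp
    ring
  have h8 : r * η = 1 / (4 * (r : ℝ) ^ 3) := by
    rw [hη]; field_simp
  rw [h7, h8] at h6
  have h9 : 1 / (4 * (r : ℝ) ^ 3) * N = N / (4 * (r : ℝ) ^ 3) := by ring
  rw [h9] at h6
  linarith

end Pool.Agent.H65.Sat
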