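import Pool.Agent.H65.Sat.Ext

/-!
The cost of a clique of exceptional vertices.
-/

namespace Pool.Agent.H65.Sat

open Finset

variable {V : Type} [Fintype V] [DecidableEq V]

lemma dg_union_le (G : SimpleGraph V) (Y X : Finset V) (x : V) :
    dg G (Y ∪ X) x ≤ dg G Y x + X.card := by
  classical
  unfold dg
  rw [Finset.filter_union]
  exact (Finset.card_union_le _ _).trans (Nat.add_le_add_left (Finset.card_filter_le _ _) _)

lemma E2_union_le (G : SimpleGraph V) (Y : Finset V) :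
    ∀ X : Finset V, Disjoint Y X → E2 G (Y ∪ X) ≤ E2 G Y + 2 * ∑ x ∈ X, dg G Y x + X.card ^ 2 := by
  classical
  intro X
  induction X using Finset.induction_on with
  | empty => intro _; simp
  | insert x X hx ih =>
    intro hd
    have hxY : x ∉ Y := fun h => (Finset.disjoint_left.mp hd) h (Finset.mem_insert_self _ _)
    have hd' : Disjoint Y X := hd.mono_right (Finset.subset_insert _ _)
    have h1 : Y ∪ insert x X = insert x (Y ∪ X) := Finset.union_insert _ _ _
    have h2 : x ∉ Y ∪ X := by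
      rw [Finset.mem_union]; push Not; exact ⟨hxY, hx⟩
    rw [h1, E2_insert G _ h2, Finset.sum_insert hx, Finset.card_insert_of_notMem hx]
    have h3 := ih hd'
    have h4 := dg_union_le G Y X x
    nlinarith

lemma sum_ms {r : ℕ} (G : SimpleGraph V) (f : V → Fin r) (A : Finset V) :
    ∑ w ∈ A, ms G f A w = (miss G f A).card := by
  classical
  set b : V → Finset V := fun w => A.filter (fun y => f w ≠ f y ∧ ¬ G.Adj w y) with hb
  have h0 : ∑ w ∈ A, ms G f A w = ∑ w ∈ A, (b w).card := by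
    apply Finset.sum_congr rfl
    intro w _
    unfold ms
    congr
  have h1 : miss G f A = A.biUnion (fun w => (b w).image (fun y => (w, y))) := by
    ext ⟨p, q⟩
    simp only [miss, Finset.mem_filter, Finset.mem_product, Finset.mem_biUnion,
      Finset.mem_image, hb, Prod.mk.injEq]
    constructor
    · rintro ⟨⟨h1, h2⟩, h3, h4⟩
      exact ⟨p, h1, q, ⟨h2, h3, h4⟩, rfl, rfl⟩
    · rintro ⟨w, hw, y, ⟨hy, h3, h4⟩, rfl, rfl⟩
      exact ⟨⟨hw, hy⟩, h3, h4⟩
  rw [h0, h1, Finset.card_biUnion]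
  · apply Finset.sum_congr rfl
    intro w _
    rw [Finset.card_image_of_injective]
    intro y z hyz
    exact (Prod.mk.inj hyz).2
  · intro k _ k' _ hne
    rw [Function.onFun, Finset.disjoint_left]
    intro q hq hq'
    obtain ⟨y, _, rfl⟩ := Finset.mem_image.mp hq
    obtain ⟨y', _, hyy⟩ := Finset.mem_image.mp hq'
    exact hne (Prod.mk.inj hyy).1.symm

lemma sum_class {r : ℕ} (f : V → Fin r) (Y : Finset V) :
    ∑ v ∈ Y, (Y.filter (fun y => f y = f v)).card =
      ∑ i : Fin r, (Y.filter (fun y => f y = i)).card ^ 2 := by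
  classical
  have h1 : ∑ v ∈ Y, (Y.filter (fun y => f y = f v)).card =
      ∑ i : Fin r, ∑ v ∈ Y.filter (fun v => f v = i), (Y.filter (fun y => f y = f v)).card := by
    rw [Finset.sum_fiberwise_of_maps_to (fun v _ => Finset.mem_univ _)]
  rw [h1]
  apply Finset.sum_congr rfl
  intro i _
  rw [Finset.sum_congr rfl (g := fun _ => (Y.filter (fun y => f y = i)).card)]
  · rw [Finset.sum_const, smul_eq_mul, sq]
  · intro v hv
    rw [(Finset.mem_filter.mp hv).2]

lemma card_sq_split {r : ℕ} (G : SimpleGraph V) (f : V → Fin r)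
    (Y : Finset V) (hf : ∀ u ∈ Y, ∀ v ∈ Y, G.Adj u v → f u ≠ f v) :
    Y.card ^ 2 = ∑ i : Fin r, (Y.filter (fun y => f y = i)).card ^ 2 + E2 G Y +
      (miss G f Y).card := by
  classical
  have h1 : Y.card ^ 2 = ∑ v ∈ Y, Y.card := by
    rw [Finset.sum_const, smul_eq_mul, sq]
  rw [h1, Finset.sum_congr rfl (fun v hv => card_split G f Y hf v hv),
    Finset.sum_add_distrib, Finset.sum_add_distrib, sum_class, sum_ms]
  rfl

lemma sum_dg_le {r : ℕ} (G : SimpleGraph V) (f : V → Fin r) (δ : ℝ)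
    (Y S : Finset V) :
    (∑ x ∈ S, (dg G Y x : ℝ)) ≤ (S.card : ℝ) * Y.card -
      ∑ i ∈ JS G f δ Y S, ((Y.filter (fun y => f y = i)).card : ℝ) + (AS G f δ Y S).card := by
  classical
  set J := JS G f δ Y S with hJ
  have h1 : ∑ x ∈ S, (dg G Y x : ℝ) = ∑ y ∈ Y, ((S.filter (fun x => G.Adj x y)).card : ℝ) := by
    have h2 : ∀ x ∈ S, (dg G Y x : ℝ) = ∑ y ∈ Y, (if G.Adj x y then (1 : ℝ) else 0) := by
      intro x _
      unfold dg
      rw [Finset.card_filter]
      push_cast
      rfl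
    rw [Finset.sum_congr rfl h2, Finset.sum_comm]
    apply Finset.sum_congr rfl
    intro y _
    rw [Finset.card_filter]
    push_cast
    rfl
  have h3 : ∀ y ∈ Y, ((S.filter (fun x => G.Adj x y)).card : ℝ) ≤
      (S.card : ℝ) - (if f y ∈ J ∧ y ∉ NS G Y S then (1 : ℝ) else 0) := by
    intro y hy
    by_cases h : f y ∈ J ∧ y ∉ NS G Y S
    · rw [if_pos h]
      have : ∃ x ∈ S, ¬ G.Adj x y := by
        by_contra hcon
        push Not at hcon
        exact h.2 (Finset.mem_filter.mpr ⟨hy, hcon⟩)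
      obtain ⟨x, hx, hxy⟩ := this
      have h4 : (S.filter (fun x => G.Adj x y)).card < S.card := by
        apply Finset.card_lt_card
        rw [Finset.filter_ssubset]
        exact ⟨x, hx, hxy⟩
      have h5 : ((S.filter (fun x => G.Adj x y)).card : ℝ) + 1 ≤ S.card := by exact_mod_cast h4
      linarith
    · rw [if_neg h, sub_zero]
      exact_mod_cast Finset.card_filter_le _ _
  have h4 : ∑ y ∈ Y, (if f y ∈ J ∧ y ∉ NS G Y S then (1 : ℝ) else 0) =
      ∑ i ∈ J, ((Y.filter (fun y => f y = i)).card : ℝ) - (AS G f δ Y S).card := by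
    have h5 : ∑ y ∈ Y, (if f y ∈ J ∧ y ∉ NS G Y S then (1 : ℝ) else 0) =
        ((Y.filter (fun y => f y ∈ J ∧ y ∉ NS G Y S)).card : ℝ) := by
      rw [Finset.card_filter]; push_cast; rfl
    have h6 : ∑ i ∈ J, ((Y.filter (fun y => f y = i)).card : ℝ) =
        ((Y.filter (fun y => f y ∈ J)).card : ℝ) := by
      have : (Y.filter (fun y => f y ∈ J)).card =
          ∑ i ∈ J, ((Y.filter (fun y => f y ∈ J)).filter (fun y => f y = i)).card :=
        Finset.card_eq_sum_card_fiberwise (fun y hy => (Finset.mem_filter.mp hy).2)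
      rw [this]
      push_cast
      apply Finset.sum_congr rfl
      intro i hi
      congr 2
      rw [Finset.filter_filter]
      apply Finset.filter_congr
      intro y _
      constructor
      · intro h; exact ⟨by rw [h]; exact hi, h⟩
      · intro h; exact h.2
    have h7 : (Y.filter (fun y => f y ∈ J)).card =
        (Y.filter (fun y => f y ∈ J ∧ y ∉ NS G Y S)).card + (AS G f δ Y S).card := by
      have h8 := Finset.card_filter_add_card_filter_not (s := Y.filter (fun y => f y ∈ J))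
        (fun y => y ∈ NS G Y S)
      rw [Finset.filter_filter, Finset.filter_filter] at h8
      have h9 : Y.filter (fun y => f y ∈ J ∧ y ∈ NS G Y S) = AS G f δ Y S := by
        ext y
        unfold AS
        rw [Finset.mem_filter, Finset.mem_filter, ← hJ]
        constructor
        · rintro ⟨_, h1, h2⟩; exact ⟨h2, h1⟩
        · rintro ⟨h1, h2⟩; exact ⟨NS_subset Y S h1, h2, h1⟩
      rw [h9] at h8
      omega
    rw [h5, h6, h7]
    push_cast
    ring
  rw [h1]
  refine (Finset.sum_le_sum h3).trans ?_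
  rw [Finset.sum_sub_distrib, h4, Finset.sum_const, nsmul_eq_mul]
  linarith [mul_comm (S.card : ℝ) (Y.card : ℝ)]

theorem cost (r : ℕ) (hr : 2 ≤ r) (G : SimpleGraph V) (f : V → Fin r) (δ : ℝ)
    (Y : Finset V) (hf : ∀ u ∈ Y, ∀ v ∈ Y, G.Adj u v → f u ≠ f v) (m : ℕ)
    (hE : turanNumber r (Fintype.card V) ≤ numEdges G + m)
    (hX : ∀ x ∉ Y, (dg G Y x : ℝ) ≤ (1 - 1 / (r : ℝ)) * Y.card)
    (S : Finset V) (hSY : ∀ x ∈ S, x ∉ Y) :
    2 * (((JS G f δ Y S).card : ℝ) - S.card) * Y.card / r - 2 * (AS G f δ Y S).card +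
      (miss G f Y).card ≤ 2 * m + (r : ℝ) ^ 2 + r + ((Fintype.card V : ℝ) - Y.card) ^ 2 := by
  classical
  have hr2 : (2 : ℝ) ≤ r := by exact_mod_cast hr
  have hr0 : (0 : ℝ) < r := by linarith
  set n : ℝ := (Fintype.card V : ℝ) with hn
  set N : ℝ := (Y.card : ℝ) with hN
  set J := JS G f δ Y S with hJ
  set X := Yᶜ with hXdef
  have hXcard : (X.card : ℝ) = n - N := by
    rw [hXdef, Finset.card_compl, Nat.cast_sub (Finset.card_le_univ _)]
  have hdisj : Disjoint Y X := disjoint_compl_right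
  have hYX : Y ∪ X = univ := Finset.union_compl Y
  have h1 := E2_union_le G Y X hdisj
  rw [hYX, E2_univ] at h1
  have h1' : (2 : ℝ) * (numEdges G : ℝ) ≤ (E2 G Y : ℝ) + 2 * ∑ x ∈ X, (dg G Y x : ℝ) +
      (X.card : ℝ) ^ 2 := by
    exact_mod_cast h1
  have h2 := turanNumber_lower r (Fintype.card V) (by omega)
  have hE' : (turanNumber r (Fintype.card V) : ℝ) ≤ (numEdges G : ℝ) + m := by exact_mod_cast hE
  -- split the sum over `X`
  have hSX : S ⊆ X := by
    intro x hx
    rw [hXdef, Finset.mem_compl]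
    exact hSY x hx
  have h3 : ∑ x ∈ X, (dg G Y x : ℝ) ≤ ∑ x ∈ S, (dg G Y x : ℝ) +
      (n - N - S.card) * ((1 - 1 / (r : ℝ)) * N) := by
    rw [← Finset.sum_sdiff hSX, add_comm]
    apply add_le_add_right
    have h4 : ∑ x ∈ X \ S, (dg G Y x : ℝ) ≤ ∑ x ∈ X \ S, (1 - 1 / (r : ℝ)) * N := by
      apply Finset.sum_le_sum
      intro x hx
      apply hX
      have := (Finset.mem_sdiff.mp hx).1
      rw [hXdef, Finset.mem_compl] at this
      exact this
    refine h4.trans ?_
    rw [Finset.sum_const, nsmul_eq_mul, Finset.card_sdiff_of_subset hSX,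
      Nat.cast_sub (Finset.card_le_card hSX), hXcard]
  have h4 := sum_dg_le G f δ Y S
  rw [← hJ, ← hN] at h4
  have h5 : N ^ 2 = ∑ i : Fin r, ((Y.filter (fun y => f y = i)).card : ℝ) ^ 2 + (E2 G Y : ℝ) +
      ((miss G f Y).card : ℝ) := by
    rw [hN]
    exact_mod_cast card_sq_split G f Y hf
  -- the imbalance
  have h6 : N = ∑ i : Fin r, ((Y.filter (fun y => f y = i)).card : ℝ) := card_eq_sum_classes f Y
  set w : Fin r → ℝ := fun i => ((Y.filter (fun y => f y = i)).card : ℝ) with hw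
  have h7 : (2 : ℝ) * (J.card : ℝ) * N / r - r ≤ ∑ i : Fin r, w i ^ 2 - N ^ 2 / r +
      2 * ∑ i ∈ J, w i := by
    have h8 : ∑ i : Fin r, (w i - N / r) ^ 2 = ∑ i : Fin r, w i ^ 2 - N ^ 2 / r := by
      have : ∀ i : Fin r, (w i - N / r) ^ 2 = w i ^ 2 - 2 * (N / r) * w i + (N / r) ^ 2 := by
        intro i; ring
      rw [Finset.sum_congr rfl (fun i _ => this i), Finset.sum_add_distrib,
        Finset.sum_sub_distrib, ← Finset.mul_sum, ← h6]
      simp only [Finset.sum_const, Finset.card_univ, Fintype.card_fin, nsmul_eq_mul]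
      field_simp
      ring
    have h9 : ∑ i ∈ J, (w i - N / r) = ∑ i ∈ J, w i - (J.card : ℝ) * (N / r) := by
      rw [Finset.sum_sub_distrib, Finset.sum_const, nsmul_eq_mul]
    have h10 : ∑ i ∈ J, (w i - N / r) ^ 2 ≤ ∑ i : Fin r, (w i - N / r) ^ 2 := by
      apply Finset.sum_le_sum_of_subset_of_nonneg (Finset.subset_univ _)
      intro _ _ _; positivity
    have h11 : ∑ i ∈ J, ((w i - N / r) ^ 2 + 2 * (w i - N / r)) ≥ ∑ i ∈ J, (-1 : ℝ) := by
      apply Finset.sum_le_sum
      intro i _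
      nlinarith [sq_nonneg (w i - N / r + 1)]
    rw [Finset.sum_add_distrib, ← Finset.mul_sum, Finset.sum_const, nsmul_eq_mul, h9] at h11
    have h12 : (J.card : ℝ) ≤ r := by
      have : J.card ≤ r := (Finset.card_le_univ _).trans (by simp)
      exact_mod_cast this
    have h13 : (2 : ℝ) * (J.card : ℝ) * N / r = 2 * ((J.card : ℝ) * (N / r)) := by ring
    rw [h13]
    linarith
  -- combine
  rw [hXcard] at h1'
  set D : ℝ := ∑ i : Fin r, w i ^ 2 with hD
  set SJ : ℝ := ∑ i ∈ J, w i with hSJ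
  have h14 : (E2 G Y : ℝ) = N ^ 2 - D - ((miss G f Y).card : ℝ) := by linarith
  have h15 : 2 * ((J.card : ℝ) - S.card) * N / r = 2 * (J.card : ℝ) * N / r -
      2 * (S.card : ℝ) * N / r := by ring
  rw [h15]
  have h16 : (S.card : ℝ) * ((1 - 1 / (r : ℝ)) * N) = (S.card : ℝ) * N - (S.card : ℝ) * N / r := by
    ring
  have h17 : (1 - 1 / (r : ℝ)) * n ^ 2 ≤ N ^ 2 - D - ((miss G f Y).card : ℝ) +
      2 * (((S.card : ℝ) * N - SJ + (AS G f δ Y S).card) +
        (n - N - S.card) * ((1 - 1 / (r : ℝ)) * N)) + (n - N) ^ 2 + r ^ 2 + 2 * m := by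
    linarith
  have h18 : (1 - 1 / (r : ℝ)) * n ^ 2 = (1 - 1 / (r : ℝ)) * N ^ 2 +
      2 * ((n - N) * ((1 - 1 / (r : ℝ)) * N)) + (1 - 1 / (r : ℝ)) * (n - N) ^ 2 := by ring
  have h19 : 0 ≤ (1 - 1 / (r : ℝ)) * (n - N) ^ 2 := by
    apply mul_nonneg _ (sq_nonneg _)
    have : 1 / (r : ℝ) ≤ 1 / 2 := one_div_le_one_div_of_le (by norm_num) hr2
    linarith
  have h20 : (1 - 1 / (r : ℝ)) * N ^ 2 = N ^ 2 - N ^ 2 / r := by ring
  have h21 : (n - N - S.card) * ((1 - 1 / (r : ℝ)) * N) =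
      (n - N) * ((1 - 1 / (r : ℝ)) * N) - (S.card : ℝ) * ((1 - 1 / (r : ℝ)) * N) := by ring
  rw [h18, h20, h21, h16] at h17
  have h22 : 2 * (S.card : ℝ) * N / r = 2 * ((S.card : ℝ) * N / r) := by ring
  rw [h22]
  linarith

end Pool.Agent.H65.Sat
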