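import Pool.Agent.H65.Sat.Claim

/-!
Critical pairs and their covers.
-/

namespace Pool.Agent.H65.Sat

open Finset

section

variable {V : Type} [Fintype V] [DecidableEq V]

lemma exists_partial_matching (C : Finset (V × V)) :
    ∃ P ⊆ C, Set.InjOn Prod.fst (P : Set (V × V)) ∧ Set.InjOn Prod.snd (P : Set (V × V)) ∧
      ∀ p ∈ C, p.1 ∈ P.image Prod.fst ∨ p.2 ∈ P.image Prod.snd := by
  classical
  obtain ⟨P, hP, hmax⟩ := Finset.exists_max_image
    (C.powerset.filter (fun P : Finset (V × V) => Set.InjOn Prod.fst (P : Set (V × V)) ∧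
      Set.InjOn Prod.snd (P : Set (V × V)))) Finset.card
    ⟨∅, by simp⟩
  have hP' := Finset.mem_filter.mp hP
  have hPC := Finset.mem_powerset.mp hP'.1
  refine ⟨P, hPC, hP'.2.1, hP'.2.2, ?_⟩
  intro p hp
  by_contra hcon
  push Not at hcon
  have hpP : p ∉ P := fun h => hcon.1 (Finset.mem_image_of_mem _ h)
  have hnew : insert p P ∈ C.powerset.filter (fun P : Finset (V × V) => Set.InjOn Prod.fst (P : Set (V × V)) ∧
      Set.InjOn Prod.snd (P : Set (V × V))) := by
    refine Finset.mem_filter.mpr ⟨?_, ?_, ?_⟩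
    · rw [Finset.mem_powerset]
      exact Finset.insert_subset hp hPC
    · rw [Finset.coe_insert, Set.injOn_insert (by simpa using hpP)]
      refine ⟨hP'.2.1, ?_⟩
      rintro ⟨q, hq, hqp⟩
      exact hcon.1 (Finset.mem_image.mpr ⟨q, by simpa using hq, hqp⟩)
    · rw [Finset.coe_insert, Set.injOn_insert (by simpa using hpP)]
      refine ⟨hP'.2.2, ?_⟩
      rintro ⟨q, hq, hqp⟩
      exact hcon.2 (Finset.mem_image.mpr ⟨q, by simpa using hq, hqp⟩)
  have := hmax _ hnew
  rw [Finset.card_insert_of_notMem hpP] at this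
  omega

/-- The pair `u, v` is critical at level `t` in `A`. -/
def Crit {r : ℕ} (G : SimpleGraph V) (f : V → Fin r) (A : Finset V) (t : ℕ) (u v : V) : Prop :=
  u ∈ A ∧ v ∈ A ∧ f u ≠ f v ∧ ¬ G.Adj u v ∧
    ∃ K ⊆ A, K.card + 2 = t ∧ G.IsClique (K : Set V) ∧ (∀ y ∈ K, G.Adj y u) ∧
      (∀ y ∈ K, G.Adj y v)

open Classical in
/-- The ordered missing pairs between different classes inside `A`. -/
noncomputable def miss {r : ℕ} (G : SimpleGraph V) (f : V → Fin r) (A : Finset V) :
    Finset (V × V) :=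
  (A ×ˢ A).filter (fun p => f p.1 ≠ f p.2 ∧ ¬ G.Adj p.1 p.2)

lemma miss_mono {r : ℕ} (G : SimpleGraph V) (f : V → Fin r) {A B : Finset V} (h : A ⊆ B) :
    miss G f A ⊆ miss G f B := by
  classical
  intro p hp
  simp only [miss, Finset.mem_filter, Finset.mem_product] at hp ⊢
  exact ⟨⟨h hp.1.1, h hp.1.2⟩, hp.2⟩

lemma rpow_inv_bound (c ν M : ℝ) (t : ℕ) (ht : 2 ≤ t) (hc : 0 < c) (hν : 0 ≤ ν)
    (h : c * ν ^ (1 + 1 / (((t - 2 : ℕ) : ℝ) + 1)) ≤ M) :
    ν ≤ (c⁻¹) ^ (1 - 1 / (t : ℝ)) * M ^ (1 - 1 / (t : ℝ)) := by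
  have ht' : (2 : ℝ) ≤ t := by exact_mod_cast ht
  have e1 : ((t - 2 : ℕ) : ℝ) = (t : ℝ) - 2 := by
    rw [Nat.cast_sub ht]; norm_num
  rw [e1] at h
  have e2 : (1 : ℝ) + 1 / ((t : ℝ) - 2 + 1) = (1 - 1 / (t : ℝ))⁻¹ := by
    have h1 : (t : ℝ) - 2 + 1 ≠ 0 := by linarith
    have h2 : (t : ℝ) ≠ 0 := by linarith
    have h3 : (t : ℝ) - 1 ≠ 0 := by linarith
    have h4 : (1 : ℝ) - 1 / (t : ℝ) = ((t : ℝ) - 1) / t := by field_simp
    rw [h4, inv_div]
    have h5 : (t : ℝ) - 2 + 1 = (t : ℝ) - 1 := by ring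
    rw [h5]
    field_simp
    ring
  rw [e2] at h
  have hpos : 0 < 1 - 1 / (t : ℝ) := by
    have : 1 / (t : ℝ) ≤ 1 / 2 := by
      apply one_div_le_one_div_of_le <;> linarith
    linarith
  have hM : 0 ≤ M := le_trans (by positivity) h
  have h6 : ν ^ (1 - 1 / (t : ℝ))⁻¹ ≤ c⁻¹ * M := by
    rw [inv_mul_eq_div, le_div_iff₀ hc]; linarith
  have h7 := Real.rpow_le_rpow (by positivity) h6 hpos.le
  rw [← Real.rpow_mul hν, inv_mul_cancel₀ hpos.ne', Real.rpow_one,
    Real.mul_rpow (by positivity) hM] at h7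
  exact h7

/-- The constant of the covering lemma. -/
noncomputable def CD (r t : ℕ) : ℝ :=
  2 * ((r : ℝ) * 2 ^ r) * ((cc (t - 2))⁻¹) ^ (1 - 1 / (t : ℝ))

lemma CD_nonneg (r t : ℕ) : 0 ≤ CD r t := by
  have := cc_pos (t - 2)
  unfold CD
  positivity

/-- Covering the critical pairs of a `K_t`-free set. -/
theorem cover_crit {r : ℕ} (G : SimpleGraph V) (f : V → Fin r) (A : Finset V) (t : ℕ)
    (ht : 2 ≤ t) (hf : ∀ u ∈ A, ∀ v ∈ A, G.Adj u v → f u ≠ f v)
    (hfree : ∀ K ⊆ A, G.IsClique (K : Set V) → K.card ≠ t) :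
    ∃ D : Finset V, (D.card : ℝ) ≤ CD r t * ((miss G f A).card : ℝ) ^ (1 - 1 / (t : ℝ)) ∧
      ∀ u v, Crit G f A t u v → u ∈ D ∨ v ∈ D := by
  classical
  set C := (A ×ˢ A).filter (fun p => Crit G f A t p.1 p.2) with hC
  obtain ⟨P, hPC, hi1, hi2, hcov⟩ := exists_partial_matching C
  have hex : ∀ p : V × V, ∃ K : Finset V, p ∈ P → (K ⊆ A ∧ K.card + 2 = t ∧
      G.IsClique (K : Set V) ∧ (∀ y ∈ K, G.Adj y p.1) ∧ (∀ y ∈ K, G.Adj y p.2)) := by
    intro p
    by_cases hp : p ∈ P
    · have := (Finset.mem_filter.mp (hPC hp)).2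
      obtain ⟨_, _, _, _, K, h1, h2, h3, h4, h5⟩ := this
      exact ⟨K, fun _ => ⟨h1, h2, h3, h4, h5⟩⟩
    · exact ⟨∅, fun h => absurd h hp⟩
  choose K hK using hex
  have hcr : ∀ p ∈ P, p.1 ∈ A ∧ p.2 ∈ A ∧ f p.1 ≠ f p.2 ∧ ¬ G.Adj p.1 p.2 := by
    intro p hp
    have := (Finset.mem_filter.mp (hPC hp)).2
    exact ⟨this.1, this.2.1, this.2.2.1, this.2.2.2.1⟩
  set pat : V × V → Fin r × Finset (Fin r) := fun p => (f p.2, (K p).image f) with hpat
  set M : ℝ := ((miss G f A).card : ℝ) with hM
  -- each fibre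
  have hfib : ∀ pt : Fin r × Finset (Fin r), ((P.filter (fun p => pat p = pt)).card : ℝ) ≤
      ((cc (t - 2))⁻¹) ^ (1 - 1 / (t : ℝ)) * M ^ (1 - 1 / (t : ℝ)) := by
    intro pt
    set I := P.filter (fun p => pat p = pt) with hI
    have hMnn : 0 ≤ M := Nat.cast_nonneg _
    rcases Finset.eq_empty_or_nonempty I with hI0 | ⟨p0, hp0⟩
    · rw [hI0]
      have := cc_pos (t - 2)
      simp only [Finset.card_empty, Nat.cast_zero]
      positivity
    · have hIP : ∀ p ∈ I, p ∈ P := fun p hp => (Finset.mem_filter.mp hp).1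
      have hIpat : ∀ p ∈ I, pat p = pt := fun p hp => (Finset.mem_filter.mp hp).2
      have hZi : ∀ p ∈ I, (K p).image f = pt.2 := by
        intro p hp
        rw [← hIpat p hp]
      have hcl : ∀ p ∈ I, f p.2 = pt.1 := by
        intro p hp
        rw [← hIpat p hp]
      have hinjK : ∀ p ∈ P, Set.InjOn f (K p : Set V) := by
        intro p hp y hy z hz hyz
        by_contra hne
        obtain ⟨h1, h2, h3, h4, h5⟩ := hK p hp
        exact hf y (h1 hy) z (h1 hz) (h3 hy hz hne) hyz
      have hZcard : pt.2.card = t - 2 := by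
        rw [← hZi p0 hp0, Finset.card_image_of_injOn (hinjK p0 (hIP p0 hp0))]
        have := (hK p0 (hIP p0 hp0)).2.1
        omega
      have hQex : ∀ (h : Fin r) (p : V × V), ∃ y : V, (h ∈ pt.2 → p ∈ I → (y ∈ K p ∧ f y = h)) := by
        intro h p
        by_cases hh : h ∈ pt.2 ∧ p ∈ I
        · have : h ∈ (K p).image f := by rw [hZi p hh.2]; exact hh.1
          obtain ⟨y, hy, hyh⟩ := Finset.mem_image.mp this
          exact ⟨y, fun _ _ => ⟨hy, hyh⟩⟩
        · exact ⟨p.1, fun h1 h2 => absurd ⟨h1, h2⟩ hh⟩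
      choose Q hQ using hQex
      set B : V × V → Finset V := fun p => A.filter (fun y => f y ≠ f p.2 ∧ ¬ G.Adj y p.2) with hB
      have key := claim (t - 2) pt.2 hZcard I Q Prod.fst B
        (hi1.mono (by intro p hp; exact hIP p hp))
        (by
          intro i hi k hk
          have hiP := hIP i hi
          have hkP := hIP k hk
          obtain ⟨h1, h2, h3, h4, h5⟩ := hK i hiP
          -- some element of `insert i.1 (K i)` is not adjacent to `k.2`
          have hex : ∃ y ∈ insert i.1 (K i), ¬ G.Adj y k.2 := by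
            by_contra hcon
            push Not at hcon
            have hi1K : i.1 ∉ K i := fun h => (h4 _ h).ne rfl
            have hk2 : k.2 ∉ insert i.1 (K i) := fun h => (hcon _ h).ne rfl
            have hclq : G.IsClique (insert k.2 (insert i.1 (K i)) : Finset V) := by
              rw [Finset.coe_insert, Finset.coe_insert]
              rw [SimpleGraph.isClique_insert, SimpleGraph.isClique_insert]
              refine ⟨⟨h3, ?_⟩, ?_⟩
              · intro b hb _
                exact (h4 b hb).symm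
              · intro b hb _
                exact (hcon b (by simpa using hb)).symm
            apply hfree (insert k.2 (insert i.1 (K i))) _ hclq
            · rw [Finset.card_insert_of_notMem hk2, Finset.card_insert_of_notMem hi1K]
              omega
            · intro y hy
              rcases Finset.mem_insert.mp hy with rfl | hy
              · exact (hcr k hkP).2.1
              · rcases Finset.mem_insert.mp hy with rfl | hy
                · exact (hcr i hiP).1
                · exact h1 hy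
          obtain ⟨y, hy, hyk⟩ := hex
          have hfk : f k.2 = f i.2 := by rw [hcl k hk, hcl i hi]
          rcases Finset.mem_insert.mp hy with rfl | hy
          · left
            refine Finset.mem_filter.mpr ⟨(hcr i hiP).1, ?_, hyk⟩
            rw [hfk]; exact (hcr i hiP).2.2.1
          · right
            have hyA := h1 hy
            have hyZ : f y ∈ pt.2 := by
              rw [← hZi i hi]; exact Finset.mem_image_of_mem _ hy
            refine ⟨f y, hyZ, ?_⟩
            have hq := hQ (f y) i hyZ hi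
            have : Q (f y) i = y := hinjK i hiP hq.1 hy hq.2
            rw [this]
            refine Finset.mem_filter.mpr ⟨hyA, ?_, hyk⟩
            rw [hfk]
            exact hf y hyA i.2 (hcr i hiP).2.1 (h5 y hy))
        (by
          intro k hk h hh hmem
          have hq := hQ h k hh hk
          obtain ⟨h1, h2, h3, h4, h5⟩ := hK k (hIP k hk)
          exact (Finset.mem_filter.mp hmem).2.2 (h5 _ hq.1))
      have hsum : ∑ k ∈ I, ((B k).card : ℝ) ≤ M := by
        have h1 : ∑ k ∈ I, (B k).card = (I.biUnion (fun k => (B k).image (fun y => (y, k.2)))).card := by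
          rw [Finset.card_biUnion]
          · apply Finset.sum_congr rfl
            intro k _
            rw [Finset.card_image_of_injective]
            intro y z hyz
            exact (Prod.mk.inj hyz).1
          · intro k hk k' hk' hne
            rw [Function.onFun, Finset.disjoint_left]
            intro q hq hq'
            obtain ⟨y, _, rfl⟩ := Finset.mem_image.mp hq
            obtain ⟨y', _, hyy⟩ := Finset.mem_image.mp hq'
            have : k'.2 = k.2 := (Prod.mk.inj hyy).2
            exact hne (hi2 (hIP k hk) (hIP k' hk') this.symm)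
        have h2 : I.biUnion (fun k => (B k).image (fun y => (y, k.2))) ⊆ miss G f A := by
          intro q hq
          obtain ⟨k, hk, hq⟩ := Finset.mem_biUnion.mp hq
          obtain ⟨y, hy, rfl⟩ := Finset.mem_image.mp hq
          have hy' := Finset.mem_filter.mp hy
          simp only [miss, Finset.mem_filter, Finset.mem_product]
          exact ⟨⟨hy'.1, (hcr k (hIP k hk)).2.1⟩, hy'.2⟩
        rw [hM]
        have := h1.le.trans (Finset.card_le_card h2)
        exact_mod_cast this
      exact rpow_inv_bound _ _ _ t ht (cc_pos _) (Nat.cast_nonneg _) (key.trans hsum)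
  have hPcard : (P.card : ℝ) ≤ ((r : ℝ) * 2 ^ r) *
      (((cc (t - 2))⁻¹) ^ (1 - 1 / (t : ℝ)) * M ^ (1 - 1 / (t : ℝ))) := by
    have h1 : P.card = ∑ pt : Fin r × Finset (Fin r), (P.filter (fun p => pat p = pt)).card :=
      Finset.card_eq_sum_card_fiberwise (fun p _ => Finset.mem_univ _)
    have h2 : (P.card : ℝ) = ∑ pt : Fin r × Finset (Fin r),
        ((P.filter (fun p => pat p = pt)).card : ℝ) := by
      exact_mod_cast h1
    rw [h2]
    refine (Finset.sum_le_sum (fun pt _ => hfib pt)).trans ?_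
    rw [Finset.sum_const, nsmul_eq_mul, Finset.card_univ, Fintype.card_prod, Fintype.card_fin,
      Fintype.card_finset, Fintype.card_fin]
    push_cast
    exact le_rfl
  refine ⟨P.image Prod.fst ∪ P.image Prod.snd, ?_, ?_⟩
  · have h1 : (P.image Prod.fst ∪ P.image Prod.snd).card ≤ P.card + P.card :=
      (Finset.card_union_le _ _).trans (Nat.add_le_add Finset.card_image_le Finset.card_image_le)
    have h2 : ((P.image Prod.fst ∪ P.image Prod.snd).card : ℝ) ≤ P.card + P.card := by
      exact_mod_cast h1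
    unfold CD
    calc ((P.image Prod.fst ∪ P.image Prod.snd).card : ℝ) ≤ 2 * P.card := by linarith
      _ ≤ 2 * (((r : ℝ) * 2 ^ r) *
          (((cc (t - 2))⁻¹) ^ (1 - 1 / (t : ℝ)) * M ^ (1 - 1 / (t : ℝ)))) := by linarith
      _ = _ := by ring
  · intro u v huv
    have hmem : (u, v) ∈ C := by
      rw [hC, Finset.mem_filter, Finset.mem_product]
      exact ⟨⟨huv.1, huv.2.1⟩, huv⟩
    rcases hcov _ hmem with h | h
    · exact Or.inl (Finset.mem_union_left _ h)
    · exact Or.inr (Finset.mem_union_right _ h)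

end

end Pool.Agent.H65.Sat
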