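import Pool.Agent.H65.Sat.Local

/-!
Counting edges: extremal vertex sets.
-/

namespace Pool.Agent.H65.Sat

open Finset

open scoped Classical in
/-- Degree of `v` into `Y`. -/
noncomputable def dg {V : Type} (G : SimpleGraph V) (Y : Finset V) (v : V) : ℕ :=
  (Y.filter (fun w => G.Adj v w)).card

/-- Number of ordered adjacent pairs inside `Y`. -/
noncomputable def E2 {V : Type} (G : SimpleGraph V) (Y : Finset V) : ℕ := ∑ v ∈ Y, dg G Y v

lemma E2_insert {V : Type} [DecidableEq V] (G : SimpleGraph V) (Y : Finset V) {x : V}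
    (hx : x ∉ Y) : E2 G (insert x Y) = E2 G Y + 2 * dg G Y x := by
  classical
  unfold E2
  rw [Finset.sum_insert hx]
  have h1 : dg G (insert x Y) x = dg G Y x := by
    unfold dg
    congr 1
    rw [Finset.filter_insert, if_neg (G.irrefl)]
  have h2 : ∀ v ∈ Y, dg G (insert x Y) v = dg G Y v + (if G.Adj x v then 1 else 0) := by
    intro v hv
    unfold dg
    rw [Finset.filter_insert]
    by_cases h : G.Adj v x
    · rw [if_pos h, if_pos h.symm, Finset.card_insert_of_notMem]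
      intro hmem
      exact hx (Finset.mem_filter.mp hmem).1
    · rw [if_neg h, if_neg (fun h' => h h'.symm), add_zero]
  rw [h1, Finset.sum_congr rfl h2, Finset.sum_add_distrib]
  have h3 : ∑ v ∈ Y, (if G.Adj x v then 1 else 0) = dg G Y x := by
    unfold dg
    rw [Finset.card_filter]
  rw [h3]
  ring

lemma turan_E2 {V : Type} [DecidableEq V] (G : SimpleGraph V) {r : ℕ} (hr : 1 ≤ r)
    (hG : G.CliqueFree (r + 1)) (Y : Finset V) : r * E2 G Y ≤ (r - 1) * Y.card ^ 2 := by
  classical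
  set H := G.induce (Y : Set V) with hH
  have hHf : H.CliqueFree (r + 1) := hG.comap ⟨(SimpleGraph.Embedding.induce (Y : Set V)).toCopy⟩
  have h1 := hHf.card_edgeFinset_le
  have hcard : Fintype.card (Y : Set V) = Y.card := by simp
  simp only [hcard] at h1
  rw [← SimpleGraph.card_edgeFinset_turanGraph] at h1
  have h2 := SimpleGraph.mul_card_edgeFinset_turanGraph_le (n := Y.card) (r := r)
  have h3 := H.sum_degrees_eq_twice_card_edges
  have h4 : ∑ v : (Y : Set V), H.degree v = E2 G Y := by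
    unfold E2
    rw [← Finset.sum_coe_sort Y (fun v => dg G Y v)]
    apply Finset.sum_congr rfl
    intro v _
    unfold dg
    rw [← SimpleGraph.card_neighborFinset_eq_degree]
    apply Finset.card_bij (fun (w : (Y : Set V)) _ => (w : V))
    · intro w hw
      rw [SimpleGraph.mem_neighborFinset] at hw
      exact Finset.mem_filter.mpr ⟨w.2, hw⟩
    · intro a _ b _ hab
      exact Subtype.ext hab
    · intro w hw
      have := Finset.mem_filter.mp hw
      refine ⟨⟨w, this.1⟩, ?_, rfl⟩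
      rw [SimpleGraph.mem_neighborFinset]
      exact this.2
  have h5 : 2 * r * H.edgeFinset.card ≤ (r - 1) * Y.card ^ 2 := by
    calc 2 * r * H.edgeFinset.card ≤ 2 * r * (SimpleGraph.turanGraph Y.card r).edgeFinset.card :=
          Nat.mul_le_mul_left _ h1
      _ ≤ _ := h2
  rw [← h4, h3]
  calc r * (2 * H.edgeFinset.card) = 2 * r * H.edgeFinset.card := by ring
    _ ≤ _ := h5

/-- The number of edges of a graph. -/
noncomputable def numEdges {V : Type} (G : SimpleGraph V) : ℕ := G.edgeSet.ncard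

/-- The number of edges of the Turán graph. -/
noncomputable def turanNumber (r n : ℕ) : ℕ := numEdges (SimpleGraph.turanGraph n r)

lemma numEdges_eq {V : Type} [Fintype V] (G : SimpleGraph V) [DecidableRel G.Adj]
    [DecidableEq V] : numEdges G = G.edgeFinset.card := by
  unfold numEdges
  rw [← SimpleGraph.coe_edgeFinset G, Set.ncard_coe_finset]

lemma E2_univ {V : Type} [Fintype V] [DecidableEq V] (G : SimpleGraph V) :
    E2 G Finset.univ = 2 * numEdges G := by
  classical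
  rw [numEdges_eq, ← G.sum_degrees_eq_twice_card_edges]
  unfold E2
  apply Finset.sum_congr rfl
  intro v _
  unfold dg
  rw [← SimpleGraph.card_neighborFinset_eq_degree]
  congr 1
  ext w
  simp

lemma turanNumber_lower (r n : ℕ) (hr : 1 ≤ r) :
    (1 - 1 / (r : ℝ)) * (n : ℝ) ^ 2 - (r : ℝ) ^ 2 ≤ 2 * (turanNumber r n : ℝ) := by
  have h1 : turanNumber r n = (n ^ 2 - (n % r) ^ 2) * (r - 1) / (2 * r) + (n % r).choose 2 := by
    unfold turanNumber
    rw [numEdges_eq, SimpleGraph.card_edgeFinset_turanGraph]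
  have hs : n % r < r := Nat.mod_lt _ hr
  have hsn : n % r ≤ n := Nat.mod_le _ _
  set s := n % r with hsdef
  have h2 : (n ^ 2 - s ^ 2) * (r - 1) < 2 * r * (turanNumber r n + 1) := by
    have h3 : (n ^ 2 - s ^ 2) * (r - 1) / (2 * r) ≤ turanNumber r n := by
      rw [h1]; exact Nat.le_add_right _ _
    have h4 := Nat.lt_mul_div_succ ((n ^ 2 - s ^ 2) * (r - 1)) (b := 2 * r) (by omega)
    calc (n ^ 2 - s ^ 2) * (r - 1) < 2 * r * ((n ^ 2 - s ^ 2) * (r - 1) / (2 * r) + 1) := h4
      _ ≤ 2 * r * (turanNumber r n + 1) := by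
          apply Nat.mul_le_mul_left; omega
  have h5 : ((n : ℝ) ^ 2 - (s : ℝ) ^ 2) * ((r : ℝ) - 1) + 1 ≤
      2 * r * ((turanNumber r n : ℝ) + 1) := by
    have h6 : (((n ^ 2 - s ^ 2) * (r - 1) + 1 : ℕ) : ℝ) ≤
        ((2 * r * (turanNumber r n + 1) : ℕ) : ℝ) := by
      exact_mod_cast h2
    have h7 : s ^ 2 ≤ n ^ 2 := Nat.pow_le_pow_left hsn 2
    push_cast [Nat.cast_sub h7, Nat.cast_sub hr] at h6
    exact h6
  have hr0 : (0 : ℝ) < r := by exact_mod_cast hr
  have hr1 : (1 : ℝ) ≤ r := by exact_mod_cast hr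
  have hsr : (s : ℝ) ≤ (r : ℝ) - 1 := by
    have : s + 1 ≤ r := hs
    have : (s : ℝ) + 1 ≤ r := by exact_mod_cast this
    linarith
  have hs0 : (0 : ℝ) ≤ s := Nat.cast_nonneg _
  -- multiply by `r`
  have h8 : (r : ℝ) * ((1 - 1 / (r : ℝ)) * (n : ℝ) ^ 2 - (r : ℝ) ^ 2) ≤
      r * (2 * (turanNumber r n : ℝ)) := by
    have e1 : (r : ℝ) * ((1 - 1 / (r : ℝ)) * (n : ℝ) ^ 2 - (r : ℝ) ^ 2) =
        ((r : ℝ) - 1) * (n : ℝ) ^ 2 - (r : ℝ) ^ 3 := by
      field_simp
    rw [e1]
    have h9 : (s : ℝ) ^ 2 * ((r : ℝ) - 1) ≤ ((r : ℝ) - 1) ^ 2 * ((r : ℝ) - 1) := by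
      apply mul_le_mul_of_nonneg_right _ (by linarith)
      apply pow_le_pow_left₀ hs0 hsr
    have h10 : ((r : ℝ) - 1) ^ 2 * ((r : ℝ) - 1) + 2 * r ≤ (r : ℝ) ^ 3 + 1 := by
      nlinarith [mul_nonneg (show (0 : ℝ) ≤ r - 1 by linarith) (show (0 : ℝ) ≤ 3 * r - 2 by linarith)]
    nlinarith
  exact le_of_mul_le_mul_left h8 hr0

end Pool.Agent.H65.Sat
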