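import Pool.Agent.H65.Sat.Core

/-!
Extending cliques, and the local structure at a clique of exceptional vertices.
-/

namespace Pool.Agent.H65.Sat

open Finset

/-- `(r+1)`-saturated graphs. -/
def IsSaturated {V : Type} (r : ℕ) (G : SimpleGraph V) : Prop :=
  G.CliqueFree (r + 1) ∧
    ∀ u v : V, u ≠ v → ¬ G.Adj u v → ¬ (G ⊔ SimpleGraph.edge u v).CliqueFree (r + 1)

lemma saturated_clique {V : Type} [DecidableEq V] {r : ℕ} {G : SimpleGraph V}
    (h : IsSaturated (r + 1) G) {u v : V} (huv : u ≠ v) (hn : ¬ G.Adj u v) :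
    ∃ K : Finset V, u ∉ K ∧ v ∉ K ∧ K.card = r ∧ G.IsClique (K : Set V) ∧
      (∀ y ∈ K, G.Adj y u) ∧ (∀ y ∈ K, G.Adj y v) := by
  obtain ⟨t, hc⟩ := not_forall_not.1 (h.2 u v huv hn)
  have h1 := h.1.mem_of_sup_edge_isNClique hc
  have h2 := h.1.mem_of_sup_edge_isNClique (SimpleGraph.edge_comm u v ▸ hc)
  have hadj : ∀ a ∈ t, ∀ b ∈ t, a ≠ b → (a ≠ u ∧ a ≠ v) ∨ (b ≠ u ∧ b ≠ v) → G.Adj a b := by
    intro a ha b hb hab hor
    have := hc.1 ha hb hab
    rw [SimpleGraph.sup_adj, SimpleGraph.edge_adj] at this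
    rcases this with h | ⟨h | h, _⟩
    · exact h
    · rcases hor with h' | h'
      · exact absurd h.1 h'.1
      · exact absurd h.2 h'.2
    · rcases hor with h' | h'
      · exact absurd h.1 h'.2
      · exact absurd h.2 h'.1
  refine ⟨(t.erase u).erase v, ?_, ?_, ?_, ?_, ?_, ?_⟩
  · simp
  · simp
  · rw [Finset.card_erase_of_mem (Finset.mem_erase.mpr ⟨huv.symm, h2⟩),
      Finset.card_erase_of_mem h1, hc.2]
    omega
  · intro a ha b hb hab
    simp only [Finset.coe_erase, Set.mem_sdiff, Finset.mem_coe, Set.mem_singleton_iff] at ha hb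
    exact hadj a ha.1.1 b hb.1.1 hab (Or.inl ⟨ha.1.2, ha.2⟩)
  · intro y hy
    have hy1 := Finset.mem_erase.mp hy
    have hy2 := Finset.mem_erase.mp hy1.2
    exact hadj y hy2.2 u h1 hy2.1 (Or.inl ⟨hy2.1, hy1.1⟩)
  · intro y hy
    have hy1 := Finset.mem_erase.mp hy
    have hy2 := Finset.mem_erase.mp hy1.2
    exact hadj y hy2.2 v h2 hy1.1 (Or.inl ⟨hy2.1, hy1.1⟩)

/-- Extending a clique into large classes. -/
lemma extend_clique {V : Type} [DecidableEq V] (G : SimpleGraph V) {r : ℕ} (f : V → Fin r)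
    (Y N : Finset V) (hNY : N ⊆ Y) (hf : ∀ u ∈ Y, ∀ v ∈ Y, G.Adj u v → f u ≠ f v)
    (b : ℝ) (hb : 0 ≤ b) (hms : ∀ v ∈ Y, (ms G f Y v : ℝ) ≤ b) :
    ∀ (L : Finset (Fin r)), (∀ i ∈ L, (r : ℝ) * b < ((N.filter (fun y => f y = i)).card : ℝ)) →
    ∀ K : Finset V, K ⊆ N → G.IsClique (K : Set V) → (∀ y ∈ K, f y ∉ L) →
    ∃ K' : Finset V, K' ⊆ N ∧ G.IsClique (K' : Set V) ∧ K'.card = K.card + L.card ∧
      (∀ y ∈ K', y ∈ K ∨ f y ∈ L) := by
  classical
  intro L
  induction L using Finset.induction_on with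
  | empty =>
    intro _ K hK hKc _
    exact ⟨K, hK, hKc, by simp, fun y hy => Or.inl hy⟩
  | insert i L hi ih =>
    intro hL K hK hKc hKL
    obtain ⟨K1, hK1N, hK1c, hK1card, hK1cl⟩ := ih (fun j hj => hL j (Finset.mem_insert_of_mem hj))
      K hK hKc (fun y hy h => hKL y hy (Finset.mem_insert_of_mem h))
    -- classes on `K1`
    have hinj : Set.InjOn f (K1 : Set V) := by
      intro y hy z hz hyz
      by_contra hne
      exact hf y (hNY (hK1N hy)) z (hNY (hK1N hz)) (hK1c hy hz hne) hyz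
    have hK1r : K1.card ≤ r := by
      rw [← Finset.card_image_of_injOn hinj]
      exact (Finset.card_le_univ _).trans (by simp)
    have hni : ∀ z ∈ K1, f z ≠ i := by
      intro z hz h
      rcases hK1cl z hz with h1 | h1
      · exact hKL z h1 (by rw [h]; exact Finset.mem_insert_self _ _)
      · rw [h] at h1; exact hi h1
    have hex : ∃ y ∈ N.filter (fun y => f y = i), ∀ z ∈ K1, G.Adj z y := by
      by_contra hcon
      push Not at hcon
      have hsub : N.filter (fun y => f y = i) ⊆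
          K1.biUnion (fun z => Y.filter (fun y => f z ≠ f y ∧ ¬ G.Adj z y)) := by
        intro y hy
        obtain ⟨z, hz, hzy⟩ := hcon y hy
        have hy' := Finset.mem_filter.mp hy
        refine Finset.mem_biUnion.mpr ⟨z, hz, Finset.mem_filter.mpr ⟨hNY hy'.1, ?_, hzy⟩⟩
        rw [hy'.2]; exact hni z hz
      have h1 : ((N.filter (fun y => f y = i)).card : ℝ) ≤
          ∑ z ∈ K1, ((Y.filter (fun y => f z ≠ f y ∧ ¬ G.Adj z y)).card : ℝ) := by
        exact_mod_cast (Finset.card_le_card hsub).trans Finset.card_biUnion_le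
      have h2 : ∑ z ∈ K1, ((Y.filter (fun y => f z ≠ f y ∧ ¬ G.Adj z y)).card : ℝ) ≤
          ∑ z ∈ K1, b := by
        apply Finset.sum_le_sum
        intro z hz
        have h3 : ms G f Y z = (Y.filter (fun y => f z ≠ f y ∧ ¬ G.Adj z y)).card := by
          unfold ms; congr
        rw [← h3]
        exact hms z (hNY (hK1N hz))
      rw [Finset.sum_const, nsmul_eq_mul] at h2
      have h4 : (K1.card : ℝ) * b ≤ r * b := by
        apply mul_le_mul_of_nonneg_right _ hb
        exact_mod_cast hK1r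
      have h5 := hL i (Finset.mem_insert_self _ _)
      linarith
    obtain ⟨y, hy, hadj⟩ := hex
    have hy' := Finset.mem_filter.mp hy
    have hyK1 : y ∉ K1 := fun h => hni y h hy'.2
    refine ⟨insert y K1, ?_, ?_, ?_, ?_⟩
    · exact Finset.insert_subset hy'.1 hK1N
    · rw [Finset.coe_insert, SimpleGraph.isClique_insert]
      exact ⟨hK1c, fun z hz _ => (hadj z hz).symm⟩
    · rw [Finset.card_insert_of_notMem hyK1, Finset.card_insert_of_notMem hi, hK1card]
      ring
    · intro z hz
      rcases Finset.mem_insert.mp hz with rfl | hz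
      · right; rw [hy'.2]; exact Finset.mem_insert_self _ _
      · rcases hK1cl z hz with h | h
        · exact Or.inl h
        · exact Or.inr (Finset.mem_insert_of_mem h)

section Local

variable {V : Type} [Fintype V] [DecidableEq V]

open scoped Classical in
/-- Common neighbours of `S` inside `Y`. -/
noncomputable def NS (G : SimpleGraph V) (Y S : Finset V) : Finset V :=
  Y.filter (fun y => ∀ x ∈ S, G.Adj x y)

open scoped Classical in
/-- The classes in which `S` has few common neighbours. -/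
noncomputable def JS {r : ℕ} (G : SimpleGraph V) (f : V → Fin r) (δ : ℝ) (Y S : Finset V) :
    Finset (Fin r) :=
  Finset.univ.filter (fun i => (((NS G Y S).filter (fun y => f y = i)).card : ℝ) ≤ δ)

open scoped Classical in
/-- The common neighbours of `S` in small classes. -/
noncomputable def AS {r : ℕ} (G : SimpleGraph V) (f : V → Fin r) (δ : ℝ) (Y S : Finset V) :
    Finset V := (NS G Y S).filter (fun y => f y ∈ JS G f δ Y S)

lemma AS_subset_NS {r : ℕ} (G : SimpleGraph V) (f : V → Fin r) (δ : ℝ) (Y S : Finset V) :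
    AS G f δ Y S ⊆ NS G Y S := Finset.filter_subset _ _

lemma NS_subset {G : SimpleGraph V} (Y S : Finset V) : NS G Y S ⊆ Y := by
  classical
  exact Finset.filter_subset _ _

lemma AS_card_le {r : ℕ} (G : SimpleGraph V) (f : V → Fin r) (δ : ℝ) (hδ : 0 ≤ δ)
    (Y S : Finset V) : ((AS G f δ Y S).card : ℝ) ≤ r * δ := by
  classical
  have h1 := card_eq_sum_classes f (AS G f δ Y S)
  rw [h1]
  have h2 : ∀ i : Fin r, (((AS G f δ Y S).filter (fun y => f y = i)).card : ℝ) ≤ δ := by
    intro i
    rcases Finset.eq_empty_or_nonempty ((AS G f δ Y S).filter (fun y => f y = i)) with he | ⟨v, hv⟩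
    · rw [he]; simpa using hδ
    · have hv' := Finset.mem_filter.mp hv
      have hvJ : f v ∈ JS G f δ Y S := (Finset.mem_filter.mp hv'.1).2
      rw [hv'.2] at hvJ
      have h3 := (Finset.mem_filter.mp hvJ).2
      refine le_trans ?_ h3
      have : ((AS G f δ Y S).filter (fun y => f y = i)).card ≤
          ((NS G Y S).filter (fun y => f y = i)).card := by
        apply Finset.card_le_card
        exact Finset.filter_subset_filter _ (AS_subset_NS G f δ Y S)
      exact_mod_cast this
  calc ∑ i : Fin r, (((AS G f δ Y S).filter (fun y => f y = i)).card : ℝ) ≤ ∑ i : Fin r, δ :=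
        Finset.sum_le_sum (fun i _ => h2 i)
    _ = r * δ := by simp

/-- Cliques inside `AS` are small. -/
lemma AS_clique {r : ℕ} (G : SimpleGraph V) (hG : G.CliqueFree (r + 1)) (f : V → Fin r)
    (Y : Finset V) (hf : ∀ u ∈ Y, ∀ v ∈ Y, G.Adj u v → f u ≠ f v)
    (b δ : ℝ) (hb : 0 ≤ b) (hms : ∀ v ∈ Y, (ms G f Y v : ℝ) ≤ b) (hbδ : r * b ≤ δ)
    (S : Finset V) (hSY : ∀ x ∈ S, x ∉ Y) (hSc : G.IsClique (S : Set V))
    (K : Finset V) (hK : K ⊆ AS G f δ Y S) (hKc : G.IsClique (K : Set V)) :
    K.card + S.card ≤ (JS G f δ Y S).card := by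
  classical
  have hJc : ∀ y ∈ K, f y ∉ (JS G f δ Y S)ᶜ := by
    intro y hy
    have := (Finset.mem_filter.mp (hK hy)).2
    simpa using this
  obtain ⟨K', hK'N, hK'c, hK'card, _⟩ := extend_clique G f Y (NS G Y S) (NS_subset Y S) hf b hb hms
    (JS G f δ Y S)ᶜ
    (by
      intro i hi
      have : i ∉ JS G f δ Y S := by simpa using hi
      have h1 : ¬ ((((NS G Y S).filter (fun y => f y = i)).card : ℝ) ≤ δ) := by
        intro h
        exact this (Finset.mem_filter.mpr ⟨Finset.mem_univ _, h⟩)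
      push Not at h1
      linarith)
    K (hK.trans (AS_subset_NS G f δ Y S)) hKc hJc
  have hdisj : Disjoint K' S := by
    rw [Finset.disjoint_left]
    intro y hy hyS
    exact hSY y hyS (NS_subset Y S (hK'N hy))
  have hclq : G.IsClique ((K' ∪ S : Finset V) : Set V) := by
    intro a ha b hb hab
    rw [Finset.coe_union] at ha hb
    rcases ha with ha | ha <;> rcases hb with hb | hb
    · exact hK'c ha hb hab
    · exact ((Finset.mem_filter.mp (hK'N ha)).2 b hb).symm
    · exact (Finset.mem_filter.mp (hK'N hb)).2 a ha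
    · exact hSc ha hb hab
  have hcard : (K' ∪ S).card = K.card + (JS G f δ Y S)ᶜ.card + S.card := by
    rw [Finset.card_union_of_disjoint hdisj, hK'card]
  have hle : (K' ∪ S).card ≤ r := by
    by_contra hcon
    push Not at hcon
    exact (hG.mono hcon) (K' ∪ S) ⟨hclq, rfl⟩
  rw [Finset.card_compl, Fintype.card_fin] at hcard
  have hJr : (JS G f δ Y S).card ≤ r := (Finset.card_le_univ _).trans (by simp)
  omega

/-- Every missing pair between different classes is critical for some clique `S`. -/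
lemma missing_crit {r : ℕ} (hr : 1 ≤ r) (G : SimpleGraph V) (hG : IsSaturated r G)
    (f : V → Fin r)
    (Y : Finset V) (hf : ∀ u ∈ Y, ∀ v ∈ Y, G.Adj u v → f u ≠ f v)
    (b δ : ℝ) (hb : 0 ≤ b) (hms : ∀ v ∈ Y, (ms G f Y v : ℝ) ≤ b) (hbδ : r * b ≤ δ)
    (u v : V) (hu : u ∈ Y) (hv : v ∈ Y) (hfuv : f u ≠ f v) (hnadj : ¬ G.Adj u v) :
    ∃ S : Finset V, (∀ x ∈ S, x ∉ Y) ∧ G.IsClique (S : Set V) ∧
      Crit G f (AS G f δ Y S) ((JS G f δ Y S).card + 1 - S.card) u v := by
  classical
  obtain ⟨r', rfl⟩ : ∃ r', r = r' + 1 := ⟨r - 1, by omega⟩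
  have huv : u ≠ v := fun h => hfuv (by rw [h])
  obtain ⟨K, huK, hvK, hKcard, hKc, hKu, hKv⟩ := saturated_clique hG huv hnadj
  set S := K.filter (fun y => y ∉ Y) with hS
  set K0 := K.filter (fun y => y ∈ Y) with hK0
  have hcardsplit : K0.card + S.card = r' := by
    rw [← hKcard]; exact Finset.card_filter_add_card_filter_not _
  have hSY : ∀ x ∈ S, x ∉ Y := fun x hx => (Finset.mem_filter.mp hx).2
  have hSK : S ⊆ K := Finset.filter_subset _ _
  have hK0K : K0 ⊆ K := Finset.filter_subset _ _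
  have hSc : G.IsClique (S : Set V) := hKc.subset (by exact_mod_cast hSK)
  have hNSof : ∀ y ∈ Y, (∀ x ∈ S, G.Adj x y) → y ∈ NS G Y S := by
    intro y hy h; exact Finset.mem_filter.mpr ⟨hy, h⟩
  have huN : u ∈ NS G Y S := hNSof u hu (fun x hx => hKu x (hSK hx))
  have hvN : v ∈ NS G Y S := hNSof v hv (fun x hx => hKv x (hSK hx))
  have hK0N : K0 ⊆ NS G Y S := by
    intro y hy
    have hy' := Finset.mem_filter.mp hy
    refine hNSof y hy'.2 (fun x hx => hKc (hSK hx) hy'.1 ?_)
    rintro rfl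
    exact hSY x hx hy'.2
  set J := JS G f δ Y S with hJ
  set A := AS G f δ Y S with hA
  have hAmem : ∀ y ∈ NS G Y S, f y ∈ J → y ∈ A := by
    intro y hy h; exact Finset.mem_filter.mpr ⟨hy, h⟩
  have hJr : J.card ≤ r' + 1 := (Finset.card_le_univ _).trans (by simp)
  -- an endpoint must be in a small class
  have hend : ∀ p q : V, p ∈ NS G Y S → q ∈ NS G Y S → f p ≠ f q → (∀ y ∈ K0, G.Adj y p) →
      (∀ y ∈ K0, G.Adj y q) → q ∉ K0 → f p ∈ J := by
    intro p q hp hq hpq hKp hKq hqK
    by_contra hpJ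
    set T := insert q K0 with hT
    have hTc : G.IsClique (T : Set V) := isClique_insert_of (hKc.subset (by exact_mod_cast hK0K))
      (fun y hy => (hKq y hy).symm)
    have hTN : T ⊆ NS G Y S := Finset.insert_subset hq hK0N
    have hTcard : T.card = K0.card + 1 := Finset.card_insert_of_notMem hqK
    have h1 := AS_clique G hG.1 f Y hf b δ hb hms hbδ S hSY hSc (T.filter (fun y => f y ∈ J))
      (by
        intro y hy
        have hy' := Finset.mem_filter.mp hy
        exact hAmem y (hTN hy'.1) hy'.2)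
      (hTc.subset (by intro y hy; exact (Finset.mem_filter.mp hy).1))
    rw [← hJ] at h1
    have hinj : Set.InjOn f (T : Set V) := by
      intro y hy z hz hyz
      by_contra hne
      exact hf y (NS_subset Y S (hTN hy)) z (NS_subset Y S (hTN hz)) (hTc hy hz hne) hyz
    have h2 : (T.filter (fun y => ¬ f y ∈ J)).card ≤ (Jᶜ.erase (f p)).card := by
      rw [← Finset.card_image_of_injOn (hinj.mono (show ((T.filter (fun y => ¬ f y ∈ J) :
        Finset V) : Set V) ⊆ T by intro y hy; exact (Finset.mem_filter.mp hy).1))]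
      apply Finset.card_le_card
      intro i hi
      obtain ⟨y, hy, rfl⟩ := Finset.mem_image.mp hi
      have hy' := Finset.mem_filter.mp hy
      refine Finset.mem_erase.mpr ⟨?_, by simpa using hy'.2⟩
      rcases Finset.mem_insert.mp hy'.1 with rfl | hyK
      · exact hpq.symm
      · exact hf y (NS_subset Y S (hK0N hyK)) p (NS_subset Y S hp) (hKp y hyK)
    rw [Finset.card_erase_of_mem (by simpa using hpJ), Finset.card_compl, Fintype.card_fin] at h2
    have h3 := Finset.card_filter_add_card_filter_not (s := T) (fun y => f y ∈ J)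
    have h4 : J.card ≤ r' := by
      have : J ≠ Finset.univ := fun h => hpJ (by rw [h]; exact Finset.mem_univ _)
      have := Finset.card_lt_univ_of_notMem hpJ
      simp only [Fintype.card_fin] at this
      omega
    omega
  have huK0 : u ∉ K0 := fun h => huK (hK0K h)
  have hvK0 : v ∉ K0 := fun h => hvK (hK0K h)
  have huJ : f u ∈ J := hend u v huN hvN hfuv (fun y hy => hKu y (hK0K hy))
    (fun y hy => hKv y (hK0K hy)) hvK0
  have hvJ : f v ∈ J := hend v u hvN huN hfuv.symm (fun y hy => hKv y (hK0K hy))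
    (fun y hy => hKu y (hK0K hy)) huK0
  set K1 := K0.filter (fun y => f y ∈ J) with hK1
  have hK1K : K1 ⊆ K := (Finset.filter_subset _ _).trans hK0K
  have hK1A : K1 ⊆ A := by
    intro y hy
    have hy' := Finset.mem_filter.mp hy
    exact hAmem y (hK0N hy'.1) hy'.2
  have hK1c : G.IsClique (K1 : Set V) := hKc.subset (by exact_mod_cast hK1K)
  have huK1 : u ∉ K1 := fun h => huK (hK1K h)
  have h1 := AS_clique G hG.1 f Y hf b δ hb hms hbδ S hSY hSc (insert u K1)
    (Finset.insert_subset (hAmem u huN huJ) hK1A)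
    (isClique_insert_of hK1c (fun y hy => (hKu y (hK1K hy)).symm))
  rw [Finset.card_insert_of_notMem huK1, ← hJ] at h1
  -- the large part of `K0`
  have hinj : Set.InjOn f (K0 : Set V) := by
    intro y hy z hz hyz
    by_contra hne
    exact hf y (NS_subset Y S (hK0N hy)) z (NS_subset Y S (hK0N hz))
      (hKc (hK0K hy) (hK0K hz) hne) hyz
  have h2 : (K0.filter (fun y => ¬ f y ∈ J)).card ≤ Jᶜ.card := by
    rw [← Finset.card_image_of_injOn (hinj.mono (show ((K0.filter (fun y => ¬ f y ∈ J) :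
      Finset V) : Set V) ⊆ K0 by intro y hy; exact (Finset.mem_filter.mp hy).1))]
    apply Finset.card_le_card
    intro i hi
    obtain ⟨y, hy, rfl⟩ := Finset.mem_image.mp hi
    have hy' := Finset.mem_filter.mp hy
    simpa using hy'.2
  rw [Finset.card_compl, Fintype.card_fin] at h2
  have h3 := Finset.card_filter_add_card_filter_not (s := K0) (fun y => f y ∈ J)
  refine ⟨S, hSY, hSc, hAmem u huN huJ, hAmem v hvN hvJ, hfuv, hnadj, K1, hK1A, ?_, hK1c,
    fun y hy => hKu y (hK1K hy), fun y hy => hKv y (hK1K hy)⟩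
  have h4 : K1.card + (K0.filter (fun y => ¬ f y ∈ J)).card = K0.card := h3
  change K1.card + 2 = J.card + 1 - S.card
  omega

end Local

end Pool.Agent.H65.Sat
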