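import Mathlib

/-!
The recursive gadget for the lower bound.
-/

namespace Pool.Agent.H65.Sat

open Finset

/-- A `t`-partite graph on `α` without `K_t`, with few missing pairs and `a ^ (t - 1)` disjoint
critical pairs. -/
structure Gad (t a : ℕ) where
  α : Type
  fα : Fintype α
  dα : DecidableEq α
  col : α → ℕ
  R : SimpleGraph α
  ι : Type
  fι : Fintype ι
  p : ι → α
  q : ι → α
  col_lt : ∀ x, col x < t
  proper : ∀ x y, R.Adj x y → col x ≠ col y
  free : ∀ K : Finset α, R.IsClique (K : Set α) → K.card ≠ t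
  card_le : Fintype.card α ≤ t * a ^ (t - 1)
  card_ge : t * a ≤ Fintype.card α
  miss_le : {x : α × α | col x.1 ≠ col x.2 ∧ ¬ R.Adj x.1 x.2}.ncard ≤ t * (t - 1) * a ^ t
  card_ι : Fintype.card ι = a ^ (t - 1)
  p_inj : Function.Injective p
  q_inj : Function.Injective q
  col_p : ∀ i, col (p i) = 0
  col_q : ∀ i, col (q i) = 1
  crit : ∀ i, ∃ K : Finset α, K.card + 2 = t ∧ R.IsClique (K : Set α) ∧
    (∀ y ∈ K, R.Adj y (p i)) ∧ (∀ y ∈ K, R.Adj y (q i))

attribute [instance] Gad.fα Gad.dα Gad.fι

/-- The base gadget. -/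
def gadBase (a : ℕ) : Gad 2 a where
  α := Fin a ⊕ Fin a
  fα := inferInstance
  dα := inferInstance
  col := fun x => Sum.elim (fun _ => 0) (fun _ => 1) x
  R := ⊥
  ι := Fin a
  fι := inferInstance
  p := Sum.inl
  q := Sum.inr
  col_lt := by rintro (x | x) <;> simp
  proper := by intro x y h; simp at h
  free := by
    intro K hK hc
    obtain ⟨x, y, hxy, rfl⟩ := Finset.card_eq_two.mp hc
    have := hK (by simp) (by simp) hxy
    simp at this
  card_le := by simp; omega
  card_ge := by simp; omega
  miss_le := by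
    have hsub : {x : (Fin a ⊕ Fin a) × (Fin a ⊕ Fin a) |
        (Sum.elim (fun _ => 0) (fun _ => 1) x.1 : ℕ) ≠ Sum.elim (fun _ => 0) (fun _ => 1) x.2 ∧
          ¬ (⊥ : SimpleGraph (Fin a ⊕ Fin a)).Adj x.1 x.2} ⊆
        ((Finset.univ : Finset (Fin a × Fin a)).image (fun x => (Sum.inl x.1, Sum.inr x.2)) ∪
        (Finset.univ : Finset (Fin a × Fin a)).image (fun x => (Sum.inr x.1, Sum.inl x.2)) :
          Finset ((Fin a ⊕ Fin a) × (Fin a ⊕ Fin a))) := by
      rintro ⟨x | x, y | y⟩ h
      · simp at h
      · simp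
      · simp
      · simp at h
    refine (Set.ncard_le_ncard hsub (Finset.finite_toSet _)).trans ?_
    rw [Set.ncard_coe_finset]
    refine (Finset.card_union_le _ _).trans ?_
    have h1 : ((Finset.univ : Finset (Fin a × Fin a)).image
        (fun x => ((Sum.inl x.1 : Fin a ⊕ Fin a), (Sum.inr x.2 : Fin a ⊕ Fin a)))).card ≤ a * a :=
      Finset.card_image_le.trans (by simp)
    have h2 : ((Finset.univ : Finset (Fin a × Fin a)).image
        (fun x => ((Sum.inr x.1 : Fin a ⊕ Fin a), (Sum.inl x.2 : Fin a ⊕ Fin a)))).card ≤ a * a :=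
      Finset.card_image_le.trans (by simp)
    nlinarith
  card_ι := by simp
  p_inj := Sum.inl_injective
  q_inj := Sum.inr_injective
  col_p := by intro i; rfl
  col_q := by intro i; rfl
  crit := by
    intro i
    exact ⟨∅, by simp, by simp, by simp, by simp⟩

/-- Adjacency in the next gadget. -/
def nextAdj {t a : ℕ} (g : Gad t a) : (Fin a ⊕ (Fin a × g.α)) → (Fin a ⊕ (Fin a × g.α)) → Prop
  | Sum.inl _, Sum.inl _ => False
  | Sum.inl i, Sum.inr y => i = y.1
  | Sum.inr y, Sum.inl i => i = y.1
  | Sum.inr x, Sum.inr y => (x.1 ≠ y.1 ∧ g.col x.2 ≠ g.col y.2) ∨ (x.1 = y.1 ∧ g.R.Adj x.2 y.2)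

lemma nextAdj_symm {t a : ℕ} (g : Gad t a) : ∀ x y, nextAdj g x y → nextAdj g y x := by
  rintro (x | x) (y | y) h
  · exact h
  · exact h
  · exact h
  · rcases h with ⟨h1, h2⟩ | ⟨h1, h2⟩
    · exact Or.inl ⟨h1.symm, h2.symm⟩
    · exact Or.inr ⟨h1.symm, h2.symm⟩

lemma nextAdj_irrefl {t a : ℕ} (g : Gad t a) : ∀ x, ¬ nextAdj g x x := by
  rintro (x | x) h
  · exact h
  · rcases h with ⟨h1, _⟩ | ⟨_, h2⟩
    · exact h1 rfl
    · exact g.R.irrefl h2

/-- The graph of the next gadget. -/
def nextR {t a : ℕ} (g : Gad t a) : SimpleGraph (Fin a ⊕ (Fin a × g.α)) where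
  Adj := nextAdj g
  symm := ⟨nextAdj_symm g⟩
  loopless := ⟨nextAdj_irrefl g⟩

theorem exists_next {t a : ℕ} (ht : 2 ≤ t) (ha : 1 ≤ a) (g : Gad t a) :
    Nonempty (Gad (t + 1) a) := by
  classical
  set col : (Fin a ⊕ (Fin a × g.α)) → ℕ := Sum.elim (fun _ => t) (fun x => g.col x.2) with hcol
  refine ⟨Gad.mk (Fin a ⊕ (Fin a × g.α)) inferInstance inferInstance col (nextR g)
    (Fin a × g.ι) inferInstance (fun i => Sum.inr (i.1, g.p i.2))
    (fun i => Sum.inr (i.1, g.q i.2)) ?_ ?_ ?_ ?_ ?_ ?_ ?_ ?_ ?_ ?_ ?_ ?_⟩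
  · rintro (x | x)
    · simp [hcol]
    · simp only [hcol, Sum.elim_inr]
      exact (g.col_lt x.2).trans (Nat.lt_succ_self t)
  · rintro (x | x) (y | y) h
    · exact absurd h id
    · simp only [hcol, Sum.elim_inl, Sum.elim_inr]
      exact (g.col_lt y.2).ne'
    · simp only [hcol, Sum.elim_inl, Sum.elim_inr]
      exact (g.col_lt x.2).ne
    · simp only [hcol, Sum.elim_inr]
      rcases h with ⟨_, h2⟩ | ⟨_, h2⟩
      · exact h2
      · exact g.proper _ _ h2
  · intro K hK hKc
    by_cases hin : ∃ i, Sum.inl i ∈ K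
    · obtain ⟨i, hi⟩ := hin
      -- all others are `inr (i, x)`
      have hoth : ∀ y ∈ K.erase (Sum.inl i), ∃ x, y = Sum.inr (i, x) := by
        intro y hy
        have hy' := Finset.mem_erase.mp hy
        have hadj : (nextR g).Adj (Sum.inl i) y := hK hi hy'.2 hy'.1.symm
        rcases y with j | ⟨j, x⟩
        · exact absurd hadj id
        · have : i = j := hadj
          exact ⟨x, by rw [this]⟩
      set T : Finset g.α := Finset.univ.filter (fun x => Sum.inr (i, x) ∈ K) with hT
      have hTimg : K.erase (Sum.inl i) = T.image (fun x => Sum.inr (i, x)) := by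
        ext y
        constructor
        · intro hy
          obtain ⟨x, rfl⟩ := hoth y hy
          exact Finset.mem_image.mpr ⟨x, Finset.mem_filter.mpr ⟨Finset.mem_univ _,
            (Finset.mem_erase.mp hy).2⟩, rfl⟩
        · intro hy
          obtain ⟨x, hx, rfl⟩ := Finset.mem_image.mp hy
          exact Finset.mem_erase.mpr ⟨by simp, (Finset.mem_filter.mp hx).2⟩
      have hTcard : T.card = t := by
        have h1 : (K.erase (Sum.inl i)).card = t := by
          rw [Finset.card_erase_of_mem hi, hKc]; rfl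
        rw [hTimg, Finset.card_image_of_injective] at h1
        · exact h1
        · intro x y hxy
          simpa using hxy
      refine g.free T ?_ hTcard
      intro x hx y hy hxy
      have hx' := (Finset.mem_filter.mp hx).2
      have hy' := (Finset.mem_filter.mp hy).2
      have hadj : (nextR g).Adj (Sum.inr (i, x)) (Sum.inr (i, y)) :=
        hK hx' hy' (by simpa using hxy)
      rcases hadj with ⟨h1, _⟩ | ⟨_, h2⟩
      · exact absurd rfl h1
      · exact h2
    · push Not at hin
      -- colours of `K` are distinct and `< t`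
      have hinj : Set.InjOn col (K : Set _) := by
        intro x hx y hy hxy
        by_contra hne
        have hadj : (nextR g).Adj x y := hK hx hy hne
        rcases x with i | x
        · exact hin i hx
        rcases y with j | y
        · exact hin j hy
        simp only [hcol, Sum.elim_inr] at hxy
        rcases hadj with ⟨_, h2⟩ | ⟨_, h2⟩
        · exact h2 hxy
        · exact g.proper _ _ h2 hxy
      have h1 : K.card ≤ t := by
        rw [← Finset.card_image_of_injOn hinj]
        have : K.image col ⊆ Finset.range t := by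
          intro c hc
          obtain ⟨x, hx, rfl⟩ := Finset.mem_image.mp hc
          rcases x with i | x
          · exact absurd hx (hin i)
          · rw [Finset.mem_range]
            exact g.col_lt x.2
        exact (Finset.card_le_card this).trans (by simp)
      omega
  · -- card_le
    have h1 := g.card_le
    have h2 : Fintype.card (Fin a ⊕ (Fin a × g.α)) = a + a * Fintype.card g.α := by
      simp [Fintype.card_sum, Fintype.card_prod]
    rw [h2]
    have h3 : a * (t * a ^ (t - 1)) = t * a ^ t := by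
      have : a ^ t = a * a ^ (t - 1) := by
        rw [← pow_succ']
        congr 1
        omega
      rw [this]; ring
    have h4 : a ≤ a ^ t := by
      calc a = a ^ 1 := (pow_one a).symm
        _ ≤ a ^ t := Nat.pow_le_pow_right ha (by omega)
    have h5 : a * Fintype.card g.α ≤ t * a ^ t := by
      rw [← h3]; exact Nat.mul_le_mul_left _ h1
    have h6 : t + 1 - 1 = t := rfl
    rw [h6]
    nlinarith
  · have h1 := g.card_ge
    have h2 : Fintype.card (Fin a ⊕ (Fin a × g.α)) = a + a * Fintype.card g.α := by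
      simp [Fintype.card_sum, Fintype.card_prod]
    rw [h2]
    nlinarith [Nat.mul_le_mul_right (Fintype.card g.α) ha]
  · -- miss_le
    set Mg : Finset (g.α × g.α) := Finset.univ.filter
      (fun x => g.col x.1 ≠ g.col x.2 ∧ ¬ g.R.Adj x.1 x.2) with hMg
    have hMgc : Mg.card ≤ t * (t - 1) * a ^ t := by
      have := g.miss_le
      rw [← Set.ncard_coe_finset]
      convert this using 2
      ext x
      simp [hMg]
    set F1 : Finset ((Fin a ⊕ (Fin a × g.α)) × (Fin a ⊕ (Fin a × g.α))) :=
      (Finset.univ : Finset (Fin a × (Fin a × g.α))).image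
        (fun x => (Sum.inl x.1, Sum.inr x.2)) with hF1
    set F2 : Finset ((Fin a ⊕ (Fin a × g.α)) × (Fin a ⊕ (Fin a × g.α))) :=
      (Finset.univ : Finset (Fin a × (Fin a × g.α))).image
        (fun x => (Sum.inr x.2, Sum.inl x.1)) with hF2
    set F3 : Finset ((Fin a ⊕ (Fin a × g.α)) × (Fin a ⊕ (Fin a × g.α))) :=
      ((Finset.univ : Finset (Fin a)) ×ˢ Mg).image
        (fun x => (Sum.inr (x.1, x.2.1), Sum.inr (x.1, x.2.2))) with hF3
    have hsub : {x : (Fin a ⊕ (Fin a × g.α)) × (Fin a ⊕ (Fin a × g.α)) |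
        col x.1 ≠ col x.2 ∧ ¬ (nextR g).Adj x.1 x.2} ⊆ ((F1 ∪ (F2 ∪ F3) : Finset _) : Set _) := by
      rintro ⟨x | x, y | y⟩ ⟨h1, h2⟩
      · simp [hcol] at h1
      · rw [Finset.mem_coe]
        apply Finset.mem_union_left
        exact Finset.mem_image.mpr ⟨(x, y), Finset.mem_univ _, rfl⟩
      · rw [Finset.mem_coe]
        apply Finset.mem_union_right
        apply Finset.mem_union_left
        exact Finset.mem_image.mpr ⟨(y, x), Finset.mem_univ _, rfl⟩
      · rw [Finset.mem_coe]
        apply Finset.mem_union_right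
        apply Finset.mem_union_right
        simp only [hcol, Sum.elim_inr] at h1
        have h3 : ¬ ((x.1 ≠ y.1 ∧ g.col x.2 ≠ g.col y.2) ∨ (x.1 = y.1 ∧ g.R.Adj x.2 y.2)) := h2
        push Not at h3
        have h4 : x.1 = y.1 := by
          by_contra h
          exact h1 (h3.1 h)
        have h5 := h3.2 h4
        refine Finset.mem_image.mpr ⟨(x.1, (x.2, y.2)), ?_, ?_⟩
        · rw [Finset.mem_product]
          exact ⟨Finset.mem_univ _, Finset.mem_filter.mpr ⟨Finset.mem_univ _, h1, h5⟩⟩
        · exact Prod.ext rfl (congrArg Sum.inr (Prod.ext h4 rfl))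
    refine (Set.ncard_le_ncard hsub (Finset.finite_toSet _)).trans ?_
    rw [Set.ncard_coe_finset]
    have hc1 : F1.card ≤ a * (a * Fintype.card g.α) :=
      Finset.card_image_le.trans (by simp [Fintype.card_prod])
    have hc2 : F2.card ≤ a * (a * Fintype.card g.α) :=
      Finset.card_image_le.trans (by simp [Fintype.card_prod])
    have hc3 : F3.card ≤ a * (t * (t - 1) * a ^ t) := by
      refine Finset.card_image_le.trans ?_
      rw [Finset.card_product, Finset.card_univ, Fintype.card_fin]
      exact Nat.mul_le_mul_left _ hMgc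
    have hcu : (F1 ∪ (F2 ∪ F3)).card ≤ F1.card + (F2.card + F3.card) :=
      (Finset.card_union_le _ _).trans (Nat.add_le_add_left (Finset.card_union_le _ _) _)
    have h1 := g.card_le
    have hpow : a ^ (t + 1) = a * (a * a ^ (t - 1)) := by
      have : a ^ t = a * a ^ (t - 1) := by
        rw [← pow_succ']
        congr 1
        omega
      rw [pow_succ', this]
    have h5 : a * (a * Fintype.card g.α) ≤ t * a ^ (t + 1) := by
      rw [hpow]
      calc a * (a * Fintype.card g.α) ≤ a * (a * (t * a ^ (t - 1))) :=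
            Nat.mul_le_mul_left _ (Nat.mul_le_mul_left _ h1)
        _ = t * (a * (a * a ^ (t - 1))) := by ring
    have h6 : a * (t * (t - 1) * a ^ t) = t * (t - 1) * a ^ (t + 1) := by
      rw [pow_succ']; ring
    have h7 : (t + 1) * (t + 1 - 1) = t * (t - 1) + 2 * t := by
      have : t + 1 - 1 = t := rfl
      rw [this]
      obtain ⟨s, rfl⟩ : ∃ s, t = s + 1 := ⟨t - 1, by omega⟩
      simp only [Nat.add_sub_cancel]
      ring
    rw [h7, add_mul]
    rw [h6] at hc3
    nlinarith
  · have h1 := g.card_ι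
    rw [Fintype.card_prod, Fintype.card_fin, h1]
    have : t + 1 - 1 = (t - 1) + 1 := by omega
    rw [this, pow_succ']
  · intro x y hxy
    simp only [Sum.inr.injEq, Prod.mk.injEq] at hxy
    exact Prod.ext hxy.1 (g.p_inj hxy.2)
  · intro x y hxy
    simp only [Sum.inr.injEq, Prod.mk.injEq] at hxy
    exact Prod.ext hxy.1 (g.q_inj hxy.2)
  · intro i
    simp only [hcol, Sum.elim_inr]
    exact g.col_p i.2
  · intro i
    simp only [hcol, Sum.elim_inr]
    exact g.col_q i.2
  · intro i
    obtain ⟨K, hK1, hK2, hK3, hK4⟩ := g.crit i.2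
    refine ⟨insert (Sum.inl i.1) (K.image (fun x => Sum.inr (i.1, x))), ?_, ?_, ?_, ?_⟩
    · rw [Finset.card_insert_of_notMem (by simp), Finset.card_image_of_injective]
      · omega
      · intro x y hxy
        simpa using hxy
    · rw [Finset.coe_insert, SimpleGraph.isClique_insert]
      refine ⟨?_, ?_⟩
      · intro x hx y hy hxy
        rw [Finset.mem_coe, Finset.mem_image] at hx hy
        obtain ⟨x', hx', rfl⟩ := hx
        obtain ⟨y', hy', rfl⟩ := hy
        exact Or.inr ⟨rfl, hK2 hx' hy' (by rintro rfl; exact hxy rfl)⟩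
      · intro y hy _
        rw [Finset.mem_coe, Finset.mem_image] at hy
        obtain ⟨y', _, rfl⟩ := hy
        exact rfl
    · intro y hy
      rcases Finset.mem_insert.mp hy with rfl | hy
      · exact rfl
      · obtain ⟨y', hy', rfl⟩ := Finset.mem_image.mp hy
        exact Or.inr ⟨rfl, hK3 y' hy'⟩
    · intro y hy
      rcases Finset.mem_insert.mp hy with rfl | hy
      · exact rfl
      · obtain ⟨y', hy', rfl⟩ := Finset.mem_image.mp hy
        exact Or.inr ⟨rfl, hK4 y' hy'⟩

theorem exists_gad (a : ℕ) (ha : 1 ≤ a) (t : ℕ) (ht : 2 ≤ t) : Nonempty (Gad t a) := by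
  induction t, ht using Nat.le_induction with
  | base => exact ⟨gadBase a⟩
  | succ t ht ih =>
    obtain ⟨g⟩ := ih
    exact exists_next ht ha g

end Pool.Agent.H65.Sat
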