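import Pool.Agent.H65.Sat.Gadget
import Pool.Agent.H65.Sat.Ext

/-!
The host graph of the lower bound.
-/

namespace Pool.Agent.H65.Sat

open Finset

section

variable {t a : ℕ} (g : Gad t a) (r n : ℕ)

/-- The embedding of the gadget. -/
noncomputable def phiN (x : g.α) : ℕ :=
  r * ((Fintype.equivFin g.α x : ℕ) + 1) + g.col x

variable {g r n}

lemma phiN_lt (htr : t ≤ r) (x : g.α) :
    phiN g r x < r * (Fintype.card g.α + 1) := by
  have h1 : ((Fintype.equivFin g.α x : Fin (Fintype.card g.α)) : ℕ) + 1 ≤ Fintype.card g.α :=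
    (Fintype.equivFin g.α x).2
  have h2 := g.col_lt x
  have h3 : r * ((Fintype.equivFin g.α x : ℕ) + 1) ≤ r * Fintype.card g.α :=
    Nat.mul_le_mul_left _ h1
  have h4 : r * (Fintype.card g.α + 1) = r * Fintype.card g.α + r := by ring
  unfold phiN
  rw [h4]
  omega

lemma phiN_mod (htr : t ≤ r) (x : g.α) : phiN g r x % r = g.col x := by
  have h2 := g.col_lt x
  unfold phiN
  rw [Nat.mul_add_mod, Nat.mod_eq_of_lt (by omega)]

lemma phiN_inj (htr : t ≤ r) : Function.Injective (phiN g r) := by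
  intro x y hxy
  have hc : g.col x = g.col y := by rw [← phiN_mod htr x, ← phiN_mod htr y, hxy]
  have hr : 0 < r := lt_of_lt_of_le (lt_of_le_of_lt (Nat.zero_le _) (g.col_lt x)) htr
  unfold phiN at hxy
  rw [hc] at hxy
  have h1 : r * ((Fintype.equivFin g.α x : ℕ) + 1) = r * ((Fintype.equivFin g.α y : ℕ) + 1) :=
    Nat.add_right_cancel hxy
  have h2 := Nat.eq_of_mul_eq_mul_left hr h1
  have h3 : (Fintype.equivFin g.α x : ℕ) = (Fintype.equivFin g.α y : ℕ) := by omega
  exact (Fintype.equivFin g.α).injective (Fin.ext h3)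

lemma phiN_pos (htr : t ≤ r) (x : g.α) : 0 < phiN g r x := by
  have hr : 0 < r := lt_of_lt_of_le (lt_of_le_of_lt (Nat.zero_le _) (g.col_lt x)) htr
  unfold phiN
  positivity

/-- The host graph, on natural numbers below `n`. Vertex `0` is special. -/
def hostAdj (g : Gad t a) (r : ℕ) (u v : ℕ) : Prop :=
  (u = 0 ∧ v ≠ 0 ∧ (v ∈ Set.range (phiN g r) ∨ t ≤ v % r)) ∨
  (v = 0 ∧ u ≠ 0 ∧ (u ∈ Set.range (phiN g r) ∨ t ≤ u % r)) ∨
  (u ≠ 0 ∧ v ≠ 0 ∧ u % r ≠ v % r ∧ ∀ z w, u = phiN g r z → v = phiN g r w → g.R.Adj z w)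

/-- The host graph. -/
def host (g : Gad t a) (r n : ℕ) : SimpleGraph (Fin n) where
  Adj u v := hostAdj g r u v
  symm := ⟨by
    rintro u v (h | h | ⟨h1, h2, h3, h4⟩)
    · exact Or.inr (Or.inl h)
    · exact Or.inl h
    · exact Or.inr (Or.inr ⟨h2, h1, h3.symm, fun z w hz hw => (h4 w z hw hz).symm⟩)⟩
  loopless := ⟨by
    rintro u (h | h | ⟨h1, h2, h3, h4⟩)
    · exact h.2.1 h.1
    · exact h.2.1 h.1
    · exact h3 rfl⟩

lemma host_color {u v : Fin n} (h : (host g r n).Adj u v) (hu : (u : ℕ) ≠ 0)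
    (hv : (v : ℕ) ≠ 0) : (u : ℕ) % r ≠ (v : ℕ) % r := by
  rcases h with h | h | ⟨_, _, h3, _⟩
  · exact absurd h.1 hu
  · exact absurd h.1 hv
  · exact h3

lemma host_cliqueFree (htr : t ≤ r) (ht : 2 ≤ t) : (host g r n).CliqueFree (r + 1) := by
  classical
  intro K hK
  have hr : 0 < r := by omega
  have hinj : ∀ K' ⊆ K, (∀ u ∈ K', (u : ℕ) ≠ 0) →
      Set.InjOn (fun u : Fin n => (u : ℕ) % r) (K' : Set (Fin n)) := by
    intro K' hK' h0 u hu v hv huv
    by_contra hne
    exact host_color (hK.1 (hK' hu) (hK' hv) hne) (h0 u hu) (h0 v hv) huv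
  have himg : ∀ K' : Finset (Fin n), K'.image (fun u : Fin n => (u : ℕ) % r) ⊆ Finset.range r := by
    intro K' c hc
    obtain ⟨u, _, rfl⟩ := Finset.mem_image.mp hc
    exact Finset.mem_range.mpr (Nat.mod_lt _ hr)
  by_cases h0 : ∃ x ∈ K, (x : ℕ) = 0
  · obtain ⟨x, hx, hx0⟩ := h0
    set K' := K.erase x with hK'
    have hne0 : ∀ u ∈ K', (u : ℕ) ≠ 0 := by
      intro u hu h
      have hu' := Finset.mem_erase.mp hu
      exact hu'.1 (Fin.ext (h.trans hx0.symm))
    have hK'sub : K' ⊆ K := Finset.erase_subset _ _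
    have hK'card : K'.card = r := by
      rw [hK', Finset.card_erase_of_mem hx, hK.2]; rfl
    have hcard : (K'.image (fun u : Fin n => (u : ℕ) % r)).card = r := by
      rw [Finset.card_image_of_injOn (hinj K' hK'sub hne0), hK'card]
    have hall : K'.image (fun u : Fin n => (u : ℕ) % r) = Finset.range r := by
      apply Finset.eq_of_subset_of_card_le (himg K')
      rw [hcard, Finset.card_range]
    -- pick the gadget vertices
    have hpick : ∀ c : Fin t, ∃ z : g.α, g.col z = c ∧ ∃ u ∈ K', (u : ℕ) = phiN g r z := by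
      intro c
      have hc : (c : ℕ) ∈ K'.image (fun u : Fin n => (u : ℕ) % r) := by
        rw [hall, Finset.mem_range]
        exact lt_of_lt_of_le c.2 htr
      obtain ⟨u, hu, huc⟩ := Finset.mem_image.mp hc
      have hu' := Finset.mem_erase.mp hu
      have hadj : (host g r n).Adj x u := hK.1 hx hu'.2 hu'.1.symm
      rcases hadj with ⟨_, _, h3 | h3⟩ | h | ⟨h1, _, _, _⟩
      · obtain ⟨z, hz⟩ := h3
        refine ⟨z, ?_, u, hu, hz.symm⟩
        rw [← phiN_mod htr z, hz]
        exact huc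
      · exfalso
        have h5 : (u : ℕ) % r = c := huc
        have h6 := c.2
        omega
      · exact absurd h.1 (hne0 u hu)
      · exact absurd hx0 h1
    choose z hz1 u hu1 hu2 using hpick
    have hzinj : Function.Injective z := by
      intro c d hcd
      have := hz1 c
      rw [hcd, hz1 d] at this
      exact Fin.ext this.symm
    refine g.free (Finset.univ.image z) ?_ ?_
    · intro x1 hx1 y1 hy1 hxy
      rw [Finset.mem_coe, Finset.mem_image] at hx1 hy1
      obtain ⟨c, _, rfl⟩ := hx1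
      obtain ⟨d, _, rfl⟩ := hy1
      have hcd : c ≠ d := fun h => hxy (by rw [h])
      have hucd : u c ≠ u d := by
        intro h
        have h1 := hu2 c
        rw [h, hu2 d] at h1
        exact hcd (hzinj (phiN_inj htr h1.symm))
      have hadj : (host g r n).Adj (u c) (u d) := hK.1 (hK'sub (hu1 c)) (hK'sub (hu1 d)) hucd
      rcases hadj with h | h | ⟨_, _, _, h4⟩
      · exact absurd h.1 (hne0 _ (hu1 c))
      · exact absurd h.1 (hne0 _ (hu1 d))
      · exact h4 _ _ (hu2 c) (hu2 d)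
    · rw [Finset.card_image_of_injective _ hzinj]
      simp
  · push Not at h0
    have hcard : (K.image (fun u : Fin n => (u : ℕ) % r)).card = r + 1 := by
      rw [Finset.card_image_of_injOn (hinj K subset_rfl h0), hK.2]
    have := Finset.card_le_card (himg K)
    rw [hcard, Finset.card_range] at this
    omega

end

end Pool.Agent.H65.Sat
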