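import Pool.Agent.H65.Sat.Host

/-!
Counting edges of the host graph and the lower bound for one gadget.
-/

namespace Pool.Agent.H65.Sat

open Finset

lemma pairs_card {V : Type} [Fintype V] [DecidableEq V] (G : SimpleGraph V)
    [DecidableRel G.Adj] :
    ((Finset.univ : Finset (V × V)).filter (fun p => G.Adj p.1 p.2)).card = 2 * numEdges G := by
  classical
  rw [← E2_univ, Finset.card_filter, ← Finset.univ_product_univ, Finset.sum_product]
  unfold E2
  apply Finset.sum_congr rfl
  intro v _
  unfold dg
  rw [Finset.card_filter]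
  apply Finset.sum_congr rfl
  intro w _
  by_cases h : G.Adj v w <;> simp [h]

lemma class_card (n r c : ℕ) :
    ((Finset.univ : Finset (Fin n)).filter (fun v : Fin n => (v : ℕ) % r = c)).card ≤
      (n - 1) / r + 1 := by
  have h1 : ((Finset.univ : Finset (Fin n)).filter (fun v : Fin n => (v : ℕ) % r = c)).card ≤
      (Finset.range ((n - 1) / r + 1)).card := by
    apply Finset.card_le_card_of_injOn (fun v : Fin n => (v : ℕ) / r)
    · intro v hv
      rw [Finset.mem_coe, Finset.mem_range]
      have : (v : ℕ) ≤ n - 1 := by have := v.2; omega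
      exact Nat.lt_succ_of_le (Nat.div_le_div_right this)
    · intro u hu v hv huv
      have hu' := (Finset.mem_filter.mp hu).2
      have hv' := (Finset.mem_filter.mp hv).2
      apply Fin.ext
      have h1 := Nat.div_add_mod (u : ℕ) r
      have h2 := Nat.div_add_mod (v : ℕ) r
      have h3 : (u : ℕ) / r = (v : ℕ) / r := huv
      rw [h3, hu'] at h1
      rw [hv'] at h2
      omega
  simpa using h1

section

variable {t a : ℕ} {g : Gad t a} {r n : ℕ}

/-- The embedding into `Fin n`. -/
noncomputable def phi (g : Gad t a) (r n : ℕ) (htr : t ≤ r)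
    (hn : r * (Fintype.card g.α + 2) ≤ n) (x : g.α) : Fin n :=
  ⟨phiN g r x, lt_of_lt_of_le (phiN_lt htr x) (le_trans (Nat.mul_le_mul_left _ (by omega)) hn)⟩

theorem host_edges (htr : t ≤ r) (ht : 2 ≤ t) (hn : r * (Fintype.card g.α + 2) ≤ n) :
    2 * turanNumber r n + 2 * Fintype.card g.α ≤
      2 * numEdges (host g r n) + 2 * ((t - 1) * ((n - 1) / r + 1)) + t * (t - 1) * a ^ t := by
  classical
  have hr : 0 < r := by omega
  have hn0 : 0 < n := lt_of_lt_of_le (by positivity) hn
  set x0 : Fin n := ⟨0, hn0⟩ with hx0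
  set φ := phi g r n htr hn with hφ
  have hφN : ∀ z, ((φ z : Fin n) : ℕ) = phiN g r z := fun z => rfl
  have hφinj : Function.Injective φ := by
    intro x y hxy
    exact phiN_inj htr (by rw [← hφN, ← hφN, hxy])
  have hφmod : ∀ z, ((φ z : Fin n) : ℕ) % r = g.col z := fun z => phiN_mod htr z
  have hφpos : ∀ z, φ z ≠ x0 := by
    intro z h
    have h1 := phiN_pos (g := g) htr z
    have h2 : ((φ z : Fin n) : ℕ) = 0 := by rw [h]
    rw [hφN] at h2
    omega
  set T := SimpleGraph.turanGraph n r with hT
  set H := host g r n with hH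
  set PT := (Finset.univ : Finset (Fin n × Fin n)).filter (fun p => T.Adj p.1 p.2) with hPT
  set PH := (Finset.univ : Finset (Fin n × Fin n)).filter (fun p => H.Adj p.1 p.2) with hPH
  have hPTc : PT.card = 2 * turanNumber r n := by
    unfold turanNumber
    rw [← pairs_card]
  have hPHc : PH.card = 2 * numEdges H := by
    rw [← pairs_card]
  set F := (Finset.univ : Finset (Fin n)).filter
    (fun v : Fin n => 1 ≤ (v : ℕ) % r ∧ (v : ℕ) % r < t ∧ (v : ℕ) ∉ Set.range (phiN g r)) with hF
  set Mg : Finset (g.α × g.α) := Finset.univ.filter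
      (fun x => g.col x.1 ≠ g.col x.2 ∧ ¬ g.R.Adj x.1 x.2) with hMg
  have hMgc : Mg.card ≤ t * (t - 1) * a ^ t := by
    have := g.miss_le
    rw [← Set.ncard_coe_finset]
    convert this using 2
    ext x
    simp [hMg]
  set Z0 := (Finset.univ : Finset g.α).filter (fun z => g.col z = 0) with hZ0
  set Z1 := (Finset.univ : Finset g.α).filter (fun z => ¬ g.col z = 0) with hZ1
  have hZ : Z0.card + Z1.card = Fintype.card g.α := by
    rw [hZ0, hZ1, Finset.card_filter_add_card_filter_not, Finset.card_univ]
  set X1 := F.image (fun v => (x0, v)) with hX1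
  set X2 := F.image (fun v => (v, x0)) with hX2
  set X3 := Mg.image (fun x => (φ x.1, φ x.2)) with hX3
  set Y1 := Z0.image (fun z => (x0, φ z)) with hY1
  set Y2 := Z0.image (fun z => (φ z, x0)) with hY2
  have hTadj : ∀ u v : Fin n, T.Adj u v ↔ (u : ℕ) % r ≠ (v : ℕ) % r := by
    intro u v
    rw [hT, SimpleGraph.turanGraph_adj]
  have hsub1 : PT ⊆ (PT ∩ PH) ∪ (X1 ∪ (X2 ∪ X3)) := by
    rintro ⟨u, v⟩ huv
    by_cases hH' : (u, v) ∈ PH
    · exact Finset.mem_union_left _ (Finset.mem_inter.mpr ⟨huv, hH'⟩)
    apply Finset.mem_union_right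
    have hTuv : (u : ℕ) % r ≠ (v : ℕ) % r := (hTadj u v).mp (Finset.mem_filter.mp huv).2
    have hnot : ¬ hostAdj g r u v := fun h => hH' (Finset.mem_filter.mpr ⟨Finset.mem_univ _, h⟩)
    unfold hostAdj at hnot
    push Not at hnot
    obtain ⟨hn1, hn2, hn3⟩ := hnot
    by_cases hu0 : (u : ℕ) = 0
    · have hv0 : (v : ℕ) ≠ 0 := by
        intro h; rw [hu0, h] at hTuv; exact hTuv rfl
      obtain ⟨h1, h2⟩ := hn1 hu0 hv0
      apply Finset.mem_union_left
      refine Finset.mem_image.mpr ⟨v, Finset.mem_filter.mpr ⟨Finset.mem_univ _, ?_, h2, h1⟩, ?_⟩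
      · rw [hu0, Nat.zero_mod] at hTuv
        omega
      · rw [Prod.mk.injEq]
        exact ⟨Fin.ext hu0.symm, rfl⟩
    · by_cases hv0 : (v : ℕ) = 0
      · obtain ⟨h1, h2⟩ := hn2 hv0 hu0
        apply Finset.mem_union_right
        apply Finset.mem_union_left
        refine Finset.mem_image.mpr ⟨u, Finset.mem_filter.mpr ⟨Finset.mem_univ _, ?_, h2, h1⟩, ?_⟩
        · rw [hv0, Nat.zero_mod] at hTuv
          omega
        · rw [Prod.mk.injEq]
          exact ⟨rfl, Fin.ext hv0.symm⟩
      · obtain ⟨z, w, hz, hw, hzw⟩ := hn3 hu0 hv0 hTuv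
        apply Finset.mem_union_right
        apply Finset.mem_union_right
        refine Finset.mem_image.mpr ⟨(z, w), Finset.mem_filter.mpr ⟨Finset.mem_univ _, ?_, hzw⟩, ?_⟩
        · rw [hz, hw, phiN_mod htr, phiN_mod htr] at hTuv
          exact hTuv
        · rw [Prod.mk.injEq]
          exact ⟨Fin.ext hz.symm, Fin.ext hw.symm⟩
  have hc1 : PT.card ≤ (PT ∩ PH).card + (F.card + (F.card + Mg.card)) := by
    refine (Finset.card_le_card hsub1).trans ((Finset.card_union_le _ _).trans ?_)
    apply Nat.add_le_add_left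
    refine (Finset.card_union_le _ _).trans (Nat.add_le_add Finset.card_image_le ?_)
    exact (Finset.card_union_le _ _).trans (Nat.add_le_add Finset.card_image_le
      Finset.card_image_le)
  have hsub2 : (PT ∩ PH) ∪ (Y1 ∪ Y2) ⊆ PH := by
    intro p hp
    rcases Finset.mem_union.mp hp with hp | hp
    · exact (Finset.mem_inter.mp hp).2
    rcases Finset.mem_union.mp hp with hp | hp
    · obtain ⟨z, hz, rfl⟩ := Finset.mem_image.mp hp
      refine Finset.mem_filter.mpr ⟨Finset.mem_univ _, ?_⟩
      exact Or.inl ⟨rfl, (phiN_pos htr z).ne', Or.inl ⟨z, rfl⟩⟩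
    · obtain ⟨z, hz, rfl⟩ := Finset.mem_image.mp hp
      refine Finset.mem_filter.mpr ⟨Finset.mem_univ _, ?_⟩
      exact Or.inr (Or.inl ⟨rfl, (phiN_pos htr z).ne', Or.inl ⟨z, rfl⟩⟩)
  have hd1 : Disjoint (PT ∩ PH) (Y1 ∪ Y2) := by
    rw [Finset.disjoint_left]
    intro p hp hp'
    have h1 := (Finset.mem_filter.mp (Finset.mem_inter.mp hp).1).2
    rcases Finset.mem_union.mp hp' with hp' | hp'
    · obtain ⟨z, hz, rfl⟩ := Finset.mem_image.mp hp'
      rw [hTadj] at h1
      apply h1
      rw [hφmod, (Finset.mem_filter.mp hz).2]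
      exact Nat.zero_mod r
    · obtain ⟨z, hz, rfl⟩ := Finset.mem_image.mp hp'
      rw [hTadj] at h1
      apply h1
      rw [hφmod, (Finset.mem_filter.mp hz).2]
      exact (Nat.zero_mod r).symm
  have hd2 : Disjoint Y1 Y2 := by
    rw [Finset.disjoint_left]
    intro p hp hp'
    obtain ⟨z, _, rfl⟩ := Finset.mem_image.mp hp
    obtain ⟨w, _, hw⟩ := Finset.mem_image.mp hp'
    exact hφpos w (Prod.mk.inj hw).1
  have hY1c : Y1.card = Z0.card := by
    rw [hY1, Finset.card_image_of_injective]
    intro x y hxy
    exact hφinj (Prod.mk.inj hxy).2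
  have hY2c : Y2.card = Z0.card := by
    rw [hY2, Finset.card_image_of_injective]
    intro x y hxy
    exact hφinj (Prod.mk.inj hxy).1
  have hc2 : (PT ∩ PH).card + (Z0.card + Z0.card) ≤ PH.card := by
    have := Finset.card_le_card hsub2
    rw [Finset.card_union_of_disjoint hd1, Finset.card_union_of_disjoint hd2, hY1c, hY2c] at this
    exact this
  -- the colours `1, …, t - 1`
  set N := (Finset.univ : Finset (Fin n)).filter
    (fun v : Fin n => 1 ≤ (v : ℕ) % r ∧ (v : ℕ) % r < t) with hN
  have hc3 : F.card + Z1.card ≤ N.card := by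
    have hZ1c : (Z1.image φ).card = Z1.card := Finset.card_image_of_injective _ hφinj
    rw [← hZ1c, ← Finset.card_union_of_disjoint]
    · apply Finset.card_le_card
      intro v hv
      rcases Finset.mem_union.mp hv with hv | hv
      · have := Finset.mem_filter.mp hv
        exact Finset.mem_filter.mpr ⟨Finset.mem_univ _, this.2.1, this.2.2.1⟩
      · obtain ⟨z, hz, rfl⟩ := Finset.mem_image.mp hv
        refine Finset.mem_filter.mpr ⟨Finset.mem_univ _, ?_⟩
        rw [hφmod]
        have := (Finset.mem_filter.mp hz).2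
        exact ⟨by omega, g.col_lt z⟩
    · rw [Finset.disjoint_left]
      intro v hv hv'
      obtain ⟨z, _, rfl⟩ := Finset.mem_image.mp hv'
      exact (Finset.mem_filter.mp hv).2.2.2 ⟨z, rfl⟩
  have hc4 : N.card ≤ (t - 1) * ((n - 1) / r + 1) := by
    have hsub : N ⊆ (Finset.Ico 1 t).biUnion (fun c =>
        (Finset.univ : Finset (Fin n)).filter (fun v : Fin n => (v : ℕ) % r = c)) := by
      intro v hv
      have := (Finset.mem_filter.mp hv).2
      exact Finset.mem_biUnion.mpr ⟨(v : ℕ) % r, Finset.mem_Ico.mpr this,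
        Finset.mem_filter.mpr ⟨Finset.mem_univ _, rfl⟩⟩
    refine (Finset.card_le_card hsub).trans (Finset.card_biUnion_le.trans ?_)
    refine (Finset.sum_le_sum (fun c _ => class_card n r c)).trans ?_
    rw [Finset.sum_const, Nat.card_Ico, smul_eq_mul]
  have hfin : PT.card + 2 * Fintype.card g.α ≤ PH.card + 2 * ((t - 1) * ((n - 1) / r + 1)) +
      t * (t - 1) * a ^ t := by omega
  rw [hPTc, hPHc] at hfin
  exact hfin

/-- Generic vertices. -/
def gen (g : Gad t a) (r : ℕ) (c : ℕ) : ℕ := r * (Fintype.card g.α + 1) + c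

theorem host_lower (htr : t ≤ r) (ht : 2 ≤ t) (hn : r * (Fintype.card g.α + 2) ≤ n)
    (hbig : Fintype.card g.ι + Fintype.card g.α + 1 ≤ n / r) :
    ∃ G : SimpleGraph (Fin n), IsSaturated r G ∧ numEdges (host g r n) ≤ numEdges G ∧
      ∀ (D : Finset (Fin n)) (f : Fin n → Fin r),
        (∀ u v, u ∉ D → v ∉ D → (G.Adj u v ↔ f u ≠ f v)) → Fintype.card g.ι ≤ D.card := by
  classical
  have hr : 0 < r := by omega
  have hn0 : 0 < n := lt_of_lt_of_le (by positivity) hn
  set x0 : Fin n := ⟨0, hn0⟩ with hx0
  set φ := phi g r n htr hn with hφ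
  have hφN : ∀ z, ((φ z : Fin n) : ℕ) = phiN g r z := fun z => rfl
  have hφinj : Function.Injective φ := by
    intro x y hxy
    exact phiN_inj htr (by rw [← hφN, ← hφN, hxy])
  have hφmod : ∀ z, ((φ z : Fin n) : ℕ) % r = g.col z := fun z => phiN_mod htr z
  have hφpos : ∀ z, ((φ z : Fin n) : ℕ) ≠ 0 := fun z => (phiN_pos htr z).ne'
  -- generic vertices
  have hgenlt : ∀ c : Fin r, gen g r c < n := by
    intro c
    have h1 : r * (Fintype.card g.α + 2) = r * (Fintype.card g.α + 1) + r := by ring
    unfold gen
    have := c.2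
    omega
  set γ : Fin r → Fin n := fun c => ⟨gen g r c, hgenlt c⟩ with hγ
  have hγmod : ∀ c, ((γ c : Fin n) : ℕ) % r = c := by
    intro c
    show gen g r c % r = c
    unfold gen
    rw [Nat.mul_add_mod, Nat.mod_eq_of_lt c.2]
  have hγrange : ∀ c, ((γ c : Fin n) : ℕ) ∉ Set.range (phiN g r) := by
    rintro c ⟨z, hz⟩
    have h1 := phiN_lt (r := r) htr z
    rw [hz] at h1
    have : r * (Fintype.card g.α + 1) ≤ gen g r c := Nat.le_add_right _ _
    exact absurd h1 (not_lt.mpr this)
  have hγ0 : ∀ c, ((γ c : Fin n) : ℕ) ≠ 0 := by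
    intro c h
    have h1 : gen g r c = 0 := h
    unfold gen at h1
    have : 0 < r * (Fintype.card g.α + 1) := by positivity
    omega
  have hγinj : Function.Injective γ := by
    intro c d hcd
    have := hγmod c
    rw [hcd, hγmod d] at this
    exact Fin.ext this.symm
  -- adjacency facts in the host
  have hA1 : ∀ (w : Fin n) (v : Fin n), (w : ℕ) ≠ 0 → (v : ℕ) ≠ 0 →
      (w : ℕ) ∉ Set.range (phiN g r) → (w : ℕ) % r ≠ (v : ℕ) % r → (host g r n).Adj w v := by
    intro w v hw hv hwr hwv
    refine Or.inr (Or.inr ⟨hw, hv, hwv, ?_⟩)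
    intro z w' hz _
    exact absurd ⟨z, hz.symm⟩ hwr
  have hA2 : ∀ z, (host g r n).Adj x0 (φ z) := by
    intro z
    exact Or.inl ⟨rfl, hφpos z, Or.inl ⟨z, rfl⟩⟩
  have hA3 : ∀ c : Fin r, t ≤ (c : ℕ) → (host g r n).Adj x0 (γ c) := by
    intro c hc
    refine Or.inl ⟨rfl, hγ0 c, Or.inr ?_⟩
    rw [hγmod]; exact hc
  have hA4 : ∀ z w, g.R.Adj z w → (host g r n).Adj (φ z) (φ w) := by
    intro z w hzw
    refine Or.inr (Or.inr ⟨hφpos z, hφpos w, ?_, ?_⟩)
    · rw [hφmod, hφmod]; exact g.proper z w hzw
    · intro z' w' hz' hw'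
      have e1 : z = z' := phiN_inj htr hz'
      have e2 : w = w' := phiN_inj htr hw'
      rw [← e1, ← e2]; exact hzw
  obtain ⟨G, hle, hmax⟩ := @Finite.exists_le_maximal _ _ _
    (fun H : SimpleGraph (Fin n) => H.CliqueFree (r + 1)) (host g r n) (host_cliqueFree htr ht)
  refine ⟨G, ⟨hmax.1, ?_⟩, ?_, ?_⟩
  · intro u v huv hnadj
    exact hmax.not_prop_of_gt (G.lt_sup_edge _ _ huv hnadj)
  · unfold numEdges
    apply Set.ncard_le_ncard _ (Set.toFinite _)
    exact SimpleGraph.edgeSet_mono hle
  · intro D f hDf
    by_contra hcon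
    push Not at hcon
    -- an unhit critical pair
    have hpair : ∃ i : g.ι, φ (g.p i) ∉ D ∧ φ (g.q i) ∉ D := by
      by_contra hno
      push Not at hno
      -- injection from `ι` to `D`
      have : Fintype.card g.ι ≤ D.card := by
        rw [← Finset.card_univ]
        apply Finset.card_le_card_of_injOn
          (fun i => if φ (g.p i) ∈ D then φ (g.p i) else φ (g.q i))
        · intro i _
          by_cases h : φ (g.p i) ∈ D
          · simp only [h, if_true]; exact h
          · simp only [h, if_false]; exact hno i h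
        · intro i _ j _ hij
          simp only at hij
          have hpq : ∀ i j, φ (g.p i) ≠ φ (g.q j) := by
            intro i j h
            have h1 := hφinj h
            have h2 := g.col_p i
            rw [h1, g.col_q j] at h2
            omega
          split_ifs at hij with h1 h2 h2
          · exact g.p_inj (hφinj hij)
          · exact absurd hij (hpq i j)
          · exact absurd hij.symm (hpq j i)
          · exact g.q_inj (hφinj hij)
      omega
    obtain ⟨i, hpD, hqD⟩ := hpair
    -- the pair is not adjacent in `G`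
    obtain ⟨K, hKcard, hKc, hKp, hKq⟩ := g.crit i
    have hcols : ∀ z, g.col z < t := g.col_lt
    have hpK : g.p i ∉ K := fun h => (hKp _ h).ne rfl
    have hqK : g.q i ∉ K := fun h => (hKq _ h).ne rfl
    have hpqne : g.p i ≠ g.q i := by
      intro h
      have h2 := g.col_p i
      rw [h, g.col_q i] at h2
      omega
    have hnadj : ¬ G.Adj (φ (g.p i)) (φ (g.q i)) := by
      intro hadj
      set W : Finset g.α := insert (g.p i) (insert (g.q i) K) with hW
      set L : Finset (Fin r) := Finset.univ.filter (fun c : Fin r => t ≤ (c : ℕ)) with hL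
      set Q : Finset (Fin n) := insert x0 (W.image φ ∪ L.image γ) with hQ
      have hWcard : W.card = t := by
        rw [hW, Finset.card_insert_of_notMem, Finset.card_insert_of_notMem hqK]
        · omega
        · rw [Finset.mem_insert]
          push Not
          exact ⟨hpqne, hpK⟩
      have hLcard : L.card = r - t := by
        have h1 := Finset.card_filter_add_card_filter_not (s := (Finset.univ : Finset (Fin r)))
          (fun c : Fin r => t ≤ (c : ℕ))
        have h2 : ((Finset.univ : Finset (Fin r)).filter (fun c : Fin r => ¬ t ≤ (c : ℕ))).card = t := by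
          have : (Finset.univ : Finset (Fin r)).filter (fun c : Fin r => ¬ t ≤ (c : ℕ)) =
              (Finset.univ : Finset (Fin t)).image (fun c => Fin.castLE htr c) := by
            ext c
            simp only [Finset.mem_filter, Finset.mem_univ, true_and, Finset.mem_image, not_le]
            constructor
            · intro h; exact ⟨⟨c, h⟩, rfl⟩
            · rintro ⟨d, rfl⟩; exact d.2
          rw [this, Finset.card_image_of_injective _ (Fin.castLE_injective htr)]
          simp
        rw [h2, Finset.card_univ, Fintype.card_fin] at h1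
        have h3 : L.card + t = r := h1
        omega
      have hdisj : Disjoint (W.image φ) (L.image γ) := by
        rw [Finset.disjoint_left]
        intro v hv hv'
        obtain ⟨z, _, rfl⟩ := Finset.mem_image.mp hv
        obtain ⟨c, _, hc⟩ := Finset.mem_image.mp hv'
        exact hγrange c ⟨z, by rw [hc]; rfl⟩
      have hx0n : x0 ∉ W.image φ ∪ L.image γ := by
        intro h
        rcases Finset.mem_union.mp h with h | h
        · obtain ⟨z, _, hz⟩ := Finset.mem_image.mp h
          exact hφpos z (by rw [hz])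
        · obtain ⟨c, _, hc⟩ := Finset.mem_image.mp h
          exact hγ0 c (by rw [hc])
      have hQcard : Q.card = r + 1 := by
        rw [hQ, Finset.card_insert_of_notMem hx0n, Finset.card_union_of_disjoint hdisj,
          Finset.card_image_of_injective _ hφinj, Finset.card_image_of_injective _ hγinj,
          hWcard, hLcard]
        omega
      have hWadj : ∀ z ∈ W, ∀ w ∈ W, z ≠ w → G.Adj (φ z) (φ w) := by
        intro z hz w hw hzw
        rw [hW, Finset.mem_insert, Finset.mem_insert] at hz hw
        rcases hz with rfl | rfl | hz <;> rcases hw with rfl | rfl | hw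
        · exact absurd rfl hzw
        · exact hadj
        · exact hle (hA4 _ _ (hKp w hw).symm)
        · exact hadj.symm
        · exact absurd rfl hzw
        · exact hle (hA4 _ _ (hKq w hw).symm)
        · exact hle (hA4 _ _ (hKp z hz))
        · exact hle (hA4 _ _ (hKq z hz))
        · exact hle (hA4 _ _ (hKc hz hw hzw))
      have hWL : ∀ z, ∀ c ∈ L, G.Adj (γ c) (φ z) := by
        intro z c hc
        apply hle
        apply hA1 _ _ (hγ0 c) (hφpos z) (hγrange c)
        rw [hγmod, hφmod]
        have h1 := (Finset.mem_filter.mp hc).2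
        have h2 := g.col_lt z
        omega
      have hLL : ∀ c ∈ L, ∀ d ∈ L, c ≠ d → G.Adj (γ c) (γ d) := by
        intro c _ d _ hcd
        apply hle
        apply hA1 _ _ (hγ0 c) (hγ0 d) (hγrange c)
        rw [hγmod, hγmod]
        exact fun h => hcd (Fin.ext h)
      have hQc : G.IsClique (Q : Set (Fin n)) := by
        rw [hQ, Finset.coe_insert, SimpleGraph.isClique_insert]
        refine ⟨?_, ?_⟩
        · intro u hu v hv huv
          rw [Finset.mem_coe, Finset.mem_union] at hu hv
          rcases hu with hu | hu <;> rcases hv with hv | hv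
          · obtain ⟨z, hz, rfl⟩ := Finset.mem_image.mp hu
            obtain ⟨w, hw, rfl⟩ := Finset.mem_image.mp hv
            exact hWadj z hz w hw (fun h => huv (by rw [h]))
          · obtain ⟨z, hz, rfl⟩ := Finset.mem_image.mp hu
            obtain ⟨c, hc, rfl⟩ := Finset.mem_image.mp hv
            exact (hWL z c hc).symm
          · obtain ⟨c, hc, rfl⟩ := Finset.mem_image.mp hu
            obtain ⟨z, hz, rfl⟩ := Finset.mem_image.mp hv
            exact hWL z c hc
          · obtain ⟨c, hc, rfl⟩ := Finset.mem_image.mp hu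
            obtain ⟨d, hd, rfl⟩ := Finset.mem_image.mp hv
            exact hLL c hc d hd (fun h => huv (by rw [h]))
        · intro v hv _
          rw [Finset.mem_coe, Finset.mem_union] at hv
          rcases hv with hv | hv
          · obtain ⟨z, _, rfl⟩ := Finset.mem_image.mp hv
            exact hle (hA2 z)
          · obtain ⟨c, hc, rfl⟩ := Finset.mem_image.mp hv
            exact hle (hA3 c (Finset.mem_filter.mp hc).2)
      exact hmax.1 Q ⟨hQc, hQcard⟩
    -- a generic vertex of colour `1` outside `D`
    have hr1 : 1 < r := by omega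
    set Gn := (Finset.univ : Finset (Fin n)).filter
      (fun w : Fin n => (w : ℕ) % r = 1 ∧ (w : ℕ) ∉ Set.range (phiN g r)) with hGn
    have hGncard : n / r ≤ Gn.card + Fintype.card g.α := by
      have h1 : n / r ≤ ((Finset.univ : Finset (Fin n)).filter (fun w : Fin n => (w : ℕ) % r = 1)).card := by
        have h2 : (Finset.univ : Finset (Fin (n / r))).card ≤
            ((Finset.univ : Finset (Fin n)).filter (fun w : Fin n => (w : ℕ) % r = 1)).card := by
          have hlt : ∀ j : Fin (n / r), r * (j : ℕ) + 1 < n := by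
            intro j
            have h3 : (j : ℕ) + 1 ≤ n / r := j.2
            have h4 : r * ((j : ℕ) + 1) ≤ r * (n / r) := Nat.mul_le_mul_left _ h3
            have h5 : r * (n / r) ≤ n := Nat.mul_div_le n r
            have h6 : r * ((j : ℕ) + 1) = r * j + r := by ring
            omega
          apply Finset.card_le_card_of_injOn (fun j : Fin (n / r) => (⟨r * (j : ℕ) + 1, hlt j⟩ : Fin n))
          · intro j _
            rw [Finset.mem_coe, Finset.mem_filter]
            refine ⟨Finset.mem_univ _, ?_⟩
            show (r * (j : ℕ) + 1) % r = 1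
            rw [Nat.mul_add_mod, Nat.mod_eq_of_lt hr1]
          · intro j _ l _ hjl
            have : r * (j : ℕ) + 1 = r * (l : ℕ) + 1 := congrArg Fin.val hjl
            have : r * (j : ℕ) = r * (l : ℕ) := by omega
            exact Fin.ext (Nat.eq_of_mul_eq_mul_left hr this)
        simpa using h2
      have h3 : (Finset.univ : Finset (Fin n)).filter (fun w : Fin n => (w : ℕ) % r = 1) ⊆
          Gn ∪ (Finset.univ : Finset g.α).image φ := by
        intro w hw
        have hw' := (Finset.mem_filter.mp hw).2
        by_cases h : (w : ℕ) ∈ Set.range (phiN g r)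
        · obtain ⟨z, hz⟩ := h
          exact Finset.mem_union_right _ (Finset.mem_image.mpr ⟨z, Finset.mem_univ _, Fin.ext hz⟩)
        · exact Finset.mem_union_left _ (Finset.mem_filter.mpr ⟨Finset.mem_univ _, hw', h⟩)
      have h4 := (Finset.card_le_card h3).trans (Finset.card_union_le _ _)
      have h5 : ((Finset.univ : Finset g.α).image φ).card ≤ Fintype.card g.α :=
        Finset.card_image_le.trans (by simp)
      omega
    have hw : ∃ w ∈ Gn, w ∉ D := by
      by_contra hno
      push Not at hno
      have : Gn.card ≤ D.card := Finset.card_le_card hno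
      omega
    obtain ⟨w, hwG, hwD⟩ := hw
    obtain ⟨hw1, hw2⟩ := (Finset.mem_filter.mp hwG).2
    have hw0 : (w : ℕ) ≠ 0 := by
      intro h; rw [h, Nat.zero_mod] at hw1; omega
    have hwp : G.Adj w (φ (g.p i)) := by
      apply hle
      apply hA1 _ _ hw0 (hφpos _) hw2
      rw [hφmod, g.col_p, hw1]; omega
    have hwq : ¬ G.Adj w (φ (g.q i)) := by
      intro hadj
      set L : Finset (Fin r) := Finset.univ.erase ⟨1, hr1⟩ with hL
      set Q : Finset (Fin n) := insert w (insert (φ (g.q i)) (L.image γ)) with hQ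
      have hLcard : L.card = r - 1 := by
        rw [hL, Finset.card_erase_of_mem (Finset.mem_univ _)]; simp
      have hcL : ∀ c ∈ L, (c : ℕ) ≠ 1 := by
        intro c hc h
        exact (Finset.mem_erase.mp hc).1 (Fin.ext h)
      have hqn : φ (g.q i) ∉ L.image γ := by
        intro h
        obtain ⟨c, _, hc⟩ := Finset.mem_image.mp h
        exact hγrange c ⟨g.q i, by rw [hc]; rfl⟩
      have hwn : w ∉ insert (φ (g.q i)) (L.image γ) := by
        intro h
        rcases Finset.mem_insert.mp h with h | h
        · exact hw2 ⟨g.q i, by rw [h]; rfl⟩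
        · obtain ⟨c, hc, hcw⟩ := Finset.mem_image.mp h
          have := hγmod c
          rw [hcw, hw1] at this
          exact hcL c hc this.symm
      have hQcard : Q.card = r + 1 := by
        rw [hQ, Finset.card_insert_of_notMem hwn, Finset.card_insert_of_notMem hqn,
          Finset.card_image_of_injective _ hγinj, hLcard]
        omega
      have hQc : G.IsClique (Q : Set (Fin n)) := by
        rw [hQ, Finset.coe_insert, Finset.coe_insert, SimpleGraph.isClique_insert,
          SimpleGraph.isClique_insert]
        refine ⟨⟨?_, ?_⟩, ?_⟩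
        · intro u hu v hv huv
          rw [Finset.mem_coe] at hu hv
          obtain ⟨c, hc, rfl⟩ := Finset.mem_image.mp hu
          obtain ⟨d, hd, rfl⟩ := Finset.mem_image.mp hv
          apply hle
          apply hA1 _ _ (hγ0 c) (hγ0 d) (hγrange c)
          rw [hγmod, hγmod]
          exact fun h => huv (by rw [Fin.ext h])
        · intro v hv _
          rw [Finset.mem_coe] at hv
          obtain ⟨c, hc, rfl⟩ := Finset.mem_image.mp hv
          apply SimpleGraph.Adj.symm
          apply hle
          apply hA1 _ _ (hγ0 c) (hφpos _) (hγrange c)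
          rw [hγmod, hφmod, g.col_q]
          exact hcL c hc
        · intro v hv _
          rcases hv with rfl | hv
          · exact hadj
          · rw [Finset.mem_coe] at hv
            obtain ⟨c, hc, rfl⟩ := Finset.mem_image.mp hv
            apply hle
            apply hA1 _ _ hw0 (hγ0 c) hw2
            rw [hγmod, hw1]
            exact (hcL c hc).symm
      exact hmax.1 Q ⟨hQc, hQcard⟩
    -- contradiction
    have e1 : f (φ (g.p i)) = f (φ (g.q i)) := by
      by_contra h
      exact hnadj ((hDf _ _ hpD hqD).mpr h)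
    have e2 : f w ≠ f (φ (g.p i)) := (hDf _ _ hwD hpD).mp hwp
    have e3 : f w = f (φ (g.q i)) := by
      by_contra h
      exact hwq ((hDf _ _ hwD hqD).mpr h)
    exact e2 (e3.trans e1.symm)

end

end Pool.Agent.H65.Sat
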