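import Pool.Agent.H65.Sat.Crit

/-!
The local covering statement.
-/

namespace Pool.Agent.H65.Sat

open Finset

variable {V : Type} [Fintype V] [DecidableEq V]

lemma isClique_insert_of {G : SimpleGraph V} {K : Finset V} {w : V}
    (hK : G.IsClique (K : Set V)) (hw : ∀ y ∈ K, G.Adj w y) :
    G.IsClique ((insert w K : Finset V) : Set V) := by
  rw [Finset.coe_insert, SimpleGraph.isClique_insert]
  exact ⟨hK, fun b hb _ => hw b hb⟩

theorem local_cover {r : ℕ} (G : SimpleGraph V) (f : V → Fin r) (A : Finset V) (t : ℕ)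
    (ht : 2 ≤ t) (hf : ∀ u ∈ A, ∀ v ∈ A, G.Adj u v → f u ≠ f v)
    (hfree : ∀ K ⊆ A, G.IsClique (K : Set V) → K.card ≠ t) :
    ∃ D : Finset V, (∀ u v, Crit G f A t u v → u ∈ D ∨ v ∈ D) ∧
      ((4 * A.card ≤ (miss G f A).card ∧
          (D.card : ℝ) ≤ CD r t * ((miss G f A).card : ℝ) ^ (1 - 1 / (t : ℝ))) ∨
        ((miss G f A).card < 4 * A.card ∧
          (D.card : ℝ) ≤ 3 + 4 * CD r (t - 1) *
            ((miss G f A).card : ℝ) ^ (1 - 1 / ((t - 1 : ℕ) : ℝ)))) := by
  classical
  rcases Nat.lt_or_ge (miss G f A).card (4 * A.card) with hM | hM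
  swap
  · obtain ⟨D, hD1, hD2⟩ := cover_crit G f A t ht hf hfree
    exact ⟨D, hD2, Or.inl ⟨hM, hD1⟩⟩
  -- a vertex with few missing pairs
  set b : V → Finset V := fun w => A.filter (fun y => f w ≠ f y ∧ ¬ G.Adj w y) with hb
  have hsum : ∑ w ∈ A, (b w).card = (miss G f A).card := by
    have h1 : miss G f A = A.biUnion (fun w => (b w).image (fun y => (w, y))) := by
      ext ⟨p, q⟩
      simp only [miss, Finset.mem_filter, Finset.mem_product, Finset.mem_biUnion,
        Finset.mem_image, hb, Prod.mk.injEq]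
      constructor
      · rintro ⟨⟨h1, h2⟩, h3, h4⟩
        exact ⟨p, h1, q, ⟨h2, h3, h4⟩, rfl, rfl⟩
      · rintro ⟨w, hw, y, ⟨hy, h3, h4⟩, rfl, rfl⟩
        exact ⟨⟨hw, hy⟩, h3, h4⟩
    rw [h1, Finset.card_biUnion]
    · apply Finset.sum_congr rfl
      intro w _
      rw [Finset.card_image_of_injective]
      intro y z hyz
      exact (Prod.mk.inj hyz).2
    · intro k _ k' _ hne
      rw [Function.onFun, Finset.disjoint_left]
      intro q hq hq'
      obtain ⟨y, _, rfl⟩ := Finset.mem_image.mp hq
      obtain ⟨y', _, hyy⟩ := Finset.mem_image.mp hq'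
      exact hne (Prod.mk.inj hyy).1.symm
  have hw0 : ∃ w ∈ A, (b w).card < 4 := by
    have : ∑ w ∈ A, (b w).card < ∑ w ∈ A, 4 := by
      rw [hsum, Finset.sum_const, smul_eq_mul, mul_comm]; exact hM
    exact Finset.exists_lt_of_sum_lt this
  obtain ⟨w0, hw0A, hw0b⟩ := hw0
  set D0 := b w0 with hD0
  have hD0mem : ∀ y ∈ A, f w0 ≠ f y → y ∉ D0 → G.Adj w0 y := by
    intro y hy hfy hyD
    by_contra hcon
    exact hyD (Finset.mem_filter.mpr ⟨hy, hfy, hcon⟩)
  -- every (t-1)-clique avoiding the class of `w0` meets `D0`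
  have hhit : ∀ K ⊆ A, G.IsClique (K : Set V) → K.card = t - 1 → (∀ y ∈ K, f y ≠ f w0) →
      ∃ y ∈ K, y ∈ D0 := by
    intro K hKA hKc hKcard hKf
    by_contra hcon
    push Not at hcon
    have hadj : ∀ y ∈ K, G.Adj w0 y := fun y hy => hD0mem y (hKA hy) (hKf y hy).symm (hcon y hy)
    have hw0K : w0 ∉ K := fun h => (hadj _ h).ne rfl
    refine hfree (insert w0 K) ?_ (isClique_insert_of hKc hadj) ?_
    · exact Finset.insert_subset hw0A hKA
    · rw [Finset.card_insert_of_notMem hw0K]; omega
  have hMnn : (0 : ℝ) ≤ ((miss G f A).card : ℝ) := Nat.cast_nonneg _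
  rcases Nat.lt_or_ge t 3 with ht3 | ht3
  · -- `t = 2`
    have ht2 : t = 2 := by omega
    refine ⟨D0, ?_, Or.inr ⟨hM, ?_⟩⟩
    · intro u v ⟨hu, hv, hfuv, hnadj, K, hKA, hKc, _, _, _⟩
      by_cases h : f u = f w0
      · right
        have hv' : f v ≠ f w0 := fun h' => hfuv (h.trans h'.symm)
        obtain ⟨y, hy, hyD⟩ := hhit {v} (by simpa using hv) (by simp) (by simp; omega)
          (by simpa using hv')
        rw [Finset.mem_singleton] at hy
        subst hy
        exact hyD
      · left
        obtain ⟨y, hy, hyD⟩ := hhit {u} (by simpa using hu) (by simp) (by simp; omega)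
          (by simpa using h)
        rw [Finset.mem_singleton] at hy
        subst hy
        exact hyD
    · have h1 : (D0.card : ℝ) ≤ 3 := by
        have : D0.card ≤ 3 := by omega
        exact_mod_cast this
      have h2 : (0 : ℝ) ≤ 4 * CD r (t - 1) *
            ((miss G f A).card : ℝ) ^ (1 - 1 / ((t - 1 : ℕ) : ℝ)) := by
        have := CD_nonneg r (t - 1)
        positivity
      linarith
  · -- `t ≥ 3`
    set A1 := (A.filter (fun y => f y ≠ f w0)) \ D0 with hA1
    have hA1A : A1 ⊆ A := fun y hy => (Finset.mem_filter.mp (Finset.mem_sdiff.mp hy).1).1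
    have hfree1 : ∀ K ⊆ A1, G.IsClique (K : Set V) → K.card ≠ t - 1 := by
      intro K hK hKc hKcard
      obtain ⟨y, hy, hyD⟩ := hhit K (hK.trans hA1A) hKc hKcard
        (fun y hy => (Finset.mem_filter.mp (Finset.mem_sdiff.mp (hK hy)).1).2)
      exact (Finset.mem_sdiff.mp (hK hy)).2 hyD
    obtain ⟨D1, hD1c, hD1⟩ := cover_crit G f A1 (t - 1) (by omega)
      (fun u hu v hv => hf u (hA1A hu) v (hA1A hv)) hfree1
    -- the sets `A ∩ N(d)`
    set Ad : V → Finset V := fun d => A.filter (fun y => G.Adj d y) with hAd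
    have hAdA : ∀ d, Ad d ⊆ A := fun d => Finset.filter_subset _ _
    have hfreed : ∀ d ∈ A, ∀ K ⊆ Ad d, G.IsClique (K : Set V) → K.card ≠ t - 1 := by
      intro d hd K hK hKc hKcard
      have hadj : ∀ y ∈ K, G.Adj d y := fun y hy => (Finset.mem_filter.mp (hK hy)).2
      have hdK : d ∉ K := fun h => (hadj _ h).ne rfl
      refine hfree (insert d K) ?_ (isClique_insert_of hKc hadj) ?_
      · exact Finset.insert_subset hd (hK.trans (hAdA d))
      · rw [Finset.card_insert_of_notMem hdK]; omega
    have hexd : ∀ d : V, ∃ D : Finset V, d ∈ D0 →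
        ((D.card : ℝ) ≤ CD r (t - 1) * ((miss G f (Ad d)).card : ℝ) ^ (1 - 1 / ((t - 1 : ℕ) : ℝ)) ∧
        ∀ u v, Crit G f (Ad d) (t - 1) u v → u ∈ D ∨ v ∈ D) := by
      intro d
      by_cases hd : d ∈ D0
      · have hdA : d ∈ A := (Finset.mem_filter.mp hd).1
        obtain ⟨D, h1, h2⟩ := cover_crit G f (Ad d) (t - 1) (by omega)
          (fun u hu v hv => hf u (hAdA d hu) v (hAdA d hv)) (hfreed d hdA)
        exact ⟨D, fun _ => ⟨h1, h2⟩⟩
      · exact ⟨∅, fun h => absurd h hd⟩
    choose Dd hDd using hexd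
    refine ⟨D0 ∪ (D1 ∪ D0.biUnion Dd), ?_, Or.inr ⟨hM, ?_⟩⟩
    · intro u v ⟨hu, hv, hfuv, hnadj, K, hKA, hKcard, hKc, hKu, hKv⟩
      -- reduction when `K` meets `D0`
      have hcase : ∀ d ∈ K, d ∈ D0 → u ∈ D0.biUnion Dd ∨ v ∈ D0.biUnion Dd := by
        intro d hdK hdD
        have hcrit : Crit G f (Ad d) (t - 1) u v := by
          refine ⟨Finset.mem_filter.mpr ⟨hu, hKu d hdK⟩, Finset.mem_filter.mpr ⟨hv, hKv d hdK⟩,
            hfuv, hnadj, K.erase d, ?_, ?_, ?_, ?_, ?_⟩
          · intro y hy
            have hy' := Finset.mem_erase.mp hy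
            exact Finset.mem_filter.mpr ⟨hKA hy'.2, hKc hdK hy'.2 hy'.1.symm⟩
          · rw [Finset.card_erase_of_mem hdK]; omega
          · exact hKc.subset (by intro y hy; exact Finset.mem_of_mem_erase hy)
          · intro y hy; exact hKu y (Finset.mem_of_mem_erase hy)
          · intro y hy; exact hKv y (Finset.mem_of_mem_erase hy)
        rcases (hDd d hdD).2 u v hcrit with h | h
        · exact Or.inl (Finset.mem_biUnion.mpr ⟨d, hdD, h⟩)
        · exact Or.inr (Finset.mem_biUnion.mpr ⟨d, hdD, h⟩)
      have hout : (u ∈ D0 ∨ v ∈ D0) ∨ (u ∈ D1 ∨ v ∈ D1) ∨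
          (u ∈ D0.biUnion Dd ∨ v ∈ D0.biUnion Dd) := by
        by_cases hi0 : ∃ w ∈ K, f w = f w0
        · obtain ⟨w, hwK, hwf⟩ := hi0
          by_cases hKD : ∃ d ∈ K, d ∈ D0
          · obtain ⟨d, hd, hdD⟩ := hKD
            exact Or.inr (Or.inr (hcase d hd hdD))
          · push Not at hKD
            by_cases huD : u ∈ D0
            · exact Or.inl (Or.inl huD)
            by_cases hvD : v ∈ D0
            · exact Or.inl (Or.inr hvD)
            have huf : f u ≠ f w0 := by
              rw [← hwf]; exact fun h => hf w (hKA hwK) u hu (hKu w hwK) h.symm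
            have hvf : f v ≠ f w0 := by
              rw [← hwf]; exact fun h => hf w (hKA hwK) v hv (hKv w hwK) h.symm
            have hcrit : Crit G f A1 (t - 1) u v := by
              refine ⟨Finset.mem_sdiff.mpr ⟨Finset.mem_filter.mpr ⟨hu, huf⟩, huD⟩,
                Finset.mem_sdiff.mpr ⟨Finset.mem_filter.mpr ⟨hv, hvf⟩, hvD⟩,
                hfuv, hnadj, K.erase w, ?_, ?_, ?_, ?_, ?_⟩
              · intro y hy
                have hy' := Finset.mem_erase.mp hy
                refine Finset.mem_sdiff.mpr ⟨Finset.mem_filter.mpr ⟨hKA hy'.2, ?_⟩, hKD y hy'.2⟩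
                rw [← hwf]
                exact hf y (hKA hy'.2) w (hKA hwK) (hKc hy'.2 hwK hy'.1)
              · rw [Finset.card_erase_of_mem hwK]; omega
              · exact hKc.subset (by intro y hy; exact Finset.mem_of_mem_erase hy)
              · intro y hy; exact hKu y (Finset.mem_of_mem_erase hy)
              · intro y hy; exact hKv y (Finset.mem_of_mem_erase hy)
            exact Or.inr (Or.inl (hD1 u v hcrit))
        · push Not at hi0
          -- choose an endpoint outside the class of `w0`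
          by_cases hfu : f u = f w0
          · have hfv : f v ≠ f w0 := fun h' => hfuv (hfu.trans h'.symm)
            have hvK : v ∉ K := fun h => (hKv v h).ne rfl
            obtain ⟨y, hy, hyD⟩ := hhit (insert v K) (Finset.insert_subset hv hKA)
              (isClique_insert_of hKc (fun y hy => (hKv y hy).symm))
              (by rw [Finset.card_insert_of_notMem hvK]; omega)
              (by
                intro y hy
                rcases Finset.mem_insert.mp hy with rfl | hy
                · exact hfv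
                · exact hi0 y hy)
            rcases Finset.mem_insert.mp hy with rfl | hy
            · exact Or.inl (Or.inr hyD)
            · exact Or.inr (Or.inr (hcase y hy hyD))
          · have huK : u ∉ K := fun h => (hKu u h).ne rfl
            obtain ⟨y, hy, hyD⟩ := hhit (insert u K) (Finset.insert_subset hu hKA)
              (isClique_insert_of hKc (fun y hy => (hKu y hy).symm))
              (by rw [Finset.card_insert_of_notMem huK]; omega)
              (by
                intro y hy
                rcases Finset.mem_insert.mp hy with rfl | hy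
                · exact hfu
                · exact hi0 y hy)
            rcases Finset.mem_insert.mp hy with rfl | hy
            · exact Or.inl (Or.inl hyD)
            · exact Or.inr (Or.inr (hcase y hy hyD))
      rcases hout with (h | h) | (h | h) | (h | h)
      · exact Or.inl (Finset.mem_union_left _ h)
      · exact Or.inr (Finset.mem_union_left _ h)
      · exact Or.inl (Finset.mem_union_right _ (Finset.mem_union_left _ h))
      · exact Or.inr (Finset.mem_union_right _ (Finset.mem_union_left _ h))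
      · exact Or.inl (Finset.mem_union_right _ (Finset.mem_union_right _ h))
      · exact Or.inr (Finset.mem_union_right _ (Finset.mem_union_right _ h))
    · set E : ℝ := ((miss G f A).card : ℝ) ^ (1 - 1 / ((t - 1 : ℕ) : ℝ)) with hE
      have hexpnn : (0 : ℝ) ≤ 1 - 1 / ((t - 1 : ℕ) : ℝ) := by
        have h2 : (2 : ℝ) ≤ ((t - 1 : ℕ) : ℝ) := by
          have : 2 ≤ t - 1 := by omega
          exact_mod_cast this
        have : 1 / ((t - 1 : ℕ) : ℝ) ≤ 1 := by
          rw [div_le_one (by linarith)]; linarith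
        linarith
      have hCDn := CD_nonneg r (t - 1)
      have hmono : ∀ B ⊆ A, ((miss G f B).card : ℝ) ^ (1 - 1 / ((t - 1 : ℕ) : ℝ)) ≤ E := by
        intro B hB
        apply Real.rpow_le_rpow (Nat.cast_nonneg _) _ hexpnn
        exact_mod_cast Finset.card_le_card (miss_mono G f hB)
      have h0 : (D0.card : ℝ) ≤ 3 := by
        have : D0.card ≤ 3 := by omega
        exact_mod_cast this
      have h1 : (D1.card : ℝ) ≤ CD r (t - 1) * E :=
        hD1c.trans (mul_le_mul_of_nonneg_left (hmono A1 hA1A) hCDn)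
      have h2 : ((D0.biUnion Dd).card : ℝ) ≤ 3 * (CD r (t - 1) * E) := by
        have h3 : ((D0.biUnion Dd).card : ℝ) ≤ ∑ d ∈ D0, ((Dd d).card : ℝ) := by
          exact_mod_cast Finset.card_biUnion_le
        have h4 : ∑ d ∈ D0, ((Dd d).card : ℝ) ≤ ∑ d ∈ D0, CD r (t - 1) * E := by
          apply Finset.sum_le_sum
          intro d hd
          exact (hDd d hd).1.trans (mul_le_mul_of_nonneg_left (hmono _ (hAdA d)) hCDn)
        rw [Finset.sum_const, nsmul_eq_mul] at h4
        have hEnn : 0 ≤ CD r (t - 1) * E := by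
          have : 0 ≤ E := Real.rpow_nonneg (Nat.cast_nonneg _) _
          positivity
        have h5 : (D0.card : ℝ) * (CD r (t - 1) * E) ≤ 3 * (CD r (t - 1) * E) :=
          mul_le_mul_of_nonneg_right h0 hEnn
        linarith
      have h6 : ((D0 ∪ (D1 ∪ D0.biUnion Dd)).card : ℝ) ≤
          D0.card + (D1.card + (D0.biUnion Dd).card) := by
        have : (D0 ∪ (D1 ∪ D0.biUnion Dd)).card ≤ D0.card + (D1.card + (D0.biUnion Dd).card) :=
          (Finset.card_union_le _ _).trans (Nat.add_le_add_left (Finset.card_union_le _ _) _)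
        exact_mod_cast this
      have h7 : 4 * CD r (t - 1) * E = CD r (t - 1) * E + 3 * (CD r (t - 1) * E) := by ring
      rw [h7]
      linarith

end Pool.Agent.H65.Sat
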