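import Pool.Agent.H65.Sat.Cost

/-!
The upper bound.
-/

namespace Pool.Agent.H65.Sat

open Finset

/-- The order of magnitude in terms of real parameters. -/
noncomputable def mu (n θ : ℝ) (k : ℕ) : ℝ :=
  max (n ^ (1 - 1 / (k : ℝ))) (θ ^ (1 - 1 / ((k : ℝ) + 1)))

lemma rpow_scale {x y K e : ℝ} (hx : 0 ≤ x) (hy : 0 ≤ y) (hK : 1 ≤ K) (hxy : x ≤ K * y)
    (he0 : 0 ≤ e) (he1 : e ≤ 1) : x ^ e ≤ K * y ^ e := by
  have h1 : x ^ e ≤ (K * y) ^ e := Real.rpow_le_rpow hx hxy he0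
  rw [Real.mul_rpow (by linarith) hy] at h1
  have h2 : K ^ e ≤ K := by
    calc K ^ e ≤ K ^ (1 : ℝ) := Real.rpow_le_rpow_of_exponent_le hK he1
      _ = K := Real.rpow_one K
  exact h1.trans (mul_le_mul_of_nonneg_right h2 (Real.rpow_nonneg hy e))

lemma exp_nonneg_of {k : ℝ} (hk : 1 ≤ k) : 0 ≤ 1 - 1 / k := by
  have : 1 / k ≤ 1 := by rw [div_le_one (by linarith)]; exact hk
  linarith

lemma exp_le_one_of {k : ℝ} (hk : 1 ≤ k) : 1 - 1 / k ≤ 1 := by
  have : 0 < 1 / k := by positivity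
  linarith

lemma exp_mono_of {s t : ℝ} (hs : 1 ≤ s) (hst : s ≤ t) : 1 - 1 / s ≤ 1 - 1 / t := by
  have : 1 / t ≤ 1 / s := one_div_le_one_div_of_le (by linarith) hst
  linarith

lemma one_le_mu (n θ : ℝ) (k : ℕ) (hn : 1 ≤ n) (hk : 1 ≤ k) : 1 ≤ mu n θ k := by
  refine le_trans ?_ (le_max_left _ _)
  exact Real.one_le_rpow hn (exp_nonneg_of (by exact_mod_cast hk))

lemma num_i (r n θ m M a C2 : ℝ) (k t : ℕ) (hr : 2 ≤ r) (hn : 1 ≤ n) (hk : 1 ≤ k) (ht : 2 ≤ t)
    (hθ0 : 0 ≤ θ) (hθ : θ < n / r) (hm : m = k * n / r + θ) (hmn : m ≤ n) (hM0 : 0 ≤ M)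
    (hC2 : 0 ≤ C2) (hM : M ≤ 2 * m - 2 * ((t : ℝ) - 1) * n / r + 2 * a + C2)
    (h4 : 4 * a ≤ M) : M ^ (1 - 1 / (t : ℝ)) ≤ (4 + 2 * C2) * mu n θ k := by
  have hr0 : 0 < r := by linarith
  have hk1 : (1 : ℝ) ≤ k := by exact_mod_cast hk
  have ht2 : (2 : ℝ) ≤ t := by exact_mod_cast ht
  have hM1 : M ≤ 4 * m - 4 * ((t : ℝ) - 1) * n / r + 2 * C2 := by
    have e1 : 4 * ((t : ℝ) - 1) * n / r = 2 * (2 * ((t : ℝ) - 1) * n / r) := by ring
    rw [e1]; linarith
  have hK : (1 : ℝ) ≤ 4 + 2 * C2 := by linarith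
  have hmu1 := one_le_mu n θ k hn hk
  have he0 : 0 ≤ 1 - 1 / (t : ℝ) := exp_nonneg_of (by linarith)
  have he1 : 1 - 1 / (t : ℝ) ≤ 1 := exp_le_one_of (by linarith)
  have hnr0 : 0 ≤ n / r := by positivity
  rcases Nat.lt_or_ge k t with hkt | hkt
  · -- `t ≥ k + 1`
    rcases Nat.lt_or_ge (k + 1) t with hkt2 | hkt2
    · -- `t ≥ k + 2`
      have h5 : (k : ℝ) + 2 ≤ t := by exact_mod_cast hkt2
      have h6 : M ≤ 2 * C2 := by
        have e2 : 4 * ((t : ℝ) - 1) * n / r = 4 * (((t : ℝ) - 1) * (n / r)) := by ring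
        have e3 : (k : ℝ) * n / r = k * (n / r) := by ring
        rw [e2] at hM1
        rw [e3] at hm
        have h7 : ((k : ℝ) + 1) * (n / r) ≤ ((t : ℝ) - 1) * (n / r) :=
          mul_le_mul_of_nonneg_right (by linarith) hnr0
        nlinarith
      have h8 : M ^ (1 - 1 / (t : ℝ)) ≤ (4 + 2 * C2) * (1 : ℝ) ^ (1 - 1 / (t : ℝ)) :=
        rpow_scale hM0 zero_le_one hK (by linarith) he0 he1
      rw [Real.one_rpow, mul_one] at h8
      nlinarith
    · have htk : t = k + 1 := by omega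
      have htk' : (t : ℝ) = (k : ℝ) + 1 := by exact_mod_cast htk
      have h6 : M ≤ 4 * θ + 2 * C2 := by
        rw [hm, htk'] at hM1
        have e2 : 4 * ((k : ℝ) + 1 - 1) * n / r = 4 * (k * n / r) := by ring
        rw [e2] at hM1
        linarith
      rcases le_or_gt 1 θ with h1 | h1
      · have h8 : M ^ (1 - 1 / (t : ℝ)) ≤ (4 + 2 * C2) * θ ^ (1 - 1 / (t : ℝ)) :=
          rpow_scale hM0 hθ0 hK (by nlinarith) he0 he1
        refine h8.trans (mul_le_mul_of_nonneg_left ?_ (by linarith))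
        rw [htk']
        exact le_max_right _ _
      · have h8 : M ^ (1 - 1 / (t : ℝ)) ≤ (4 + 2 * C2) * (1 : ℝ) ^ (1 - 1 / (t : ℝ)) :=
          rpow_scale hM0 zero_le_one hK (by linarith) he0 he1
        rw [Real.one_rpow, mul_one] at h8
        nlinarith
  · have hkt' : (t : ℝ) ≤ k := by exact_mod_cast hkt
    have h6 : M ≤ (4 + 2 * C2) * n := by
      have : 0 ≤ 4 * ((t : ℝ) - 1) * n / r := by
        apply div_nonneg _ hr0.le
        apply mul_nonneg _ (by linarith)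
        linarith
      nlinarith
    have h8 : M ^ (1 - 1 / (t : ℝ)) ≤ (4 + 2 * C2) * n ^ (1 - 1 / (t : ℝ)) :=
      rpow_scale hM0 (by linarith) hK h6 he0 he1
    refine h8.trans (mul_le_mul_of_nonneg_left ?_ (by linarith))
    refine le_trans ?_ (le_max_left _ _)
    exact Real.rpow_le_rpow_of_exponent_le hn (exp_mono_of (by linarith) hkt')

lemma num_ii (r n θ m M a C2 : ℝ) (k t : ℕ) (hr : 2 ≤ r) (hn : 1 ≤ n) (hk : 1 ≤ k) (ht : 2 ≤ t)
    (hθ0 : 0 ≤ θ) (hθ : θ < n / r) (hm : m = k * n / r + θ) (hM0 : 0 ≤ M)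
    (hM : M ≤ 2 * m - 2 * ((t : ℝ) - 1) * n / r + 2 * a + C2)
    (h4 : M < 4 * a) (ha : a ≤ n / (2 * r)) (hbig : 2 * r * C2 < n) (hC2 : 0 ≤ C2) :
    M ^ (1 - 1 / ((t - 1 : ℕ) : ℝ)) ≤ 4 * r * mu n θ k := by
  have hr0 : 0 < r := by linarith
  have hk1 : (1 : ℝ) ≤ k := by exact_mod_cast hk
  have ht2 : (2 : ℝ) ≤ t := by exact_mod_cast ht
  have ht1 : ((t - 1 : ℕ) : ℝ) = (t : ℝ) - 1 := by
    rw [Nat.cast_sub (by omega)]; simp
  rw [ht1]
  have hnr0 : 0 ≤ n / r := by positivity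
  have hmu1 := one_le_mu n θ k hn hk
  have he0 : 0 ≤ 1 - 1 / ((t : ℝ) - 1) := exp_nonneg_of (by linarith)
  have he1 : 1 - 1 / ((t : ℝ) - 1) ≤ 1 := exp_le_one_of (by linarith)
  have ha2 : a ≤ (n / r) / 2 := by
    have : n / (2 * r) = (n / r) / 2 := by field_simp
    rw [← this]; exact ha
  have hnr1 : n / r ≤ n / 2 := by
    apply div_le_div_of_nonneg_left (by linarith) (by norm_num) hr
  have hMn : M ≤ n := by linarith
  have hC2' : C2 < (n / r) / 2 := by
    have : (n / r) / 2 = n / (2 * r) := by field_simp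
    rw [this, lt_div_iff₀ (by positivity)]
    linarith
  have e2 : 2 * ((t : ℝ) - 1) * n / r = 2 * (((t : ℝ) - 1) * (n / r)) := by ring
  have e3 : (k : ℝ) * n / r = k * (n / r) := by ring
  rw [e2] at hM
  rw [e3] at hm
  rcases Nat.lt_or_ge (k + 1) t with hkt | hkt
  · rcases Nat.lt_or_ge (k + 2) t with hkt2 | hkt2
    · exfalso
      have h5 : (k : ℝ) + 3 ≤ t := by exact_mod_cast hkt2
      have h7 : ((k : ℝ) + 2) * (n / r) ≤ ((t : ℝ) - 1) * (n / r) :=
        mul_le_mul_of_nonneg_right (by linarith) hnr0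
      nlinarith
    · have htk : t = k + 2 := by omega
      have htk' : (t : ℝ) = (k : ℝ) + 2 := by exact_mod_cast htk
      have h6 : n / r ≤ 4 * θ := by
        rw [htk'] at hM
        nlinarith
      have h7 : n ≤ 4 * r * θ := by
        rw [div_le_iff₀ hr0] at h6
        linarith
      have e4 : (t : ℝ) - 1 = (k : ℝ) + 1 := by rw [htk']; ring
      rw [e4] at he0 he1 ⊢
      have h8 : M ^ (1 - 1 / ((k : ℝ) + 1)) ≤ (4 * r) * θ ^ (1 - 1 / ((k : ℝ) + 1)) :=
        rpow_scale hM0 hθ0 (by linarith) (by linarith) he0 he1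
      exact h8.trans (mul_le_mul_of_nonneg_left (le_max_right _ _) (by positivity))
  · have hkt' : (t : ℝ) ≤ (k : ℝ) + 1 := by exact_mod_cast hkt
    have h8 : M ^ (1 - 1 / ((t : ℝ) - 1)) ≤ 1 * n ^ (1 - 1 / ((t : ℝ) - 1)) :=
      rpow_scale hM0 (by linarith) le_rfl (by linarith) he0 he1
    have h9 : n ^ (1 - 1 / ((t : ℝ) - 1)) ≤ n ^ (1 - 1 / (k : ℝ)) :=
      Real.rpow_le_rpow_of_exponent_le hn (exp_mono_of (by linarith) (by linarith))
    have h10 : n ^ (1 - 1 / (k : ℝ)) ≤ mu n θ k := le_max_left _ _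
    nlinarith

/-- The additive constant. -/
noncomputable def C2 (r : ℕ) : ℝ :=
  (r : ℝ) ^ 2 + r + (12 * (r : ℝ) ^ 4) ^ 2 + 24 * (r : ℝ) ^ 4

/-- The constant for one clique. -/
noncomputable def Kr (r : ℕ) : ℝ :=
  ∑ t ∈ Finset.range (r + 2), (CD r t * (4 + 2 * C2 r) + 3 + 16 * r * CD r (t - 1))

/-- The final constant of the upper bound. -/
noncomputable def Cup (r : ℕ) : ℝ := 12 * (r : ℝ) ^ 4 + 2 ^ (12 * r ^ 4) * Kr r

theorem upper (r : ℕ) (hr : 2 ≤ r) : ∃ n₀ : ℕ, ∀ (V : Type) [Fintype V] [DecidableEq V]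
    (G : SimpleGraph V) (m k : ℕ) (θ : ℝ), n₀ ≤ Fintype.card V → IsSaturated r G →
    turanNumber r (Fintype.card V) ≤ numEdges G + m →
    1 ≤ k → m ≤ Fintype.card V → (m : ℝ) = k * (Fintype.card V : ℝ) / r + θ → 0 ≤ θ →
    θ < (Fintype.card V : ℝ) / r →
    ∃ D : Finset V, (D.card : ℝ) ≤ Cup r * mu (Fintype.card V) θ k ∧
      ∃ f : V → Fin r, ∀ u v, u ∉ D → v ∉ D → (G.Adj u v ↔ f u ≠ f v) := by
  classical
  have hr2 : (2 : ℝ) ≤ r := by exact_mod_cast hr
  have hr0 : (0 : ℝ) < r := by linarith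
  have hC2 : 0 ≤ C2 r := by unfold C2; positivity
  refine ⟨⌈12 * (r : ℝ) ^ 4 + 3 * (r : ℝ) ^ 2 + 2 * (r : ℝ) ^ 4 + 4 * (r : ℝ) ^ 4 +
    2 * r * C2 r + 1⌉₊, ?_⟩
  intro V _ _ G m k θ hn hsat hE hk hmn hm hθ0 hθ
  set n : ℝ := (Fintype.card V : ℝ) with hndef
  have hnbig : 12 * (r : ℝ) ^ 4 + 3 * (r : ℝ) ^ 2 + 2 * (r : ℝ) ^ 4 + 4 * (r : ℝ) ^ 4 +
    2 * r * C2 r + 1 ≤ n := (Nat.le_ceil _).trans (by rw [hndef]; exact_mod_cast hn)
  have hp4 : 0 ≤ (r : ℝ) ^ 4 := by positivity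
  have hp2 : 0 ≤ (r : ℝ) ^ 2 := by positivity
  have hrC : 0 ≤ 2 * r * C2 r := by positivity
  have hn1 : 1 ≤ n := by linarith
  have hmn' : (m : ℝ) ≤ n := by rw [hndef]; exact_mod_cast hmn
  set η : ℝ := 1 / (4 * (r : ℝ) ^ 4) with hη
  have hη0 : 0 < η := by positivity
  set β : ℝ := 1 - 1 / (r : ℝ) - η with hβ
  have hinv : 1 / (r : ℝ) ≤ 1 / 2 := one_div_le_one_div_of_le (by norm_num) hr2
  have hinv0 : 0 < 1 / (r : ℝ) := by positivity
  obtain ⟨Y, hY1, hY2, hY3⟩ := exists_core G β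
  rw [← hndef] at hY3
  set N : ℝ := (Y.card : ℝ) with hN
  have hNn : N ≤ n := by
    rw [hN, hndef]; exact_mod_cast Finset.card_le_univ Y
  have hN0 : 0 ≤ N := Nat.cast_nonneg _
  -- the number of exceptional vertices
  have hXb : n - N ≤ 12 * (r : ℝ) ^ 4 := by
    have h1 := turan_E2 G (by omega : 1 ≤ r) hsat.1 Y
    have h1' : (r : ℝ) * (E2 G Y : ℝ) ≤ ((r : ℝ) - 1) * N ^ 2 := by
      have : ((r * E2 G Y : ℕ) : ℝ) ≤ (((r - 1) * Y.card ^ 2 : ℕ) : ℝ) := by exact_mod_cast h1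
      push_cast [Nat.cast_sub (show 1 ≤ r by omega)] at this
      exact this
    have h2 : (E2 G Y : ℝ) ≤ (1 - 1 / (r : ℝ)) * N ^ 2 := by
      have : (r : ℝ) * ((1 - 1 / (r : ℝ)) * N ^ 2) = ((r : ℝ) - 1) * N ^ 2 := by field_simp
      exact le_of_mul_le_mul_left (by rw [this]; exact h1') hr0
    have h3 := turanNumber_lower r (Fintype.card V) (by omega)
    have hE' : (turanNumber r (Fintype.card V) : ℝ) ≤ (numEdges G : ℝ) + m := by exact_mod_cast hE
    rw [E2_univ] at hY3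
    push_cast at hY3
    rw [← hndef] at h3
    have h4 : η * (n ^ 2 - N ^ 2) ≤ (r : ℝ) ^ 2 + 2 * n := by
      have : η * n ^ 2 = (1 - 1 / (r : ℝ)) * n ^ 2 - β * n ^ 2 := by rw [hβ]; ring
      have : η * N ^ 2 = (1 - 1 / (r : ℝ)) * N ^ 2 - β * N ^ 2 := by rw [hβ]; ring
      nlinarith
    have h5 : (r : ℝ) ^ 2 ≤ n := by nlinarith
    have h6 : η * (n - N) * n ≤ 3 * n := by
      have : η * (n - N) * n ≤ η * (n ^ 2 - N ^ 2) := by
        have : η * (n ^ 2 - N ^ 2) = η * (n - N) * (n + N) := by ring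
        rw [this]
        apply mul_le_mul_of_nonneg_left (by linarith)
        apply mul_nonneg hη0.le (by linarith)
      linarith
    have h7 : η * (n - N) ≤ 3 := le_of_mul_le_mul_right h6 (by linarith)
    have h8 : (n - N) = (4 * (r : ℝ) ^ 4) * (η * (n - N)) := by
      rw [hη]; field_simp
    rw [h8]
    nlinarith
  have hNbig : 3 * (r : ℝ) ^ 2 ≤ N := by linarith
  have hN2 : 2 * (r : ℝ) ^ 4 ≤ N := by linarith
  have hN1 : 1 ≤ N := by nlinarith
  obtain ⟨f, hf⟩ := colorable_core G r hr hsat.1 Y hNbig hY1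
  have hms := missing_small G r hr f Y hf hN1 hY1
  have hX : ∀ x ∉ Y, (dg G Y x : ℝ) ≤ (1 - 1 / (r : ℝ)) * Y.card := by
    intro x hx
    refine (hY2 x hx).trans ?_
    rw [← hN]
    have h1 : 1 / 2 ≤ η * N := by
      rw [hη, div_mul_eq_mul_div, le_div_iff₀ (by positivity)]
      linarith
    have h2 : β * (N + 1 / 2) = (1 - 1 / (r : ℝ)) * N - η * N + β / 2 := by rw [hβ]; ring
    rw [h2]
    have h3 : β ≤ 1 := by rw [hβ]; linarith
    linarith
  set b : ℝ := N / (4 * (r : ℝ) ^ 3) + r with hb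
  have hb0 : 0 ≤ b := by positivity
  set δ : ℝ := r * b with hδ
  have hδ0 : 0 ≤ δ := by positivity
  have hrδ : r * δ ≤ n / (2 * r) := by
    have e1 : r * δ = N / (4 * r) + (r : ℝ) ^ 3 := by
      rw [hδ, hb]; field_simp
    rw [e1]
    have e2 : n / (2 * (r : ℝ)) = n / (4 * r) + n / (4 * r) := by field_simp; ring
    rw [e2]
    have e3 : N / (4 * (r : ℝ)) ≤ n / (4 * r) := by
      apply div_le_div_of_nonneg_right hNn (by positivity)
    have e4 : (r : ℝ) ^ 3 ≤ n / (4 * r) := by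
      rw [le_div_iff₀ (by positivity)]
      nlinarith
    linarith
  have hmu1 : 1 ≤ mu n θ k := one_le_mu n θ k hn1 hk
  have hKr : 0 ≤ Kr r := by
    unfold Kr
    apply Finset.sum_nonneg
    intro t _
    have h1 := CD_nonneg r t
    have h2 := CD_nonneg r (t - 1)
    positivity
  -- the cover for one clique
  have hcov : ∀ S : Finset V, ∃ D : Finset V, (∀ x ∈ S, x ∉ Y) →
      ((D.card : ℝ) ≤ Kr r * mu n θ k ∧ (G.IsClique (S : Set V) →
        ∀ u v, Crit G f (AS G f δ Y S) ((JS G f δ Y S).card + 1 - S.card) u v →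
          u ∈ D ∨ v ∈ D)) := by
    intro S
    by_cases hS : (∀ x ∈ S, x ∉ Y) ∧ G.IsClique (S : Set V) ∧
        2 ≤ (JS G f δ Y S).card + 1 - S.card
    swap
    · refine ⟨∅, fun hSY => ⟨?_, ?_⟩⟩
      · simp only [Finset.card_empty, Nat.cast_zero]
        have : 0 ≤ mu n θ k := by linarith
        positivity
      · intro hSc u v hcrit
        exfalso
        apply hS
        refine ⟨hSY, hSc, ?_⟩
        obtain ⟨_, _, _, _, K, _, hK, _⟩ := hcrit
        omega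
    obtain ⟨hSY, hSc, ht⟩ := hS
    set t := (JS G f δ Y S).card + 1 - S.card with htdef
    set A := AS G f δ Y S with hA
    have hAY : A ⊆ Y := (AS_subset_NS G f δ Y S).trans (NS_subset Y S)
    have hfree : ∀ K ⊆ A, G.IsClique (K : Set V) → K.card ≠ t := by
      intro K hK hKc hKt
      have := AS_clique G hsat.1 f Y hf b δ hb0 hms le_rfl S hSY hSc K hK hKc
      omega
    obtain ⟨D, hD1, hD2⟩ := local_cover G f A t ht
      (fun u hu v hv => hf u (hAY hu) v (hAY hv)) hfree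
    refine ⟨D, fun _ => ⟨?_, fun _ => hD1⟩⟩
    have hJr : (JS G f δ Y S).card ≤ r := (Finset.card_le_univ _).trans (by simp)
    have htr : t ≤ r + 1 := by omega
    have htmem : t ∈ Finset.range (r + 2) := by rw [Finset.mem_range]; omega
    have hcost := cost r hr G f δ Y hf m hE hX S hSY
    rw [← hndef, ← hN] at hcost
    set M : ℝ := ((miss G f A).card : ℝ) with hM
    have hMle : M ≤ ((miss G f Y).card : ℝ) := by
      rw [hM]; exact_mod_cast Finset.card_le_card (miss_mono G f hAY)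
    have hM0 : 0 ≤ M := Nat.cast_nonneg _
    have hts : (t : ℝ) - 1 = ((JS G f δ Y S).card : ℝ) - S.card := by
      have : t + S.card = (JS G f δ Y S).card + 1 := by omega
      have : (t : ℝ) + S.card = (JS G f δ Y S).card + 1 := by exact_mod_cast this
      linarith
    have ht1 : (1 : ℝ) ≤ (t : ℝ) - 1 := by
      have : (2 : ℝ) ≤ t := by exact_mod_cast ht
      linarith
    have htr' : (t : ℝ) - 1 ≤ r := by
      have : (t : ℝ) ≤ r + 1 := by exact_mod_cast htr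
      linarith
    have hMbound : M ≤ 2 * (m : ℝ) - 2 * ((t : ℝ) - 1) * n / r + 2 * (A.card : ℝ) + C2 r := by
      rw [← hts] at hcost
      have h1 : 2 * ((t : ℝ) - 1) * n / r - 24 * (r : ℝ) ^ 4 ≤ 2 * ((t : ℝ) - 1) * N / r := by
        have e1 : 2 * ((t : ℝ) - 1) * n / r - 2 * ((t : ℝ) - 1) * N / r =
            2 * (((t : ℝ) - 1) / r) * (n - N) := by ring
        have e2 : ((t : ℝ) - 1) / r ≤ 1 := by
          rw [div_le_one hr0]; exact htr'
        have e3 : 0 ≤ ((t : ℝ) - 1) / r := by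
          apply div_nonneg _ hr0.le; linarith
        have e4 : 2 * (((t : ℝ) - 1) / r) * (n - N) ≤ 2 * 1 * (12 * (r : ℝ) ^ 4) := by
          apply mul_le_mul _ hXb (by linarith) (by norm_num)
          linarith
        linarith
      have h2 : (n - N) ^ 2 ≤ (12 * (r : ℝ) ^ 4) ^ 2 :=
        pow_le_pow_left₀ (by linarith) hXb 2
      unfold C2
      linarith
    have hacard : (A.card : ℝ) ≤ n / (2 * r) :=
      (AS_card_le G f δ hδ0 Y S).trans hrδ
    have hCDt := CD_nonneg r t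
    have hCDt1 := CD_nonneg r (t - 1)
    have hterm : CD r t * (4 + 2 * C2 r) + 3 + 16 * r * CD r (t - 1) ≤ Kr r := by
      unfold Kr
      exact Finset.single_le_sum (f := fun t => CD r t * (4 + 2 * C2 r) + 3 + 16 * r * CD r (t - 1))
        (fun s _ => by
          have h1 := CD_nonneg r s
          have h2 := CD_nonneg r (s - 1)
          positivity) htmem
    have hmu0 : 0 ≤ mu n θ k := by linarith
    have hKmu : (CD r t * (4 + 2 * C2 r) + 3 + 16 * r * CD r (t - 1)) * mu n θ k ≤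
        Kr r * mu n θ k := mul_le_mul_of_nonneg_right hterm hmu0
    rcases hD2 with ⟨h4, hD⟩ | ⟨h4, hD⟩
    · have h4' : 4 * (A.card : ℝ) ≤ M := by rw [hM]; exact_mod_cast h4
      have h5 := num_i r n θ m M A.card (C2 r) k t hr2 hn1 hk ht hθ0 hθ hm hmn' hM0 hC2
        hMbound h4'
      have h6 : CD r t * M ^ (1 - 1 / (t : ℝ)) ≤ CD r t * ((4 + 2 * C2 r) * mu n θ k) :=
        mul_le_mul_of_nonneg_left h5 hCDt
      have h7 : 0 ≤ (3 + 16 * r * CD r (t - 1)) * mu n θ k := by positivity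
      linarith
    · have h4' : M < 4 * (A.card : ℝ) := by rw [hM]; exact_mod_cast h4
      have h5 := num_ii r n θ m M A.card (C2 r) k t hr2 hn1 hk ht hθ0 hθ hm hM0
        hMbound h4' hacard (by linarith) hC2
      have h6 : 4 * CD r (t - 1) * M ^ (1 - 1 / ((t - 1 : ℕ) : ℝ)) ≤
          4 * CD r (t - 1) * (4 * r * mu n θ k) :=
        mul_le_mul_of_nonneg_left h5 (by positivity)
      have h7 : 0 ≤ (CD r t * (4 + 2 * C2 r)) * mu n θ k := by positivity
      have h8 : 3 ≤ 3 * mu n θ k := by linarith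
      have h9 : 4 * CD r (t - 1) * (4 * r * mu n θ k) = (16 * r * CD r (t - 1)) * mu n θ k := by
        ring
      linarith
  choose DS hDS using hcov
  refine ⟨Yᶜ ∪ (Yᶜ).powerset.biUnion DS, ?_, f, ?_⟩
  · have hYc : ((Yᶜ : Finset V).card : ℝ) = n - N := by
      rw [Finset.card_compl, Nat.cast_sub (Finset.card_le_univ _)]
    have hYcn : (Yᶜ : Finset V).card ≤ 12 * r ^ 4 := by
      have : ((Yᶜ : Finset V).card : ℝ) ≤ ((12 * r ^ 4 : ℕ) : ℝ) := by
        rw [hYc]; push_cast; exact hXb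
      exact_mod_cast this
    have h1 : (((Yᶜ : Finset V) ∪ (Yᶜ).powerset.biUnion DS).card : ℝ) ≤
        ((Yᶜ : Finset V).card : ℝ) + ∑ S ∈ (Yᶜ : Finset V).powerset, ((DS S).card : ℝ) := by
      exact_mod_cast (Finset.card_union_le _ _).trans
        (Nat.add_le_add_left Finset.card_biUnion_le _)
    have h2 : ∑ S ∈ (Yᶜ : Finset V).powerset, ((DS S).card : ℝ) ≤
        ∑ S ∈ (Yᶜ : Finset V).powerset, Kr r * mu n θ k := by
      apply Finset.sum_le_sum
      intro S hS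
      have hS' := Finset.mem_powerset.mp hS
      exact (hDS S (fun x hx => by
        have := hS' hx
        rwa [Finset.mem_compl] at this)).1
    rw [Finset.sum_const, Finset.card_powerset, nsmul_eq_mul] at h2
    have h3 : (((2 ^ (Yᶜ : Finset V).card : ℕ) : ℝ)) ≤ 2 ^ (12 * r ^ 4) := by
      push_cast
      exact pow_le_pow_right₀ (by norm_num) hYcn
    have h4 : 0 ≤ Kr r * mu n θ k := by
      apply mul_nonneg hKr; linarith
    have h5 : ((2 ^ (Yᶜ : Finset V).card : ℕ) : ℝ) * (Kr r * mu n θ k) ≤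
        2 ^ (12 * r ^ 4) * (Kr r * mu n θ k) := mul_le_mul_of_nonneg_right h3 h4
    unfold Cup
    have h6 : (12 * (r : ℝ) ^ 4) ≤ (12 * (r : ℝ) ^ 4) * mu n θ k := by nlinarith
    have h7 : (12 * (r : ℝ) ^ 4 + 2 ^ (12 * r ^ 4) * Kr r) * mu n θ k =
        (12 * (r : ℝ) ^ 4) * mu n θ k + 2 ^ (12 * r ^ 4) * (Kr r * mu n θ k) := by ring
    rw [h7]
    linarith
  · intro u v hu hv
    have hu' : u ∈ Y := by
      by_contra h
      exact hu (Finset.mem_union_left _ (Finset.mem_compl.mpr h))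
    have hv' : v ∈ Y := by
      by_contra h
      exact hv (Finset.mem_union_left _ (Finset.mem_compl.mpr h))
    refine ⟨fun h => hf u hu' v hv' h, fun hfuv => ?_⟩
    by_contra hnadj
    obtain ⟨S, hSY, hSc, hcrit⟩ := missing_crit (by omega) G hsat f Y hf b δ hb0 hms le_rfl
      u v hu' hv' hfuv hnadj
    have hSmem : S ∈ (Yᶜ : Finset V).powerset := by
      rw [Finset.mem_powerset]
      intro x hx
      rw [Finset.mem_compl]
      exact hSY x hx
    rcases (hDS S hSY).2 hSc u v hcrit with h | h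
    · exact hu (Finset.mem_union_right _ (Finset.mem_biUnion.mpr ⟨S, hSmem, h⟩))
    · exact hv (Finset.mem_union_right _ (Finset.mem_biUnion.mpr ⟨S, hSmem, h⟩))

end Pool.Agent.H65.Sat
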