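import Pool.Agent.H65.Sat.Host2
import Pool.Agent.H65.Sat.Upper

/-!
The lower bound: choosing the parameters of the gadget.
-/

namespace Pool.Agent.H65.Sat

open Finset

lemma deficit_cast {t a : ℕ} {g : Gad t a} {r n m : ℕ} (htr : t ≤ r) (ht : 2 ≤ t)
    (hn : r * (Fintype.card g.α + 2) ≤ n)
    (hm : ((t : ℝ) - 1) * (n / r) + ((t : ℝ) - 1) * (1 - 1 / r) + t * (t - 1) * a ^ t / 2 -
      Fintype.card g.α ≤ m) :
    turanNumber r n ≤ numEdges (host g r n) + m := by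
  have hr : 0 < r := by omega
  have hrR : (0 : ℝ) < r := by exact_mod_cast hr
  have hn1 : 1 ≤ n := by
    have : 0 < r * (Fintype.card g.α + 2) := by positivity
    omega
  have h := host_edges (g := g) htr ht hn
  have hR : (2 : ℝ) * turanNumber r n + 2 * Fintype.card g.α ≤
      2 * numEdges (host g r n) + 2 * (((t : ℝ) - 1) * ((((n - 1) / r : ℕ) : ℝ) + 1)) +
        t * (t - 1) * (a : ℝ) ^ t := by
    have h' : ((2 * turanNumber r n + 2 * Fintype.card g.α : ℕ) : ℝ) ≤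
      ((2 * numEdges (host g r n) + 2 * ((t - 1) * ((n - 1) / r + 1)) + t * (t - 1) * a ^ t : ℕ) : ℝ) := by
      exact_mod_cast h
    have ht1 : 1 ≤ t := by omega
    push_cast [Nat.cast_sub ht1] at h'
    convert h' using 2
  have hdiv : (((n - 1) / r : ℕ) : ℝ) ≤ ((n : ℝ) - 1) / r := by
    have := @Nat.cast_div_le ℝ _ _ _ (n - 1) r
    rwa [Nat.cast_sub hn1, Nat.cast_one] at this
  have ht0 : (0 : ℝ) ≤ (t : ℝ) - 1 := by
    have : (2 : ℝ) ≤ t := by exact_mod_cast ht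
    linarith
  have h1 : ((t : ℝ) - 1) * ((((n - 1) / r : ℕ) : ℝ) + 1) ≤
      ((t : ℝ) - 1) * (n / r) + ((t : ℝ) - 1) * (1 - 1 / r) := by
    rw [← mul_add]
    apply mul_le_mul_of_nonneg_left _ ht0
    rw [sub_div] at hdiv
    linarith
  have hfin : (turanNumber r n : ℝ) ≤ ((numEdges (host g r n) + m : ℕ) : ℝ) := by
    push_cast
    linarith
  exact_mod_cast hfin

theorem opt (r : ℕ) (hr : 2 ≤ r) (t n : ℕ) (ht : 2 ≤ t) (htr : t ≤ r) (s : ℝ)
    (hs : 2 * (r : ℝ) ^ 2 ≤ s) (hsn : s ≤ n / r) (hn : 4 * r ≤ n) :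
    ∃ G : SimpleGraph (Fin n), IsSaturated r G ∧
      (∀ m : ℕ, ((t : ℝ) - 1) * (n / r) + s ≤ m → turanNumber r n ≤ numEdges G + m) ∧
      ∀ (D : Finset (Fin n)) (f : Fin n → Fin r),
        (∀ u v, u ∉ D → v ∉ D → (G.Adj u v ↔ f u ≠ f v)) →
          (1 / 2) ^ r / (r : ℝ) ^ 2 * s ^ (1 - 1 / (t : ℝ)) ≤ D.card := by
  have hrR : (2 : ℝ) ≤ r := by exact_mod_cast hr
  have hrpos : (0 : ℝ) < r := by linarith
  have hr2 : (0 : ℝ) < (r : ℝ) ^ 2 := by positivity
  have htR : (2 : ℝ) ≤ t := by exact_mod_cast ht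
  have htrR : (t : ℝ) ≤ r := by exact_mod_cast htr
  have hnR : 4 * (r : ℝ) ≤ n := by exact_mod_cast hn
  have hs0 : 0 < s := lt_of_lt_of_le (by positivity) hs
  set x : ℝ := s / (r : ℝ) ^ 2 with hx
  have hx2 : 2 ≤ x := by rw [hx, le_div_iff₀ hr2]; exact hs
  have hx0 : 0 < x := by linarith
  set y : ℝ := x ^ (1 / (t : ℝ)) with hy
  have hy1 : 1 ≤ y := Real.one_le_rpow (by linarith) (by positivity)
  have hyt : y ^ t = x := by
    rw [hy, ← Real.rpow_natCast, ← Real.rpow_mul hx0.le]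
    rw [one_div_mul_cancel (by positivity), Real.rpow_one]
  set a : ℕ := ⌊y⌋₊ with ha
  have ha1 : 1 ≤ a := by
    rw [ha]; exact Nat.le_floor (by exact_mod_cast hy1)
  have haR : (1 : ℝ) ≤ a := by exact_mod_cast ha1
  have hay : (a : ℝ) ≤ y := Nat.floor_le (by linarith)
  have hya : y < a + 1 := Nat.lt_floor_add_one y
  have hat : (a : ℝ) ^ t ≤ x := by
    rw [← hyt]; exact pow_le_pow_left₀ (by linarith) hay t
  obtain ⟨g⟩ := exists_gad a ha1 t ht
  have hαc : (Fintype.card g.α : ℝ) ≤ t * (a : ℝ) ^ (t - 1) := by exact_mod_cast g.card_le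
  have hιc : (Fintype.card g.ι : ℝ) = (a : ℝ) ^ (t - 1) := by exact_mod_cast g.card_ι
  have hatt : (a : ℝ) ^ (t - 1) ≤ x := by
    refine le_trans ?_ hat
    exact pow_le_pow_right₀ haR (by omega)
  have hxn : x ≤ n / (r : ℝ) ^ 3 := by
    rw [hx, div_le_div_iff₀ hr2 (by positivity)]
    calc s * (r : ℝ) ^ 3 ≤ (n / r) * (r : ℝ) ^ 3 := by
          apply mul_le_mul_of_nonneg_right hsn (by positivity)
      _ = n * (r : ℝ) ^ 2 := by field_simp
  have hn0 : (0 : ℝ) ≤ n := by positivity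
  have h1 : (r : ℝ) * (t * (a : ℝ) ^ (t - 1)) ≤ n / r := by
    calc (r : ℝ) * (t * (a : ℝ) ^ (t - 1)) ≤ r * (r * (n / (r : ℝ) ^ 3)) := by
          apply mul_le_mul_of_nonneg_left _ hrpos.le
          exact mul_le_mul htrR (hatt.trans hxn) (by positivity) hrpos.le
      _ = n / r := by field_simp
  have h2 : (n : ℝ) / r ≤ n / 2 := by
    apply div_le_div_of_nonneg_left hn0 (by norm_num) hrR
  have hn' : r * (Fintype.card g.α + 2) ≤ n := by
    have : ((r * (Fintype.card g.α + 2) : ℕ) : ℝ) ≤ n := by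
      push_cast
      have : (r : ℝ) * Fintype.card g.α ≤ r * (t * (a : ℝ) ^ (t - 1)) :=
        mul_le_mul_of_nonneg_left hαc hrpos.le
      linarith
    exact_mod_cast this
  have hbig : Fintype.card g.ι + Fintype.card g.α + 1 ≤ n / r := by
    rw [Nat.le_div_iff_mul_le (by omega)]
    have : (((Fintype.card g.ι + Fintype.card g.α + 1) * r : ℕ) : ℝ) ≤ n := by
      push_cast
      rw [hιc]
      have h3 : (r : ℝ) * Fintype.card g.α ≤ n / r :=
        (mul_le_mul_of_nonneg_left hαc hrpos.le).trans h1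
      have h4 : (r : ℝ) * (a : ℝ) ^ (t - 1) ≤ n / (r : ℝ) ^ 2 := by
        calc (r : ℝ) * (a : ℝ) ^ (t - 1) ≤ r * (n / (r : ℝ) ^ 3) :=
              mul_le_mul_of_nonneg_left (hatt.trans hxn) hrpos.le
          _ = n / (r : ℝ) ^ 2 := by field_simp
      have h5 : (n : ℝ) / (r : ℝ) ^ 2 ≤ n / 4 := by
        apply div_le_div_of_nonneg_left hn0 (by norm_num)
        nlinarith
      nlinarith
    exact_mod_cast this
  obtain ⟨G, hGs, hGe, hGD⟩ := host_lower (g := g) htr ht hn' hbig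
  refine ⟨G, hGs, ?_, ?_⟩
  · intro m hm
    refine (deficit_cast (g := g) (m := m) htr ht hn' ?_).trans (Nat.add_le_add_right hGe m)
    have h3 : (t : ℝ) * (t - 1) * (a : ℝ) ^ t / 2 ≤ s / 2 := by
      have h4 : (t : ℝ) * (t - 1) ≤ (r : ℝ) ^ 2 := by nlinarith
      have h5 : (t : ℝ) * (t - 1) * (a : ℝ) ^ t ≤ (r : ℝ) ^ 2 * x :=
        mul_le_mul h4 hat (by positivity) hr2.le
      have h6 : (r : ℝ) ^ 2 * x = s := by rw [hx]; field_simp
      linarith
    have h4 : ((t : ℝ) - 1) * (1 - 1 / r) ≤ s / 2 := by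
      have h5 : (0 : ℝ) < 1 / r := by positivity
      have h6 : ((t : ℝ) - 1) * (1 - 1 / r) ≤ (t - 1) * 1 := by
        apply mul_le_mul_of_nonneg_left (by linarith) (by linarith)
      nlinarith
    have h5 : (0 : ℝ) ≤ Fintype.card g.α := by positivity
    linarith
  · intro D f hDf
    have hD : (Fintype.card g.ι : ℝ) ≤ D.card := by exact_mod_cast hGD D f hDf
    refine le_trans ?_ hD
    rw [hιc]
    have hy2 : y / 2 ≤ a := by linarith
    have h3 : (y / 2) ^ (t - 1) ≤ (a : ℝ) ^ (t - 1) := pow_le_pow_left₀ (by linarith) hy2 _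
    refine le_trans ?_ h3
    have h4 : y ^ (t - 1) = x ^ (1 - 1 / (t : ℝ)) := by
      rw [hy, ← Real.rpow_natCast, ← Real.rpow_mul hx0.le]
      congr 1
      rw [Nat.cast_sub (by omega : 1 ≤ t), Nat.cast_one]
      field_simp
    rw [div_pow y 2, h4]
    have hexp : (0 : ℝ) ≤ 1 - 1 / (t : ℝ) := by
      have : 1 / (t : ℝ) ≤ 1 := by rw [div_le_one (by linarith)]; linarith
      linarith
    have h5 : s ^ (1 - 1 / (t : ℝ)) / (r : ℝ) ^ 2 ≤ x ^ (1 - 1 / (t : ℝ)) := by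
      rw [hx, Real.div_rpow hs0.le hr2.le]
      apply div_le_div_of_nonneg_left (by positivity) (by positivity)
      calc ((r : ℝ) ^ 2) ^ (1 - 1 / (t : ℝ)) ≤ ((r : ℝ) ^ 2) ^ (1 : ℝ) := by
            apply Real.rpow_le_rpow_of_exponent_le (by nlinarith)
            have : (0 : ℝ) < 1 / (t : ℝ) := by positivity
            linarith
        _ = (r : ℝ) ^ 2 := Real.rpow_one _
    have h6 : (1 / 2 : ℝ) ^ r ≤ 1 / 2 ^ (t - 1) := by
      rw [div_pow, one_pow]
      apply one_div_le_one_div_of_le (by positivity)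
      exact pow_le_pow_right₀ (by norm_num) (by omega)
    have hpos : 0 ≤ s ^ (1 - 1 / (t : ℝ)) / (r : ℝ) ^ 2 := by positivity
    calc (1 / 2) ^ r / (r : ℝ) ^ 2 * s ^ (1 - 1 / (t : ℝ)) =
          (1 / 2) ^ r * (s ^ (1 - 1 / (t : ℝ)) / (r : ℝ) ^ 2) := by ring
      _ ≤ (1 / 2 ^ (t - 1)) * x ^ (1 - 1 / (t : ℝ)) := mul_le_mul h6 h5 hpos (by positivity)
      _ = x ^ (1 - 1 / (t : ℝ)) / 2 ^ (t - 1) := by ring

/-- The case `k = 1`. -/
theorem opt_one (r : ℕ) (hr : 2 ≤ r) (n : ℕ) (θ : ℝ) (hθ : 0 ≤ θ) (hθn : θ ≤ n / r)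
    (hn : 64 * r ≤ n) :
    ∃ G : SimpleGraph (Fin n), IsSaturated r G ∧
      (∀ m : ℕ, (n / r : ℝ) + θ ≤ m → turanNumber r n ≤ numEdges G + m) ∧
      ∀ (D : Finset (Fin n)) (f : Fin n → Fin r),
        (∀ u v, u ∉ D → v ∉ D → (G.Adj u v ↔ f u ≠ f v)) →
          max 1 (Real.sqrt θ) ≤ D.card := by
  have hrR : (2 : ℝ) ≤ r := by exact_mod_cast hr
  have hrpos : (0 : ℝ) < r := by linarith
  have hnR : 64 * (r : ℝ) ≤ n := by exact_mod_cast hn
  set a : ℕ := ⌊Real.sqrt θ⌋₊ + 1 with ha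
  have ha1 : 1 ≤ a := by omega
  obtain ⟨g⟩ := exists_gad a ha1 2 le_rfl
  set w : ℝ := n / r with hw
  have hw64 : 64 ≤ w := by rw [hw, le_div_iff₀ hrpos]; exact hnR
  have haw : (a : ℝ) ≤ w / 8 + 1 := by
    rw [ha]
    push_cast
    have h1 : ((⌊Real.sqrt θ⌋₊ : ℕ) : ℝ) ≤ Real.sqrt θ := Nat.floor_le (Real.sqrt_nonneg _)
    have h2 : Real.sqrt θ ≤ Real.sqrt w := Real.sqrt_le_sqrt hθn
    have h3 : Real.sqrt w ≤ w / 8 := by
      rw [Real.sqrt_le_left (by linarith)]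
      nlinarith
    linarith
  have hαc : (Fintype.card g.α : ℝ) ≤ 2 * (a : ℝ) := by
    have := g.card_le
    have h : ((Fintype.card g.α : ℕ) : ℝ) ≤ ((2 * a ^ (2 - 1) : ℕ) : ℝ) := by exact_mod_cast this
    simpa using h
  have hαge : 2 * (a : ℝ) ≤ Fintype.card g.α := by
    exact_mod_cast g.card_ge
  have hιc : (Fintype.card g.ι : ℝ) = a := by
    have := g.card_ι
    rw [this]; simp
  have hn' : r * (Fintype.card g.α + 2) ≤ n := by
    have : ((r * (Fintype.card g.α + 2) : ℕ) : ℝ) ≤ n := by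
      push_cast
      have h1 : (n : ℝ) = r * w := by rw [hw]; field_simp
      rw [h1]
      apply mul_le_mul_of_nonneg_left _ hrpos.le
      linarith
    exact_mod_cast this
  have hbig : Fintype.card g.ι + Fintype.card g.α + 1 ≤ n / r := by
    rw [Nat.le_div_iff_mul_le (by omega)]
    have : (((Fintype.card g.ι + Fintype.card g.α + 1) * r : ℕ) : ℝ) ≤ n := by
      push_cast
      have h1 : (n : ℝ) = w * r := by rw [hw]; field_simp
      rw [h1, hιc]
      apply mul_le_mul_of_nonneg_right _ hrpos.le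
      linarith
    exact_mod_cast this
  obtain ⟨G, hGs, hGe, hGD⟩ := host_lower (g := g) hr le_rfl hn' hbig
  refine ⟨G, hGs, ?_, ?_⟩
  · intro m hm
    refine (deficit_cast (g := g) (m := m) hr le_rfl hn' ?_).trans (Nat.add_le_add_right hGe m)
    have h1 : ((a : ℝ) - 1) ^ 2 ≤ θ := by
      have h2 : (a : ℝ) - 1 ≤ Real.sqrt θ := by
        rw [ha]; push_cast
        have := Nat.floor_le (Real.sqrt_nonneg θ)
        linarith
      have h3 : (0 : ℝ) ≤ (a : ℝ) - 1 := by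
        have : (1 : ℝ) ≤ a := by exact_mod_cast ha1
        linarith
      calc ((a : ℝ) - 1) ^ 2 ≤ (Real.sqrt θ) ^ 2 := pow_le_pow_left₀ h3 h2 2
        _ = θ := Real.sq_sqrt hθ
    have h2 : (0 : ℝ) < 1 / r := by positivity
    push_cast
    nlinarith
  · intro D f hDf
    have hD : (Fintype.card g.ι : ℝ) ≤ D.card := by exact_mod_cast hGD D f hDf
    refine le_trans ?_ hD
    rw [hιc, max_le_iff]
    refine ⟨by exact_mod_cast ha1, ?_⟩
    rw [ha]
    push_cast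
    exact (Nat.lt_floor_add_one _).le

/-- The constant in the lower bound. -/
noncomputable def Clow (r : ℕ) : ℝ := (1 / 2) ^ r / (r : ℝ) ^ 2 / (2 * (r : ℝ) ^ 3)

lemma Clow_pos (r : ℕ) (hr : 2 ≤ r) : 0 < Clow r := by
  have hrR : (2 : ℝ) ≤ r := by exact_mod_cast hr
  unfold Clow
  positivity

lemma Clow_le (r : ℕ) (hr : 2 ≤ r) : Clow r ≤ (1 / 2) ^ r / (r : ℝ) ^ 2 := by
  have hrR : (2 : ℝ) ≤ r := by exact_mod_cast hr
  unfold Clow
  apply div_le_self (by positivity)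
  nlinarith [pow_le_pow_left₀ (by norm_num) hrR 3]

lemma Clow_le_one (r : ℕ) (hr : 2 ≤ r) : Clow r ≤ 1 := by
  have hrR : (2 : ℝ) ≤ r := by exact_mod_cast hr
  refine (Clow_le r hr).trans ?_
  have h1 : (1 / 2 : ℝ) ^ r ≤ 1 := pow_le_one₀ (by norm_num) (by norm_num)
  rw [div_le_one (by positivity)]
  nlinarith

theorem lower (r : ℕ) (hr : 2 ≤ r) (n m k : ℕ) (θ : ℝ) (hn : 2 * r ^ 3 ≤ n) (hn' : 64 * r ≤ n)
    (hk1 : 1 ≤ k) (hkr : k + 1 ≤ r) (hm : (m : ℝ) = k * n / r + θ) (hθ : 0 ≤ θ)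
    (hθn : θ < n / r) :
    ∃ G : SimpleGraph (Fin n), IsSaturated r G ∧ turanNumber r n ≤ numEdges G + m ∧
      ∀ (D : Finset (Fin n)) (f : Fin n → Fin r),
        (∀ u v, u ∉ D → v ∉ D → (G.Adj u v ↔ f u ≠ f v)) →
          Clow r * mu n θ k ≤ D.card := by
  have hrR : (2 : ℝ) ≤ r := by exact_mod_cast hr
  have hrpos : (0 : ℝ) < r := by linarith
  have hnR : 2 * (r : ℝ) ^ 3 ≤ n := by exact_mod_cast hn
  have hr3 : (8 : ℝ) ≤ (r : ℝ) ^ 3 := by
    have := pow_le_pow_left₀ (by norm_num) hrR 3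
    linarith
  have hr2 : (4 : ℝ) ≤ (r : ℝ) ^ 2 := by nlinarith
  have hn1 : (1 : ℝ) ≤ n := by linarith
  have hCpos := Clow_pos r hr
  rcases Nat.lt_or_ge 1 k with hk | hk
  · -- `k ≥ 2`
    have hkR : (2 : ℝ) ≤ k := by exact_mod_cast hk
    have hs1 : 2 * (r : ℝ) ^ 2 ≤ (n : ℝ) / r := by
      rw [le_div_iff₀ hrpos]
      nlinarith
    have hkdiv : (0 : ℝ) ≤ 1 - 1 / (k : ℝ) := by
      have : 1 / (k : ℝ) ≤ 1 := by rw [div_le_one (by linarith)]; linarith
      linarith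
    have hnk1 : (1 : ℝ) ≤ (n : ℝ) ^ (1 - 1 / (k : ℝ)) := Real.one_le_rpow hn1 hkdiv
    by_cases hcase : θ ^ (1 - 1 / ((k : ℝ) + 1)) ≤ (n : ℝ) ^ (1 - 1 / (k : ℝ)) * (2 * (r : ℝ) ^ 2)
    · obtain ⟨G, hG1, hG2, hG3⟩ := opt r hr k n hk (by omega) (n / r) hs1 le_rfl (by omega)
      refine ⟨G, hG1, ?_, ?_⟩
      · apply hG2
        rw [hm]
        have : ((k : ℝ) - 1) * (n / r) + n / r = k * n / r := by ring
        linarith
      intro D f hDf
      refine le_trans ?_ (hG3 D f hDf)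
      have hAb : (1 / 2) ^ r / (r : ℝ) ^ 2 / r * (n : ℝ) ^ (1 - 1 / (k : ℝ)) ≤
          (1 / 2) ^ r / (r : ℝ) ^ 2 * ((n : ℝ) / r) ^ (1 - 1 / (k : ℝ)) := by
        rw [Real.div_rpow (by linarith) hrpos.le, div_mul_eq_mul_div _ (r : ℝ) _, mul_div_assoc]
        apply mul_le_mul_of_nonneg_left _ (by positivity)
        apply div_le_div_of_nonneg_left (by positivity) (by positivity)
        calc (r : ℝ) ^ (1 - 1 / (k : ℝ)) ≤ (r : ℝ) ^ (1 : ℝ) := by
              apply Real.rpow_le_rpow_of_exponent_le (by linarith)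
              have : (0 : ℝ) < 1 / (k : ℝ) := by positivity
              linarith
          _ = r := Real.rpow_one _
      refine le_trans ?_ hAb
      have hmu : mu n θ k ≤ (n : ℝ) ^ (1 - 1 / (k : ℝ)) * (2 * (r : ℝ) ^ 2) := by
        unfold mu
        apply max_le _ hcase
        nlinarith
      calc Clow r * mu n θ k ≤ Clow r * ((n : ℝ) ^ (1 - 1 / (k : ℝ)) * (2 * (r : ℝ) ^ 2)) :=
            mul_le_mul_of_nonneg_left hmu hCpos.le
        _ = (1 / 2) ^ r / (r : ℝ) ^ 2 / r * (n : ℝ) ^ (1 - 1 / (k : ℝ)) := by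
            unfold Clow
            field_simp
    · push Not at hcase
      have hexp1 : 1 - 1 / ((k : ℝ) + 1) ≤ 1 := by
        have : (0 : ℝ) < 1 / ((k : ℝ) + 1) := by positivity
        linarith
      have hexp0 : 0 ≤ 1 - 1 / ((k : ℝ) + 1) := by
        have : 1 / ((k : ℝ) + 1) ≤ 1 := by rw [div_le_one (by linarith)]; linarith
        linarith
      have hθ2 : 2 * (r : ℝ) ^ 2 ≤ θ := by
        by_contra hlt
        push Not at hlt
        have h1 : θ ^ (1 - 1 / ((k : ℝ) + 1)) ≤ (2 * (r : ℝ) ^ 2) ^ (1 - 1 / ((k : ℝ) + 1)) :=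
          Real.rpow_le_rpow hθ hlt.le hexp0
        have h2 : (2 * (r : ℝ) ^ 2) ^ (1 - 1 / ((k : ℝ) + 1)) ≤ (2 * (r : ℝ) ^ 2) ^ (1 : ℝ) :=
          Real.rpow_le_rpow_of_exponent_le (by linarith) hexp1
        rw [Real.rpow_one] at h2
        nlinarith
      obtain ⟨G, hG1, hG2, hG3⟩ := opt r hr (k + 1) n (by omega) hkr θ hθ2 hθn.le (by omega)
      refine ⟨G, hG1, ?_, ?_⟩
      · apply hG2
        rw [hm]
        push_cast
        have : ((k : ℝ) + 1 - 1) * (n / r) = k * n / r := by ring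
        linarith
      intro D f hDf
      refine le_trans ?_ (hG3 D f hDf)
      push_cast
      have hmu : mu n θ k ≤ θ ^ (1 - 1 / ((k : ℝ) + 1)) := by
        unfold mu
        apply max_le _ le_rfl
        nlinarith
      calc Clow r * mu n θ k ≤ Clow r * θ ^ (1 - 1 / ((k : ℝ) + 1)) :=
            mul_le_mul_of_nonneg_left hmu hCpos.le
        _ ≤ (1 / 2) ^ r / (r : ℝ) ^ 2 * θ ^ (1 - 1 / ((k : ℝ) + 1)) :=
            mul_le_mul_of_nonneg_right (Clow_le r hr) (by positivity)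
  · obtain rfl : k = 1 := by omega
    obtain ⟨G, hG1, hG2, hG3⟩ := opt_one r hr n θ hθ hθn.le hn'
    refine ⟨G, hG1, ?_, ?_⟩
    · apply hG2
      rw [hm]
      push_cast
      rw [one_mul]
    · intro D f hDf
      refine le_trans ?_ (hG3 D f hDf)
      have hmu : mu n θ 1 = max 1 (Real.sqrt θ) := by
        unfold mu
        rw [Real.sqrt_eq_rpow]
        norm_num
      have hpos : 0 ≤ mu n θ 1 := by
        rw [hmu]; exact le_trans zero_le_one (le_max_left _ _)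
      rw [← hmu]
      calc Clow r * mu n θ 1 ≤ 1 * mu n θ 1 :=
            mul_le_mul_of_nonneg_right (Clow_le_one r hr) hpos
        _ = mu n θ 1 := one_mul _

end Pool.Agent.H65.Sat
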